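import Pool.Agent.LibPX.PDefs

/-!
# PQ: polylogarithmic exceptional sets for all rational numbers of bounded denominator: definitions

The level `q` of `DatX` is a huge common multiple of the denominators; the class `x` is the rational number `x / q`, whose denominator
`b` is small.  The rows are scaled (variable `z = j / q`), so that `q` disappears from the sizes of the rows and of the common denominators.
-/

namespace CM68

open Finset Polynomial

/-- `z (z - 1) ⋯ (z - i + 1) / i!` -/
noncomputable def ebin (i : ℕ) (z : ℝ) : ℝ := (∏ l ∈ range i, (z - (l : ℝ))) / (i.factorial : ℝ)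

namespace DatX

variable (D : DatX)

/-- the weight of a row -/
def sw (s : D.Ix) : ℕ := ∑ i, D.ks i * s.ex i

/-- the degree of the multiplier -/
def gQ (n T : ℕ) : ℕ := D.E * (D.ww * win n T)

/-- the scaled rows -/
noncomputable def rho (T : ℕ) (s : D.Ix) (j : ℕ) : ℝ := (D.q : ℝ) ^ D.sw s * D.row T s j

/-- the scaled multiplier -/
noncomputable def OmQ (n T j : ℕ) : ℝ := (D.Om n T).eval (j : ℝ) ^ D.E / (D.q : ℝ) ^ (2 * D.gQ n T)

/-- the rows of the matrix -/
noncomputable def rowQ (n T : ℕ) (s : D.Ix) (i j : ℕ) : ℝ :=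
  D.rho T s j * (D.OmQ n T j * ebin i ((j : ℝ) / D.q))

/-- the columns: the denominator `b` of the class `x / q` and of the shifts is at most `Qb` -/
def Col (Qb x : ℕ) : Prop :=
  ∃ e b : ℕ, 2 ≤ b ∧ b ≤ Qb ∧ D.q = e * b ∧ e ∣ x ∧ (∀ i, e ∣ D.cs i) ∧ ∀ i, e ∣ D.ct i

end DatX

end CM68
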