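import Pool.Agent.LibCM68.A1
import Pool.Agent.LibPX.X4
import Pool.Agent.LibPQ.QDefs

/-!
# Row CB: the size of the coefficient functions (SHORT/MEDIUM)

At a node `Sx q (ks i) (cs i) (j % q) = aS T i j + pS T i j` (`split` in LibCM68/A1.lean, see the private `X3_Sx` in LibPX/X3.lean: copy), so `|aS| ≤ Cs + win n T ≤ (Cs + 1) * win n T` with
`Cs = ∑ i, ∑ x ∈ range q, |Sx q (ks i) (cs i) x|`, `|pS| ≤ win` (`pS_leX`); `|Tx| ≤ Ct = 1 + ∑ i, ∑ x ∈ range q, |Tx q (kt i) (ct i) x|`.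
`|Cf| ≤ ((Cs + 1) win)^(∑ μ.1) * Ct^(∑ μ.2) ≤ ((Cs + 1)^B * Ct^E) * win^B`, `∑ μ.1 ≤ B`, `∑ μ.2 ≤ E` (`mem_expo`; `DatX.Mm`); `Finset.abs_prod`, `Finset.prod_pow_eq_pow_sum`.
-/

namespace CM68

open Finset Polynomial

private theorem CB_I (D : DatX) {n j : ℕ} (hj : j ∈ D.Nd n) : j % D.q ∈ D.I :=
  (Finset.mem_filter.1 (show j ∈ (range (D.q * (n - 1))).filter fun j => j % D.q ∈ D.I from hj)).2

private theorem CB_Sx (D : DatX) {n j : ℕ} (T : ℕ) (hj : j ∈ D.Nd n) (i : Fin D.N) :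
    Sx D.q (D.ks i) (D.cs i) (j % D.q) = D.aS T i j + D.pS T i j := by
  have hx := CB_I D hj
  have hq := D.hq
  have h3 : 0 < (j + D.cs i) % D.q := by
    have h4 := D.hxs _ hx i
    rwa [Nat.mod_add_mod] at h4
  unfold Sx DatX.aS DatX.pS
  rw [Nat.mod_add_mod, add_comm (tl _ _ _ _)]
  exact split (by omega) (D.hks i).1 T h3

private theorem CB_single {N q : ℕ} (F : Fin N → ℕ → ℝ) (i : Fin N) {x : ℕ} (hx : x < q) :
    |F i x| ≤ ∑ i, ∑ x ∈ range q, |F i x| := by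
  have h1 : |F i x| ≤ ∑ x ∈ range q, |F i x| :=
    Finset.single_le_sum (f := fun x => |F i x|) (fun _ _ => abs_nonneg _) (Finset.mem_range.2 hx)
  have h2 : ∑ x ∈ range q, |F i x| ≤ ∑ i, ∑ x ∈ range q, |F i x| :=
    Finset.single_le_sum (f := fun i => ∑ x ∈ range q, |F i x|)
      (fun _ _ => Finset.sum_nonneg fun _ _ => abs_nonneg _) (Finset.mem_univ i)
  exact h1.trans h2

private theorem CB_prod {N : ℕ} (f : Fin N → ℝ) (e : Fin N → ℕ) {a : ℝ} (ha : 1 ≤ a)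
    (hf : ∀ i, |f i| ≤ a) {B : ℕ} (he : ∑ i, e i ≤ B) : |∏ i, f i ^ e i| ≤ a ^ B := by
  rw [Finset.abs_prod]
  have h1 : ∏ i, |f i ^ e i| ≤ ∏ i, a ^ e i := by
    refine Finset.prod_le_prod (fun _ _ => abs_nonneg _) fun i _ => ?_
    rw [abs_pow]
    exact pow_le_pow_left₀ (abs_nonneg _) (hf i) _
  refine h1.trans ?_
  rw [Finset.prod_pow_eq_pow_sum]
  exact pow_le_pow_right₀ ha he

theorem Cf_leQ (D : DatX) : ∃ C : ℝ, 1 ≤ C ∧ ∀ (n T : ℕ) (μ : Mon D.N D.M), μ ∈ D.Mm →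
    ∀ j ∈ D.Nd n, |D.Cf T μ j| ≤ C * (win n T : ℝ) ^ D.B := by
  set Cs : ℝ := ∑ i, ∑ x ∈ range D.q, |Sx D.q (D.ks i) (D.cs i) x| with hCs
  set Ct : ℝ := ∑ i, ∑ x ∈ range D.q, |Tx D.q (D.kt i) (D.ct i) x| with hCt
  have hCs0 : 0 ≤ Cs := Finset.sum_nonneg fun _ _ => Finset.sum_nonneg fun _ _ => abs_nonneg _
  have hCt0 : 0 ≤ Ct := Finset.sum_nonneg fun _ _ => Finset.sum_nonneg fun _ _ => abs_nonneg _
  have h1s : (1 : ℝ) ≤ Cs + 1 := by linarith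
  have h1t : (1 : ℝ) ≤ Ct + 1 := by linarith
  refine ⟨(Cs + 1) ^ D.B * (Ct + 1) ^ D.E,
    one_le_mul_of_one_le_of_one_le (one_le_pow₀ h1s) (one_le_pow₀ h1t), ?_⟩
  intro n T μ hμ j hj
  have hq : 0 < D.q := by have := D.hq; omega
  have hjq : j % D.q < D.q := Nat.mod_lt _ hq
  have hwin : (1 : ℝ) ≤ win n T := by
    have h : 1 ≤ win n T := by unfold win; omega
    exact_mod_cast h
  have hA : ∀ i, |D.aS T i j| ≤ (Cs + 1) * win n T := by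
    intro i
    have h2 : D.aS T i j = Sx D.q (D.ks i) (D.cs i) (j % D.q) - D.pS T i j := by
      rw [CB_Sx D T hj i]
      ring
    rw [h2]
    have h3 := CB_single (fun i x => Sx D.q (D.ks i) (D.cs i) x) i hjq
    have h4 := pS_leX (T := T) D hj i
    have h5 : |Sx D.q (D.ks i) (D.cs i) (j % D.q) - D.pS T i j| ≤
        |Sx D.q (D.ks i) (D.cs i) (j % D.q)| + |D.pS T i j| := abs_sub _ _
    have h6 : Cs ≤ Cs * win n T := le_mul_of_one_le_right hCs0 hwin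
    have h7 : |Sx D.q (D.ks i) (D.cs i) (j % D.q)| ≤ Cs := h3
    calc _ ≤ _ := h5
      _ ≤ Cs + win n T := add_le_add h7 h4
      _ ≤ Cs * win n T + win n T := by linarith
      _ = _ := by ring
  have hT : ∀ i, |Tx D.q (D.kt i) (D.ct i) (j % D.q)| ≤ Ct + 1 := by
    intro i
    have h3 := CB_single (fun i x => Tx D.q (D.kt i) (D.ct i) x) i hjq
    have h7 : |Tx D.q (D.kt i) (D.ct i) (j % D.q)| ≤ Ct := h3
    linarith
  have hμ' := Finset.mem_product.1 (show μ ∈ expo D.N D.B ×ˢ expo D.M D.E from hμ)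
  rw [mem_expo, mem_expo] at hμ'
  unfold DatX.Cf
  rw [abs_mul]
  have h8 := CB_prod (fun i => D.aS T i j) μ.1 (a := (Cs + 1) * win n T)
    (one_le_mul_of_one_le_of_one_le h1s hwin) hA hμ'.1
  have h9 := CB_prod (fun i => Tx D.q (D.kt i) (D.ct i) (j % D.q)) μ.2 h1t hT hμ'.2
  refine (mul_le_mul h8 h9 (abs_nonneg _) (by positivity)).trans_eq ?_
  rw [mul_pow]
  ring

end CM68
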