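import Mathlib

/-!
# Row PB: the Hilbert function is smaller than the exponential (SHORT, ONLY MATHLIB; template: LibPX/PA1.lean with `lam ^ 2` replaced by `Lam`)

`y = 26 Lam K ≥ 1`, `b₀ + 1 = y^2`.
-/

namespace CM68

theorem parbQ {K Lam : ℕ} (hK : 1 ≤ K) (hLam : 1 ≤ Lam) :
    ((((26 * Lam * K) ^ 2 - 1 : ℕ) : ℝ) + 1) ^ K <
      (1 + 1 / (12 * (Lam : ℝ))) ^ ((26 * Lam * K) ^ 2 - 1) := by
  have hK' : (1 : ℝ) ≤ K := by exact_mod_cast hK
  have hL' : (1 : ℝ) ≤ Lam := by exact_mod_cast hLam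
  have hL0 : (0 : ℝ) < Lam := by linarith
  have hy1 : (1 : ℝ) < 26 * (Lam : ℝ) * K := by nlinarith [mul_le_mul hL' hK' zero_le_one hL0.le]
  set y : ℝ := 26 * (Lam : ℝ) * K with hy
  have hy0 : 0 < y := by linarith
  have hnat : 1 ≤ (26 * Lam * K) ^ 2 := Nat.one_le_pow _ _ (by positivity)
  have hb : (((26 * Lam * K) ^ 2 - 1 : ℕ) : ℝ) = y ^ 2 - 1 := by
    rw [Nat.cast_sub hnat, hy]
    push_cast
    ring
  have hbase : (0 : ℝ) < 1 + 1 / (12 * (Lam : ℝ)) := by positivity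
  have hlog : 1 / (13 * (Lam : ℝ)) ≤ Real.log (1 + 1 / (12 * (Lam : ℝ))) := by
    have h1 := Real.one_sub_inv_le_log_of_pos hbase
    refine le_trans ?_ h1
    have h2 : 1 - (1 + 1 / (12 * (Lam : ℝ)))⁻¹ = 1 / (12 * (Lam : ℝ) + 1) := by
      field_simp
      ring
    rw [h2]
    apply one_div_le_one_div_of_le (by positivity)
    linarith
  have hLpos : (0 : ℝ) < y ^ 2 := by positivity
  rw [hb, sub_add_cancel]
  have hR0 : 0 < (1 + 1 / (12 * (Lam : ℝ))) ^ ((26 * Lam * K) ^ 2 - 1) := pow_pos hbase _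
  have hL0' : 0 < (y ^ 2) ^ K := by positivity
  rw [← Real.log_lt_log_iff hL0' hR0, Real.log_pow, Real.log_pow, Real.log_pow, hb]
  have hly : Real.log y ≤ y - 1 := Real.log_le_sub_one_of_pos hy0
  have hly0 : 0 ≤ Real.log y := Real.log_nonneg hy1.le
  have h2K : (K : ℝ) * 2 = y / (13 * (Lam : ℝ)) := by
    rw [hy]
    field_simp
    ring
  have hlhs : (K : ℝ) * (((2 : ℕ) : ℝ) * Real.log y) = y * Real.log y / (13 * (Lam : ℝ)) := by
    have : (K : ℝ) * (((2 : ℕ) : ℝ) * Real.log y) = ((K : ℝ) * 2) * Real.log y := by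
      push_cast
      ring
    rw [this, h2K]
    ring
  rw [hlhs]
  have h13 : (0 : ℝ) < 13 * (Lam : ℝ) := by positivity
  have hy21 : 0 ≤ y ^ 2 - 1 := by nlinarith
  calc y * Real.log y / (13 * (Lam : ℝ)) < (y ^ 2 - 1) / (13 * (Lam : ℝ)) := by
        apply div_lt_div_of_pos_right _ h13
        nlinarith [mul_le_mul_of_nonneg_left hly hy0.le]
    _ = (y ^ 2 - 1) * (1 / (13 * (Lam : ℝ))) := by ring
    _ ≤ (y ^ 2 - 1) * Real.log (1 + 1 / (12 * (Lam : ℝ))) := mul_le_mul_of_nonneg_left hlog hy21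

end CM68
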