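import Pool.Agent.LibCM2.C1

/-!
# Row PE: the ratio of the binomial coefficients (SHORT; template: LibPX/PA2.lean with `lam ^ 2` replaced by `Lam`, copy the private lemmas)
-/

namespace CM68

private theorem PE_hockey (n g : ℕ) :
    ∑ j ∈ Finset.range (g + 1), (n + j).choose j = (n + 1 + g).choose g := by
  induction g with
  | zero => simp
  | succ g ih =>
    rw [Finset.sum_range_succ, ih, show n + 1 + (g + 1) = (n + 1 + g) + 1 by ring,
      Nat.choose_succ_succ, show n + (g + 1) = n + 1 + g by ring]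

private theorem PE_card_expo (n g : ℕ) : (expo n g).card = (n + g).choose g := by
  induction n generalizing g with
  | zero =>
    have : expo 0 g = {fun i => i.elim0} := by
      ext β
      rw [mem_expo, Finset.mem_singleton]
      constructor
      · intro _
        funext i
        exact i.elim0
      · intro _
        simp
    rw [this]
    simp
  | succ n ih =>
    have hmap : ∀ β ∈ expo (n + 1) g, β 0 ∈ Finset.range (g + 1) := by
      intro β hβ
      rw [mem_expo, Fin.sum_univ_succ] at hβ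
      rw [Finset.mem_range]
      omega
    rw [Finset.card_eq_sum_card_fiberwise hmap]
    have hfib : ∀ i ∈ Finset.range (g + 1), ((expo (n + 1) g).filter fun β => β 0 = i).card
        = (n + (g - i)).choose (g - i) := by
      intro i hi
      rw [Finset.mem_range] at hi
      rw [← ih (g - i)]
      refine Finset.card_bij' (fun β _ => Fin.tail β) (fun γ _ => Fin.cons i γ) ?_ ?_ ?_ ?_
      · intro β hβ
        rw [Finset.mem_filter, mem_expo, Fin.sum_univ_succ] at hβ
        rw [mem_expo]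
        have h1 : ∑ j, Fin.tail β j = ∑ j : Fin n, β j.succ := rfl
        rw [h1]
        omega
      · intro γ hγ
        rw [mem_expo] at hγ
        rw [Finset.mem_filter, mem_expo, Fin.sum_univ_succ]
        simp only [Fin.cons_zero, Fin.cons_succ]
        refine ⟨?_, trivial⟩
        omega
      · intro β hβ
        rw [Finset.mem_filter] at hβ
        rw [← hβ.2]
        exact Fin.cons_self_tail β
      · intro γ _
        exact Fin.tail_cons (α := fun _ => ℕ) i γ
    rw [Finset.sum_congr rfl hfib]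
    have hr := Finset.sum_range_reflect (fun j => (n + j).choose j) (g + 1)
    simp only [Nat.add_sub_cancel] at hr
    rw [hr, PE_hockey]

private theorem PE_step (n b : ℕ) :
    ((n + 1 + b).choose (n + 1) : ℝ) = ((n : ℝ) + 1 + b) / ((n : ℝ) + 1) * ((n + b).choose n : ℝ) := by
  have h := Nat.add_one_mul_choose_eq (n + b) n
  have h2 : ((n + b + 1 : ℕ) : ℝ) * ((n + b).choose n : ℝ) =
      ((n + b + 1).choose (n + 1) : ℝ) * ((n + 1 : ℕ) : ℝ) := by exact_mod_cast h
  rw [show n + 1 + b = n + b + 1 by ring]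
  have h0 : ((n : ℝ) + 1) ≠ 0 := by positivity
  field_simp
  push_cast at h2
  linarith

private theorem PE_ratio (n c e : ℕ) :
    ((n + (c + e)).choose n : ℝ) ≤ (1 + (e : ℝ) / ((c : ℝ) + 1)) ^ n * ((n + c).choose n : ℝ) := by
  induction n with
  | zero => simp
  | succ n ih =>
    rw [PE_step, PE_step, pow_succ]
    have hc : (0 : ℝ) < (c : ℝ) + 1 := by positivity
    have hn : (0 : ℝ) < (n : ℝ) + 1 := by positivity
    have he : (0 : ℝ) ≤ (e : ℝ) := by positivity
    have h1 : ((n : ℝ) + 1 + ((c + e : ℕ) : ℝ)) / ((n : ℝ) + 1) ≤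
        (1 + (e : ℝ) / ((c : ℝ) + 1)) * (((n : ℝ) + 1 + c) / ((n : ℝ) + 1)) := by
      rw [← mul_div_assoc]
      apply div_le_div_of_nonneg_right _ hn.le
      push_cast
      have h2 : (1 + (e : ℝ) / ((c : ℝ) + 1)) * ((n : ℝ) + 1 + c) =
          ((n : ℝ) + 1 + c) + e + (e : ℝ) * n / ((c : ℝ) + 1) := by
        field_simp
        ring
      rw [h2]
      have h3 : (0 : ℝ) ≤ (e : ℝ) * n / ((c : ℝ) + 1) := by positivity
      linarith
    calc ((n : ℝ) + 1 + ((c + e : ℕ) : ℝ)) / ((n : ℝ) + 1) * ((n + (c + e)).choose n : ℝ)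
        ≤ ((1 + (e : ℝ) / ((c : ℝ) + 1)) * (((n : ℝ) + 1 + c) / ((n : ℝ) + 1))) *
          ((1 + (e : ℝ) / ((c : ℝ) + 1)) ^ n * ((n + c).choose n : ℝ)) :=
          mul_le_mul h1 ih (by positivity) (by positivity)
      _ = _ := by ring

private theorem PE_exp {x : ℝ} (h0 : 0 ≤ x) (h1 : x ≤ 1 / 2) : Real.exp x ≤ 1 + 2 * x := by
  have h2 : 1 - x ≤ Real.exp (-x) := by
    have := Real.add_one_le_exp (-x)
    linarith
  rw [Real.exp_neg] at h2
  have h3 : 0 < Real.exp x := Real.exp_pos x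
  have h4 : (1 - x) * Real.exp x ≤ 1 := by
    calc (1 - x) * Real.exp x ≤ (Real.exp x)⁻¹ * Real.exp x := mul_le_mul_of_nonneg_right h2 h3.le
      _ = 1 := inv_mul_cancel₀ h3.ne'
  nlinarith

theorem expo_ratioQ {N g Lam e : ℕ} (hN : 1 ≤ N) (hg : 1 ≤ g) (hLam : 1 ≤ Lam) (heg : e ≤ g) :
    ((expo N (25 * Lam * g * N)).card : ℝ) ≤
      (1 + 1 / (12 * (Lam : ℝ))) * (expo N (25 * Lam * g * N - e)).card := by
  have hL : (1 : ℝ) ≤ (Lam : ℝ) := by exact_mod_cast hLam
  have hNr : (1 : ℝ) ≤ (N : ℝ) := by exact_mod_cast hN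
  have hgr : (1 : ℝ) ≤ (g : ℝ) := by exact_mod_cast hg
  have hegr : (e : ℝ) ≤ (g : ℝ) := by exact_mod_cast heg
  have hl2 : 1 ≤ Lam := hLam
  have hle : g ≤ Lam * g * N := by
    calc g = 1 * g * 1 := by ring
      _ ≤ Lam * g * N := Nat.mul_le_mul (Nat.mul_le_mul hl2 le_rfl) hN
  obtain ⟨c, hc⟩ : ∃ c, 25 * Lam * g * N = c + e := by
    refine ⟨25 * Lam * g * N - e, ?_⟩
    have : 25 * Lam * g * N = 25 * (Lam * g * N) := by ring
    omega
  have hcc : 24 * (Lam * g * N) ≤ c := by
    have : 25 * Lam * g * N = 25 * (Lam * g * N) := by ring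
    omega
  rw [hc, Nat.add_sub_cancel, PE_card_expo, PE_card_expo]
  have hs : ∀ b : ℕ, (N + b).choose b = (N + b).choose N := fun b =>
    (Nat.choose_symm_add (a := N) (b := b)).symm
  rw [hs, hs]
  refine (PE_ratio N c e).trans (mul_le_mul_of_nonneg_right ?_ (by positivity))
  have hcr : 24 * ((Lam : ℝ) * g * N) ≤ (c : ℝ) := by exact_mod_cast hcc
  set u : ℝ := (e : ℝ) / ((c : ℝ) + 1) with hu
  have hu0 : 0 ≤ u := by positivity
  have hpos : 0 < 24 * ((Lam : ℝ) * g * N) := by positivity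
  have hu1 : (N : ℝ) * u ≤ 1 / (24 * (Lam : ℝ)) := by
    rw [hu, ← mul_div_assoc, div_le_div_iff₀ (by positivity) (by positivity)]
    have h1 : (N : ℝ) * e ≤ N * g := mul_le_mul_of_nonneg_left hegr (by positivity)
    have h2 : (N : ℝ) * e * (24 * (Lam : ℝ)) ≤ N * g * (24 * (Lam : ℝ)) :=
      mul_le_mul_of_nonneg_right h1 (by positivity)
    calc (N : ℝ) * e * (24 * (Lam : ℝ)) ≤ N * g * (24 * (Lam : ℝ)) := h2
      _ = 24 * ((Lam : ℝ) * g * N) := by ring
      _ ≤ 1 * ((c : ℝ) + 1) := by linarith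
  have hu2 : (N : ℝ) * u ≤ 1 / 2 := by
    refine hu1.trans ?_
    rw [div_le_div_iff₀ (by positivity) (by norm_num)]
    nlinarith
  calc (1 + u) ^ N ≤ (Real.exp u) ^ N :=
        pow_le_pow_left₀ (by positivity) (by linarith [Real.add_one_le_exp u]) N
    _ = Real.exp ((N : ℝ) * u) := by rw [← Real.exp_nat_mul]
    _ ≤ 1 + 2 * ((N : ℝ) * u) := PE_exp (by positivity) hu2
    _ ≤ 1 + 2 * (1 / (24 * (Lam : ℝ))) := by linarith
    _ = 1 + 1 / (12 * (Lam : ℝ)) := by
        have : (Lam : ℝ) ≠ 0 := by positivity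
        field_simp
        ring

end CM68
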