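import Mathlib

/-!
# Row PF: the final bound (SHORT/MEDIUM, natural numbers, ONLY MATHLIB; template: LibPX/PA4.lean)

`y = 26 Lam K`, `b₀ + 1 = y^2`, `B + 1 ≤ y`.  The left hand side is at most `g * 2 * 2 (y^2)^K * y * y^N * (y^2)^K * y^N * 8 g y w s = 32 w (g (g s)) y^(4 K + 2 N + 2) ≤ 32 w K^2 y^(6 K)` and `32 K^2 ≤ y^2`.
-/

namespace CM68

theorem parFinQ {N s g w Lam K B b₀ H e₀ : ℕ} (hg : 1 ≤ g) (hN : 1 ≤ N) (hNs : N ≤ s)
    (hLam : 1 ≤ Lam) (hK : g * s + 1 ≤ K) (hB : B = 25 * Lam * g * N)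
    (hb : b₀ = (26 * Lam * K) ^ 2 - 1) (hH : H ≤ (b₀ + 1) ^ K) (he₀ : e₀ ≤ (B + 1) ^ N) :
    g * (2 * (2 * (b₀ + 1) ^ K * ((B + 1) * (e₀ * (H * e₀))) *
      (8 * (g * B * (w * s))))) ≤ w * (26 * K * Lam) ^ (6 * K + 2) := by
  have hs1 : 1 ≤ s := hN.trans hNs
  have hgs : g * s ≤ K := by omega
  have hgK : g ≤ K := (Nat.le_mul_of_pos_right g hs1).trans hgs
  have hsgs : s ≤ g * s := Nat.le_mul_of_pos_left s hg
  have hK1 : 1 ≤ K := by omega
  obtain ⟨y, hy⟩ : ∃ y, y = 26 * K * Lam := ⟨_, rfl⟩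
  have hyK : 26 * K ≤ y := by
    rw [hy]; exact Nat.le_mul_of_pos_right _ hLam
  have hy1 : 1 ≤ y := by omega
  have hb1 : b₀ + 1 = y ^ 2 := by
    rw [hb, show 26 * Lam * K = y by rw [hy]; ring]
    have : 1 ≤ y ^ 2 := Nat.one_le_pow _ _ hy1
    omega
  have hBy : B + 1 ≤ y := by
    have h1 : g * N ≤ g * s := Nat.mul_le_mul_left g hNs
    have h2 : Lam * (g * N + 1) ≤ Lam * K := Nat.mul_le_mul_left Lam (by omega)
    have h3 : 1 ≤ Lam * K := Nat.mul_pos hLam hK1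
    have h4 : B = 25 * (Lam * (g * N)) := by rw [hB]; ring
    have h5 : Lam * (g * N + 1) = Lam * (g * N) + Lam := by ring
    have h6 : y = 26 * (Lam * K) := by rw [hy]; ring
    omega
  have hBy' : B ≤ y := by omega
  have hHy : H ≤ y ^ (2 * K) := by
    rw [pow_mul, ← hb1]; exact hH
  have hey : e₀ ≤ y ^ N := he₀.trans (Nat.pow_le_pow_left hBy N)
  have hbK : (b₀ + 1) ^ K = y ^ (2 * K) := by rw [hb1, ← pow_mul]
  have hN2 : 2 * N + 2 ≤ 2 * K := by omega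
  have hgg : 32 * (g * (g * s)) ≤ y ^ 2 := by
    have h1 : g * (g * s) ≤ K * K := Nat.mul_le_mul hgK hgs
    have h2 : (26 * K) * (26 * K) ≤ y * y := Nat.mul_le_mul hyK hyK
    have h3 : (26 * K) * (26 * K) = 676 * (K * K) := by ring
    have h4 : y ^ 2 = y * y := by ring
    rw [h4]
    omega
  rw [hbK, ← hy]
  calc g * (2 * (2 * y ^ (2 * K) * ((B + 1) * (e₀ * (H * e₀))) * (8 * (g * B * (w * s)))))
      ≤ g * (2 * (2 * y ^ (2 * K) * (y * (y ^ N * (y ^ (2 * K) * y ^ N))) *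
          (8 * (g * y * (w * s))))) := by gcongr
    _ = w * (32 * (g * (g * s))) * y ^ (4 * K + 2 * N + 2) := by ring
    _ ≤ w * y ^ 2 * y ^ (6 * K) := by
        gcongr
        omega
    _ = w * y ^ (6 * K + 2) := by ring

end CM68
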