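import Pool.Agent.LibPQ.KC
import Pool.Agent.LibPQ.MKQ
import Pool.Agent.LibPQ.PB
import Pool.Agent.LibPQ.PE
import Pool.Agent.LibPQ.PF

/-!
# The count of the exceptional classes (assembly; template LibPX/CNTX.lean by helper5)
-/

namespace CM68

open Finset Polynomial

theorem countQ {q w g e N M DD lam Qb : ℕ} (ks cs : Fin N → ℕ) (kt ct : Fin M → ℕ)
    (V : Submodule ℚ ℝ) [Module.Finite ℚ V] (hD : Module.finrank ℚ V = DD + 1)
    (I₀ : Finset ℕ) (c : Mon N M → ℕ → ℝ)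
    (hq : 2 ≤ q) (hQb : 2 ≤ Qb) (hlam : Real.log Qb + 2 ≤ lam)
    (hks : ∀ i, 2 ≤ ks i ∧ ks i ≤ w) (hkt : ∀ i, 2 ≤ kt i ∧ kt i ≤ w)
    (hcs : ∀ i, cs i < q) (hct : ∀ i, ct i < q) (hinj : Function.Injective fun i => (ks i, cs i))
    (hI : ∀ x ∈ I₀, x < q)
    (hcol : ∀ x ∈ I₀, ∃ d b : ℕ, 2 ≤ b ∧ b ≤ Qb ∧ q = d * b ∧ d ∣ x ∧ (∀ i, d ∣ cs i) ∧ ∀ i, d ∣ ct i)
    (hxs : ∀ x ∈ I₀, ∀ i, 0 < (x + cs i) % q)
    (hxt : ∀ x ∈ I₀, ∀ i, 0 < (x + ct i) % q) (he : 1 ≤ e) (heg : e ≤ g)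
    (hcV : ∀ x ∈ I₀, ∀ μ, c μ x ∈ V)
    (hsup : ∀ x ∈ I₀, ∀ μ ∈ monos N M g, c μ x ≠ 0 →
      ∑ i, μ.1 i < e ∨ (∑ i, μ.1 i = e ∧ μ.2 = 0))
    (hlead : ∀ x ∈ I₀, ∃ β : Fin N → ℕ, ∑ i, β i = e ∧ c (β, 0) x ≠ 0)
    (hrel : ∀ x ∈ I₀, ∑ μ ∈ monos N M g, c μ x *
      ((∏ i, Sx q (ks i) (cs i) x ^ μ.1 i) * ∏ i, Tx q (kt i) (ct i) x ^ μ.2 i) = 0) :
    g * I₀.card ≤ w * (26 * ((monos N M g).card * (DD + 1)) * (3 * lam)) ^
      (6 * ((monos N M g).card * (DD + 1)) + 2) := by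
  classical
  rcases I₀.eq_empty_or_nonempty with h0 | hne
  · rw [h0, card_empty, Nat.mul_zero]
    exact Nat.zero_le _
  have hlam1 : 1 ≤ lam := by
    have h1 : (0 : ℝ) ≤ Real.log Qb := Real.log_nonneg (by exact_mod_cast (by omega : 1 ≤ Qb))
    have h2 : (1 : ℝ) ≤ lam := by linarith
    exact_mod_cast h2
  have hg : 1 ≤ g := he.trans heg
  obtain ⟨x₀, hx₀⟩ := id hne
  have hN : 1 ≤ N := by
    obtain ⟨β, hβ, -⟩ := hlead x₀ hx₀
    by_contra hcon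
    have hN0 : N = 0 := by omega
    subst hN0
    rw [Finset.univ_eq_empty, Finset.sum_empty] at hβ
    omega
  have hw2 : 2 ≤ w := (hks ⟨0, hN⟩).1.trans (hks ⟨0, hN⟩).2
  obtain ⟨K, hK⟩ : ∃ K, K = (monos N M g).card * (DD + 1) := ⟨_, rfl⟩
  have hKs : g * (N + M) + 1 ≤ K := by
    have h1 : g * (N + M) + 1 ≤ (monos N M g).card := by
      rw [card_monos]
      obtain ⟨s, hs⟩ : ∃ s, N + M = s := ⟨_, rfl⟩
      rw [hs]
      clear hs
      have h2 : ∀ s : ℕ, g * s + 1 ≤ (s + g).choose g := by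
        intro s
        induction s with
        | zero => simp
        | succ s ih =>
          have h3 : (s + 1 + g).choose g = (s + g).choose g + (s + g).choose (g - 1) := by
            obtain ⟨g', rfl⟩ : ∃ g', g = g' + 1 := ⟨g - 1, by omega⟩
            have : s + 1 + (g' + 1) = (s + (g' + 1)) + 1 := by ring
            rw [this, Nat.choose_succ_succ, Nat.add_sub_cancel]
            ring
          have h4 : g ≤ (s + g).choose (g - 1) := by
            obtain ⟨g', rfl⟩ : ∃ g', g = g' + 1 := ⟨g - 1, by omega⟩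
            rw [Nat.add_sub_cancel]
            have h5 : (g' + 1).choose g' ≤ (s + (g' + 1)).choose g' :=
              Nat.choose_le_choose g' (by omega)
            rw [Nat.choose_succ_self_right] at h5
            exact h5
          rw [h3]
          have : g * (s + 1) + 1 = (g * s + 1) + g := by ring
          omega
      exact h2 s
    calc g * (N + M) + 1 ≤ (monos N M g).card := h1
      _ ≤ (monos N M g).card * (DD + 1) := Nat.le_mul_of_pos_right _ (by omega)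
      _ = K := hK.symm
  rw [← hK]
  obtain ⟨Lam, hLam⟩ : ∃ Lam, Lam = 3 * lam := ⟨_, rfl⟩
  rw [← hLam]
  have hLam1 : 1 ≤ Lam := by omega
  obtain ⟨B, hB⟩ : ∃ B, B = 25 * Lam * g * N := ⟨_, rfl⟩
  obtain ⟨b₀, hb₀⟩ : ∃ b₀, b₀ = (26 * Lam * K) ^ 2 - 1 := ⟨_, rfl⟩
  have hgB : g ≤ B := by
    rw [hB]
    have h1 : 1 ≤ 25 * Lam * N := Nat.mul_pos (Nat.mul_pos (by norm_num) hLam1) hN
    calc g = g * 1 := (Nat.mul_one g).symm
      _ ≤ g * (25 * Lam * N) := Nat.mul_le_mul_left _ h1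
      _ = 25 * Lam * g * N := by ring
  have hLamR : (1 : ℝ) ≤ Lam := by exact_mod_cast hLam1
  have hε : (0 : ℝ) < 1 / (12 * (Lam : ℝ)) := by positivity
  obtain ⟨ε, hεd⟩ : ∃ ε : ℝ, ε = 1 / (12 * (Lam : ℝ)) := ⟨_, rfl⟩
  rw [← hεd] at hε
  obtain ⟨D, H', e1, e2, e3, e4, e5, e6, e7, hII, hIc, hH', hHH', hHb, hR, hds, hdt⟩ :=
    mkQ (q := q) (w := w) (g := g) (e := e) (N := N) (M := M) (DD := DD) (B := B) (b₀ := b₀)
      (Sp := 2 * (b₀ + 1) ^ K) (ε := ε) ks cs kt ct V hD I₀ hne c hq hks hkt hcs hct hinj hI hxs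
      hxt he heg hgB hε (by rw [hK]) (by
        rw [← hK, hb₀, hεd]
        exact parbQ (by omega) hLam1) hcV hsup hlead hrel
  rw [← hK] at hHb
  obtain ⟨E', hE'⟩ : ∃ E', E' = (expo N (B - e)).card := ⟨_, rfl⟩
  obtain ⟨E₀, hE₀⟩ : ∃ E₀, E₀ = (expo N B).card := ⟨_, rfl⟩
  have hcardIx : Fintype.card D.Ix = D.H * E₀ := by
    rw [Fintype.card_prod, Fintype.card_fin, Fintype.card_coe, e4, e6, hE₀]
  have hRle : Module.finrank ℝ D.R ≤ Fintype.card D.Ix := by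
    refine (Submodule.finrank_le D.R).trans ?_
    rw [Module.finrank_fintype_fun_eq_card]
  rw [← hE'] at hR
  have hE'1 : 1 ≤ E' := by
    rw [hE']
    exact card_pos.2 ⟨0, mem_expo.2 (by simp)⟩
  have hF₂1 : 1 ≤ H' * E' := Nat.mul_pos hH' hE'1
  have hcardle : H' * E' ≤ D.H * E₀ := by
    rw [← hcardIx]
    exact hR.trans hRle
  -- the proportion
  have hF : 4 * Lam * (D.H * E₀ - H' * E') ≤ H' * E' := by
    have h1 : (E₀ : ℝ) ≤ (1 + ε) * E' := by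
      rw [hE₀, hE', hB, hεd]
      exact expo_ratioQ hN hg hLam1 heg
    have h2 : ((D.H * E₀ : ℕ) : ℝ) ≤ (1 + ε) ^ 2 * (H' * E') := by
      push_cast
      calc (D.H : ℝ) * E₀ ≤ ((1 + ε) * H') * ((1 + ε) * E') :=
            mul_le_mul hHH' h1 (Nat.cast_nonneg _) (by positivity)
        _ = _ := by ring
    have hε1 : ε ≤ 1 := by
      rw [hεd, div_le_one (by positivity)]
      linarith
    have h3 : (1 + ε) ^ 2 ≤ 1 + 3 * ε := by nlinarith
    have h4 : (4 * (Lam : ℝ)) * (3 * ε) = 1 := by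
      rw [hεd]
      field_simp
      norm_num
    have h5 : (0 : ℝ) ≤ (H' : ℝ) * E' := by positivity
    have h6 : (4 * (Lam : ℝ) * (D.H * E₀ - H' * E') : ℝ) ≤ H' * E' := by
      push_cast at h2
      have h7 : (D.H : ℝ) * E₀ - H' * E' ≤ (3 * ε) * (H' * E') := by
        have := mul_le_mul_of_nonneg_right h3 h5
        linarith
      calc (4 * (Lam : ℝ) * (D.H * E₀ - H' * E') : ℝ)
          ≤ 4 * (Lam : ℝ) * ((3 * ε) * (H' * E')) :=
            mul_le_mul_of_nonneg_left h7 (by positivity)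
        _ = ((4 * (Lam : ℝ)) * (3 * ε)) * (H' * E') := by ring
        _ = H' * E' := by rw [h4, one_mul]
    have h8 : ((4 * Lam * (D.H * E₀ - H' * E') : ℕ) : ℝ) ≤ ((H' * E' : ℕ) : ℝ) := by
      push_cast [Nat.cast_sub hcardle]
      exact h6
    exact_mod_cast h8
  have hfin := parFinQ (N := N) (s := N + M) (g := g) (w := w) (Lam := Lam) (K := K) (B := B)
    (b₀ := b₀) (H := D.H) (e₀ := E₀) hg hN (Nat.le_add_right _ _) hLam1 hKs hB hb₀ hHb
    (by rw [hE₀]; exact card_expo_le N B)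
  by_contra hcon
  push Not at hcon
  have hlt := lt_of_le_of_lt hfin hcon
  have hlt2 := lt_of_mul_lt_mul_left hlt (Nat.zero_le g)
  have hDE : D.E = g * B := by
    unfold DatX.E
    rw [e3, e6]
  have hDww : D.ww = w * (N + M) := by
    unfold DatX.ww
    rw [e2, e4, e5]
  have hDL : D.L = E₀ * (D.H * E₀) := by
    unfold DatX.L
    rw [e4, e6, hE₀]
  have hZE : D.Sp * ((D.B + 1) * D.L) * (8 * (D.E * D.ww)) < D.I.card := by
    rw [e7, e6, hDL, hDE, hDww]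
    omega
  have hW : 1 ≤ D.E * D.ww := by
    rw [hDE, hDww]
    exact Nat.mul_pos (Nat.mul_pos hg (hg.trans hgB)) (Nat.mul_pos (by omega) (by omega))
  have hF' : 12 * lam * (Fintype.card D.Ix - Module.finrank ℝ D.R) ≤ Fintype.card D.Ix := by
    rw [hcardIx]
    calc 12 * lam * (D.H * E₀ - Module.finrank ℝ D.R)
        ≤ 12 * lam * (D.H * E₀ - H' * E') := Nat.mul_le_mul_left _ (by omega)
      _ = 4 * Lam * (D.H * E₀ - H' * E') := by rw [hLam]; ring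
      _ ≤ H' * E' := hF
      _ ≤ D.H * E₀ := hcardle
  refine coreQ D (Qb := Qb) (lam := lam) hQb hlam (fun x hx => ?_) hW
    (by rw [hcardIx]; exact hF₂1.trans hcardle) hF' hZE
  obtain ⟨d, b, hb2, hbQ, hqd, hdx, hdcs, hdct⟩ := hcol x (hII hx)
  exact ⟨d, b, hb2, hbQ, by rw [e1]; exact hqd, hdx, hds d hdcs, hdt d hdct⟩

end CM68
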