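import Mathlib

/-!
# Row DET1: counting (SHORT, ONLY MATHLIB)

`L s = #{ω | c ω = s}`.  For `c ω = s`: `v ω ≥ #{t ∈ range (L s) | t < v ω}`, so (exchange the sums)
`∑_{ω : c ω = s} v ω ≥ ∑_{t < L s} #{ω | c ω = s ∧ t < v ω} = ∑_{t < L s} (L s - #{ω | c ω = s ∧ v ω ≤ t}) ≥ ∑_{t < L s} (L s - t)`, twice this is `≥ L s ^ 2` (`Finset.sum_range_id_mul_two`-like).
Sum over `s`: `2 ∑ v ≥ ∑ s, L s ^ 2`, and `(∑ s, L s) ^ 2 ≤ card S * ∑ s, L s ^ 2` (`sq_sum_le_card_mul_sum_sq`), `∑ s, L s = card ι` (`Finset.card_eq_sum_card_fiberwise` or `Finset.sum_card_fiberwise_eq_card_filter`).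
-/

namespace CM68

open Finset

private theorem DET1_tri (L : ℕ) : L ^ 2 ≤ 2 * ∑ t ∈ range L, (L - t) := by
  have h1 : ∑ t ∈ range L, (L - t) + ∑ t ∈ range L, t = L * L := by
    rw [← Finset.sum_add_distrib]
    have h2 : ∀ t ∈ range L, L - t + t = L := fun t ht => by
      have := Finset.mem_range.1 ht
      omega
    rw [Finset.sum_congr rfl h2, Finset.sum_const, Finset.card_range, smul_eq_mul]
  have h3 := Finset.sum_range_id_mul_two L
  have h4 : L * (L - 1) ≤ L * L := Nat.mul_le_mul_left _ (Nat.sub_le _ _)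
  rw [sq]
  omega

private theorem DET1_one {ι : Type*} (A : Finset ι) (v : ι → ℕ)
    (h : ∀ t : ℕ, t < A.card → (A.filter fun ω => v ω ≤ t).card ≤ t) :
    A.card ^ 2 ≤ 2 * ∑ ω ∈ A, v ω := by
  refine (DET1_tri A.card).trans (Nat.mul_le_mul_left _ ?_)
  have h1 : ∀ t ∈ range A.card, A.card - t ≤ (A.filter fun ω => t < v ω).card := by
    intro t ht
    have h2 := h t (Finset.mem_range.1 ht)
    have h3 := Finset.card_filter_add_card_filter_not (s := A) (fun ω => t < v ω)
    have h4 : (A.filter fun ω => ¬ t < v ω) = A.filter fun ω => v ω ≤ t :=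
      Finset.filter_congr fun ω _ => not_lt
    rw [h4] at h3
    omega
  refine (Finset.sum_le_sum h1).trans ?_
  simp only [Finset.card_filter]
  rw [Finset.sum_comm]
  refine Finset.sum_le_sum fun ω _ => ?_
  rw [← Finset.card_filter]
  calc ((range A.card).filter fun t => t < v ω).card ≤ (range (v ω)).card :=
        Finset.card_le_card fun t ht => by
          rw [Finset.mem_filter] at ht
          exact Finset.mem_range.2 ht.2
    _ = v ω := Finset.card_range _

theorem det_count {ι S : Type*} [Fintype ι] [Fintype S] [DecidableEq S] (c : ι → S) (v : ι → ℕ)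
    (h : ∀ s : S, ∀ t : ℕ, t < (univ.filter fun ω => c ω = s).card →
      (univ.filter fun ω => c ω = s ∧ v ω ≤ t).card ≤ t) :
    Fintype.card ι ^ 2 ≤ 2 * Fintype.card S * ∑ ω, v ω := by
  have key : ∀ s : S, (univ.filter fun ω => c ω = s).card ^ 2 ≤
      2 * ∑ ω ∈ univ.filter (fun ω => c ω = s), v ω := by
    intro s
    refine DET1_one _ v fun t ht => ?_
    rw [Finset.filter_filter]
    exact h s t ht
  have h1 : ∑ s : S, (univ.filter fun ω => c ω = s).card = Fintype.card ι := by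
    rw [← Finset.card_univ]
    exact (Finset.card_eq_sum_card_fiberwise fun ω _ => Finset.mem_univ (c ω)).symm
  have h2 : ∑ s : S, ∑ ω ∈ univ.filter (fun ω => c ω = s), v ω = ∑ ω, v ω :=
    Finset.sum_fiberwise _ _ _
  calc Fintype.card ι ^ 2 = (∑ s : S, (univ.filter fun ω => c ω = s).card) ^ 2 := by rw [h1]
    _ ≤ (univ : Finset S).card * ∑ s : S, (univ.filter fun ω => c ω = s).card ^ 2 :=
        sq_sum_le_card_mul_sum_sq
    _ ≤ Fintype.card S * ∑ s : S, 2 * ∑ ω ∈ univ.filter (fun ω => c ω = s), v ω := by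
        rw [Finset.card_univ]
        exact Nat.mul_le_mul_left _ (Finset.sum_le_sum fun s _ => key s)
    _ = 2 * Fintype.card S * ∑ ω, v ω := by
        rw [← Finset.mul_sum, h2]
        ring

end CM68
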