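import Mathlib

/-!
# Row DET2: too many rows of small degree (SHORT/MEDIUM, ONLY MATHLIB)

If the determinant is not zero, its rows are linearly independent (`Matrix.linearIndependent_rows_of_det_ne_zero`; or `Matrix.linearIndependent_rows_iff_isUnit`, `Matrix.isUnit_iff_isUnit_det`).
The rows `ω ∈ A` are the functions `l ↦ (p ω).eval (x l) * ρ l` with `natDegree (p ω) < t`: they are in the span of the `t` functions `l ↦ x l ^ a * ρ l`, `a < t` (`Polynomial.eval_eq_sum_range'`),
so `A.card ≤ t` (`LinearIndependent.comp` with the inclusion of `A`; `linearIndependent_le_span'`-like, or: the subfamily is independent in the subspace `W = span (range fun a : Fin t => ..)`,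
`Fintype.card A ≤ finrank W ≤ t`: `finrank_span_eq_card`, `Submodule.finrank_mono`, `finrank_range_le_card`).
-/

namespace CM68

open Finset Polynomial

theorem det_few {ι : Type*} [Fintype ι] [DecidableEq ι] (A : Finset ι) (B : Matrix ι ι ℝ) (x ρ : ι → ℝ)
    {t : ℕ} (h : ∀ ω ∈ A, ∃ p : ℝ[X], p.natDegree < t ∧ ∀ l, B ω l = p.eval (x l) * ρ l)
    (hdet : B.det ≠ 0) : A.card ≤ t := by
  classical
  have hrow : LinearIndependent ℝ (fun ω : ι => B ω) :=
    Matrix.linearIndependent_rows_of_det_ne_zero hdet
  have hli : LinearIndependent ℝ (fun ω : A => B ω.1) :=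
    hrow.comp (fun ω : A => ω.1) Subtype.val_injective
  set W : Submodule ℝ (ι → ℝ) :=
    Submodule.span ℝ (Set.range fun a : Fin t => fun l => x l ^ (a : ℕ) * ρ l) with hW
  have hle : Submodule.span ℝ (Set.range (fun ω : A => B ω.1)) ≤ W := by
    rw [Submodule.span_le]
    rintro _ ⟨ω, rfl⟩
    obtain ⟨p, hp, hB⟩ := h ω.1 ω.2
    have : B ω.1 = ∑ a : Fin t, p.coeff (a : ℕ) • (fun l => x l ^ (a : ℕ) * ρ l) := by
      funext l
      rw [hB l, Polynomial.eval_eq_sum_range' hp, Finset.sum_mul, Finset.sum_apply,
        Finset.sum_range]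
      refine Finset.sum_congr rfl fun a _ => ?_
      simp [mul_assoc]
    show B ω.1 ∈ W
    rw [this]
    exact Submodule.sum_mem _ fun a _ =>
      Submodule.smul_mem _ _ (Submodule.subset_span ⟨a, rfl⟩)
  have h1 : Module.finrank ℝ (Submodule.span ℝ (Set.range (fun ω : A => B ω.1)))
      = Fintype.card A := finrank_span_eq_card hli
  have h2 := Submodule.finrank_mono hle
  have h3 : Module.finrank ℝ W ≤ Fintype.card (Fin t) := finrank_range_le_card _
  rw [h1] at h2
  simpa using h2.trans h3

end CM68
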