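import Pool.Agent.LibCM68.Det
import Pool.Agent.LibPQ.DET1
import Pool.Agent.LibPQ.DET2

/-!
# Row DET3: the determinant lemma (MEDIUM, linear algebra; only `det_abs_le` in LibCM68/Det.lean, `det_count`, `det_few`)

Row `ω` of the matrix is `∑ a : S × Fin (M + 1), h ω a.1 a.2 j * ρ a.1 j`.  The determinant is multilinear in the rows (`Matrix.detRowAlternating`, `MultilinearMap.map_sum`, `Fintype.piFinset`; or
`Matrix.det_apply` and `Finset.prod_univ_sum`): `det = ∑ f : ι → S × Fin (M + 1), det (of fun ω j => h ω (f ω).1 (f ω).2 j * ρ (f ω).1 j)`.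
There are `(card S * (M + 1)) ^ card ι` functions `f`.  One term: `det_abs_le` with the row bounds `A θ^(f ω).2 * P`: `≤ R! ∏ (A P θ^(m ω)) = R! (A P)^R θ^(∑ m ω)`, `m ω = (f ω).2`.
If the term is not zero: `det_count` with `c ω = (f ω).1`, `v ω = m ω + D₁`: for `t < #{c = s} ≤ R ≤ M` the `ω` with `c ω = s`, `v ω ≤ t` have `m ω ≤ t < M`, so (hpoly) `h ω s (m ω) j = p.eval (x j)`,
`natDegree p < m ω + D₁ ≤ t`: `det_few` with `A` = these `ω`, `ρ := ρ s`.  Hence `R^2 ≤ 2 card S (∑ m ω + R D₁)`, with `hG`: `G ≤ ∑ m ω` (`card S ≥ 1` as `ι` is not empty), `θ^(∑ m ω) ≤ θ^G`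
(`pow_le_pow_of_le_one`).  The sum of the terms: `Finset.abs_sum_le_sum_abs`, `Finset.sum_le_card_nsmul`, `Fintype.card_fun`.
-/

namespace CM68

open Finset Polynomial

/-- multilinear expansion of the determinant in the rows -/
private theorem detQ_expand {ι S : Type*} [Fintype ι] [DecidableEq ι] [Fintype S] {M : ℕ}
    (h : ι → S → Fin (M + 1) → ι → ℝ) (ρ : S → ι → ℝ) :
    (Matrix.of fun ω j => ∑ s, (∑ m, h ω s m j) * ρ s j).det =
      ∑ f : ι → S × Fin (M + 1),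
        (Matrix.of fun ω j => h ω (f ω).1 (f ω).2 j * ρ (f ω).1 j).det := by
  have h1 := (Matrix.detRowAlternating (n := ι) (R := ℝ)).toMultilinearMap.map_sum
    (α := fun _ => S × Fin (M + 1)) (g := fun ω a => fun j => h ω a.1 a.2 j * ρ a.1 j)
  have h2 : (fun ω => ∑ a : S × Fin (M + 1), fun j => h ω a.1 a.2 j * ρ a.1 j) =
      (Matrix.of fun ω j => ∑ s, (∑ m, h ω s m j) * ρ s j) := by
    funext ω j
    rw [Finset.sum_apply, Matrix.of_apply, Fintype.sum_prod_type]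
    refine Finset.sum_congr rfl fun s _ => ?_
    rw [Finset.sum_mul]
  rw [h2] at h1
  exact h1

/-- one term -/
private theorem detQ_term {ι S : Type*} [Fintype ι] [DecidableEq ι] [Fintype S] {M D₁ G : ℕ}
    {A P θ : ℝ} (hR : 1 ≤ Fintype.card ι) (hM : Fintype.card ι ≤ M)
    (x : ι → ℝ) (h : ι → S → Fin (M + 1) → ι → ℝ) (ρ : S → ι → ℝ)
    (hA : 0 ≤ A) (hP : 0 ≤ P) (hθ0 : 0 ≤ θ) (hθ1 : θ ≤ 1) (hρ : ∀ s j, |ρ s j| ≤ P)
    (hh : ∀ ω s m j, |h ω s m j| ≤ A * θ ^ (m : ℕ))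
    (hpoly : ∀ ω s (m : Fin (M + 1)), (m : ℕ) < M →
      ∃ p : ℝ[X], p.natDegree < (m : ℕ) + D₁ ∧ ∀ j, h ω s m j = p.eval (x j))
    (hG : 2 * Fintype.card S * (G + Fintype.card ι * D₁) ≤ Fintype.card ι ^ 2)
    (f : ι → S × Fin (M + 1)) :
    |(Matrix.of fun ω j => h ω (f ω).1 (f ω).2 j * ρ (f ω).1 j).det| ≤
      ((Fintype.card ι).factorial : ℝ) * ((A * P) ^ Fintype.card ι * θ ^ G) := by
  classical
  by_cases hdet : (Matrix.of fun ω j => h ω (f ω).1 (f ω).2 j * ρ (f ω).1 j).det = 0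
  · rw [hdet, abs_zero]
    positivity
  have hcount := det_count (fun ω => (f ω).1) (fun ω => ((f ω).2 : ℕ) + D₁) (by
    intro s t ht
    have htR : t < Fintype.card ι := lt_of_lt_of_le ht (card_le_univ _)
    refine det_few (univ.filter fun ω => (f ω).1 = s ∧ ((f ω).2 : ℕ) + D₁ ≤ t) _ x (ρ s)
      (fun ω hω => ?_) hdet
    rw [mem_filter] at hω
    obtain ⟨-, hs, hv⟩ := hω
    obtain ⟨p, hp, hpe⟩ := hpoly ω (f ω).1 (f ω).2 (by omega)
    refine ⟨p, by omega, fun l => ?_⟩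
    rw [Matrix.of_apply, hpe l, hs])
  have hS : 1 ≤ Fintype.card S := by
    have hι : 0 < Fintype.card ι := hR
    obtain ⟨ω⟩ := Fintype.card_pos_iff.1 hι
    exact Fintype.card_pos_iff.2 ⟨(f ω).1⟩
  have hsum : ∑ ω, (((f ω).2 : ℕ) + D₁) = (∑ ω, ((f ω).2 : ℕ)) + Fintype.card ι * D₁ := by
    rw [sum_add_distrib, sum_const, card_univ, smul_eq_mul]
  have hGs : G ≤ ∑ ω, ((f ω).2 : ℕ) := by
    rw [hsum] at hcount
    have h1 := hG.trans hcount
    have h2 : G + Fintype.card ι * D₁ ≤ (∑ ω, ((f ω).2 : ℕ)) + Fintype.card ι * D₁ :=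
      Nat.le_of_mul_le_mul_left h1 (by omega)
    omega
  have hb := det_abs_le (Matrix.of fun ω j => h ω (f ω).1 (f ω).2 j * ρ (f ω).1 j)
    (fun ω => A * θ ^ ((f ω).2 : ℕ) * P) (fun ω j => by
      rw [Matrix.of_apply, abs_mul]
      exact mul_le_mul (hh _ _ _ _) (hρ _ _) (abs_nonneg _) (by positivity))
  refine hb.trans (mul_le_mul_of_nonneg_left ?_ (by positivity))
  have hprod : ∏ ω, (A * θ ^ ((f ω).2 : ℕ) * P) =
      (A * P) ^ Fintype.card ι * θ ^ (∑ ω, ((f ω).2 : ℕ)) := by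
    have h1 : ∀ ω, A * θ ^ ((f ω).2 : ℕ) * P = (A * P) * θ ^ ((f ω).2 : ℕ) := fun ω => by ring
    simp_rw [h1]
    rw [prod_mul_distrib, prod_const, card_univ, prod_pow_eq_pow_sum]
  rw [hprod]
  refine mul_le_mul_of_nonneg_left ?_ (by positivity)
  exact pow_le_pow_of_le_one hθ0 hθ1 hGs

theorem detQ {ι S : Type*} [Fintype ι] [DecidableEq ι] [Fintype S] {M D₁ G : ℕ} {A P θ : ℝ}
    (hR : 1 ≤ Fintype.card ι) (hM : Fintype.card ι ≤ M)
    (x : ι → ℝ) (h : ι → S → Fin (M + 1) → ι → ℝ) (ρ : S → ι → ℝ)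
    (hA : 0 ≤ A) (hP : 0 ≤ P) (hθ0 : 0 ≤ θ) (hθ1 : θ ≤ 1) (hρ : ∀ s j, |ρ s j| ≤ P)
    (hh : ∀ ω s m j, |h ω s m j| ≤ A * θ ^ (m : ℕ))
    (hpoly : ∀ ω s (m : Fin (M + 1)), (m : ℕ) < M →
      ∃ p : ℝ[X], p.natDegree < (m : ℕ) + D₁ ∧ ∀ j, h ω s m j = p.eval (x j))
    (hG : 2 * Fintype.card S * (G + Fintype.card ι * D₁) ≤ Fintype.card ι ^ 2) :
    |(Matrix.of fun ω j => ∑ s, (∑ m, h ω s m j) * ρ s j).det| ≤
      ((Fintype.card ι).factorial : ℝ) *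
        ((Fintype.card S : ℝ) * (M + 1) * (A * P)) ^ Fintype.card ι * θ ^ G := by
  classical
  rw [detQ_expand]
  refine (abs_sum_le_sum_abs _ _).trans ?_
  refine (sum_le_card_nsmul _ _ _ fun f _ =>
    detQ_term hR hM x h ρ hA hP hθ0 hθ1 hρ hh hpoly hG f).trans ?_
  rw [card_univ, Fintype.card_fun, Fintype.card_prod, Fintype.card_fin, nsmul_eq_mul]
  push_cast
  rw [mul_pow ((Fintype.card S : ℝ) * (M + 1)) (A * P)]
  apply le_of_eq
  ring

end CM68
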