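import Pool.Agent.LibCM68.D0
import Pool.Agent.LibPQ.QDefs

/-!
# Row EB1: the polynomials `ebin` (SHORT)

`ebin_poly`: `p = C (1 / i!) * ∏ l ∈ range i, (C (1 / q) * X - C l)`, `natDegree_prod_le`.
`ebin_comb`: `p = ∑ i, C (v i) * (polynomial of ebin i)`, `natDegree p < κ` (`κ = 0`: nothing to prove), `exists_choose` (LibCM68/D0.lean) gives `v'`.
If `v' = 0` then `∑ i, v i * ebin i (j / q) = 0` for all `j`; at `j = q * l`: `ebin i l = l.choose i` (`Nat.cast_choose_eq_descPochhammer_div`, or `Nat.descFactorial`; product over `range i` of `l - k`),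
so `∑ i, v i * l.choose i = 0` for all `l`: `v = 0` by `choose_comb` (the polynomial of `choose_comb` vanishes at all `l : ℕ`, so it is zero: `Polynomial.eq_zero_of_infinite_isRoot`; or the triangular
induction in the proof of `choose_comb`).
-/

namespace CM68

open Finset Polynomial

theorem ebin_poly (i : ℕ) {q : ℕ} (hq : 1 ≤ q) :
    ∃ p : ℝ[X], p.natDegree ≤ i ∧ ∀ x : ℝ, p.eval x = ebin i (x / q) := by
  refine ⟨C (1 / (i.factorial : ℝ)) * ∏ l ∈ range i, (C (1 / (q : ℝ)) * X - C (l : ℝ)), ?_, ?_⟩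
  · refine (natDegree_C_mul_le _ _).trans ?_
    refine (natDegree_prod_le _ _).trans ?_
    refine (Finset.sum_le_card_nsmul (range i) _ 1 fun l _ => ?_).trans ?_
    · rw [natDegree_sub_C]
      exact (natDegree_C_mul_le _ _).trans natDegree_X_le
    · simp
  · intro x
    rw [eval_mul, eval_C, eval_prod, ebin, div_mul_eq_mul_div, one_mul]
    congr 1
    refine Finset.prod_congr rfl fun l _ => ?_
    rw [eval_sub, eval_mul, eval_C, eval_X, eval_C, one_div, inv_mul_eq_div]

private theorem eb1_ebin_nat (i l : ℕ) : ebin i (l : ℝ) = (l.choose i : ℝ) := by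
  rw [ebin, Nat.cast_choose_eq_descPochhammer_div, descPochhammer_eval_eq_prod_range]

theorem ebin_comb {q κ : ℕ} (hq : 1 ≤ q) (v : Fin κ → ℝ) : ∃ v' : Fin κ → ℝ,
    (∀ j : ℕ, ∑ i : Fin κ, v i * ebin i ((j : ℝ) / q) = ∑ i : Fin κ, v' i * (j.choose i : ℝ)) ∧
      (v' = 0 → v = 0) := by
  rcases Nat.eq_zero_or_pos κ with hκ | hκ
  · subst hκ
    exact ⟨v, fun j => by simp, fun h => h⟩
  have hq0 : (q : ℝ) ≠ 0 := by positivity
  choose p hp hp' using fun i : ℕ => ebin_poly i hq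
  have hev : ∀ j : ℕ, (∑ i : Fin κ, C (v i) * p i).eval (j : ℝ) =
      ∑ i : Fin κ, v i * ebin i ((j : ℝ) / q) := by
    intro j
    rw [eval_finsetSum]
    refine Finset.sum_congr rfl fun k _ => ?_
    rw [eval_mul, eval_C, hp']
  have hdeg : (∑ i : Fin κ, C (v i) * p i).natDegree < κ := by
    have h1 : (∑ i : Fin κ, C (v i) * p i).natDegree ≤ κ - 1 := by
      refine natDegree_sum_le_of_forall_le _ _ fun k _ => ?_
      refine (natDegree_C_mul_le _ _).trans ((hp _).trans ?_)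
      have := k.2
      omega
    omega
  obtain ⟨v', hv'⟩ := exists_choose hdeg
  refine ⟨v', fun j => by rw [← hev, hv'], fun h0 => ?_⟩
  obtain ⟨r, -, hr2, hr3⟩ := choose_comb hκ v
  apply hr3
  refine Polynomial.eq_zero_of_infinite_isRoot r ?_
  refine (Set.infinite_range_of_injective (Nat.cast_injective (R := ℝ))).mono ?_
  rintro _ ⟨l, rfl⟩
  show r.eval (l : ℝ) = 0
  rw [hr2]
  have h1 := hev (q * l)
  rw [hv', h0] at h1
  have h2 : ((q * l : ℕ) : ℝ) / q = (l : ℝ) := by
    push_cast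
    field_simp
  rw [h2] at h1
  have h3 : ∑ k : Fin κ, v k * (l.choose (k : ℕ) : ℝ) = ∑ k : Fin κ, v k * ebin k (l : ℝ) :=
    Finset.sum_congr rfl fun k _ => by rw [eb1_ebin_nat]
  rw [h3, ← h1]
  simp

end CM68
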