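import Pool.Agent.LibCM68.WA1a
import Pool.Agent.LibPQ.QDefs

/-!
# Row EB2: size and integrality of `ebin` (SHORT)

`ebin_le`: `|z - l| ≤ n + l` for `l < i` (`0 ≤ z ≤ n`), so `|∏| ≤ ∏_{l < i} (n + l)` and `∏_{l < i} (n + l) / i! = (n + i - 1).choose i`-like `≤ 2^(n + i)`: e.g. `∏_{l < i} (n + l) ≤ ∏_{l < i} (n + l + 1) = (n + i)! / n!`
(`Nat.ascFactorial`), `(n + i)! / (n! i!) = (n + i).choose i ≤ 2^(n + i)` (`Nat.choose_le_two_pow`, `Nat.add_choose`).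
`ebin_int`: `ap_dvd` (LibCM68/WA1a.lean: `i! ∣ q^i * ∏_{k < i} (u + q k)`): reflect `l ↦ i - 1 - l`, or use `u = -a` and `∏ (-a + b l) = (-1)^i ∏ (a - b l)`; `b^(2 i) ebin i (a / b) = b^i * ∏ (a - b l) / i!`
since `b (a / b - l) = a - b l`.
-/

namespace CM68

open Finset Polynomial

theorem ebin_le {n i : ℕ} {z : ℝ} (h0 : 0 ≤ z) (h1 : z ≤ n) : |ebin i z| ≤ 2 ^ (n + i) := by
  have hi : (0 : ℝ) < (i.factorial : ℝ) := by exact_mod_cast Nat.factorial_pos i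
  rw [ebin, abs_div, abs_of_pos hi, Finset.abs_prod, div_le_iff₀ hi]
  have h2 : ∏ l ∈ range i, |z - (l : ℝ)| ≤ ∏ l ∈ range i, (((n + 1 + l : ℕ)) : ℝ) := by
    refine Finset.prod_le_prod (fun l _ => abs_nonneg _) (fun l _ => ?_)
    have hl : (0 : ℝ) ≤ (l : ℝ) := Nat.cast_nonneg l
    have hn : (0 : ℝ) ≤ (n : ℝ) := Nat.cast_nonneg n
    push_cast
    rw [abs_le]
    constructor <;> linarith
  have h3 : ∏ l ∈ range i, (((n + 1 + l : ℕ)) : ℝ) =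
      (i.factorial : ℝ) * ((n + i).choose i : ℝ) := by
    rw [← Nat.cast_prod, ← Nat.ascFactorial_eq_prod_range, Nat.ascFactorial_eq_factorial_mul_choose]
    push_cast
    ring
  have h4 : ((n + i).choose i : ℝ) ≤ 2 ^ (n + i) := by
    have := Nat.choose_le_two_pow (n + i) i
    exact_mod_cast this
  calc ∏ l ∈ range i, |z - (l : ℝ)| ≤ (i.factorial : ℝ) * ((n + i).choose i : ℝ) := h2.trans_eq h3
    _ ≤ (i.factorial : ℝ) * 2 ^ (n + i) := mul_le_mul_of_nonneg_left h4 hi.le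
    _ = 2 ^ (n + i) * (i.factorial : ℝ) := mul_comm _ _

theorem ebin_int {b : ℕ} (hb : 1 ≤ b) (a i : ℕ) :
    ∃ m : ℤ, (b : ℝ) ^ (2 * i) * ebin i ((a : ℝ) / b) = m := by
  have hi : (i.factorial : ℝ) ≠ 0 := by exact_mod_cast (Nat.factorial_pos i).ne'
  have hb0 : (b : ℝ) ≠ 0 := by
    have : (0 : ℝ) < b := by exact_mod_cast hb
    exact this.ne'
  obtain ⟨m, hm⟩ := ap_dvd b i (-(a : ℤ))
  refine ⟨(-1) ^ i * m, ?_⟩
  have h1 : (b : ℝ) ^ i * ∏ l ∈ range i, ((a : ℝ) / b - (l : ℝ)) =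
      (-1) ^ i * ∏ l ∈ range i, (-(a : ℝ) + (b : ℝ) * l) := by
    have e1 : (b : ℝ) ^ i = ∏ _l ∈ range i, (b : ℝ) := by simp
    have e2 : (-1 : ℝ) ^ i = ∏ _l ∈ range i, (-1 : ℝ) := by simp
    rw [e1, e2, ← Finset.prod_mul_distrib, ← Finset.prod_mul_distrib]
    refine Finset.prod_congr rfl fun l _ => ?_
    field_simp
    ring
  have h2 : (b : ℝ) ^ i * ∏ l ∈ range i, (-(a : ℝ) + (b : ℝ) * l) = (i.factorial : ℝ) * m := by
    have := congrArg (fun t : ℤ => (t : ℝ)) hm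
    push_cast at this
    exact this
  have h3 : (b : ℝ) ^ (2 * i) = (b : ℝ) ^ i * (b : ℝ) ^ i := by rw [two_mul, pow_add]
  rw [ebin, h3]
  push_cast
  rw [mul_assoc, ← mul_div_assoc, ← mul_div_assoc, div_eq_iff hi, h1]
  linear_combination ((-1 : ℝ) ^ i) * h2

end CM68
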