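import Pool.Agent.LibPQ.FINQ

/-!
# PQ: relations between several numbers, rational numbers of bounded denominator (helper68)
-/

namespace CM68

open Finset Polynomial

/-- (X, Y relations over V) -/
theorem relV_EQ {Φ Ψ : Finset (ℕ × ℚ)} {w g D Q : ℕ} (hne : Φ.Nonempty) (hg : 1 ≤ g)
    (hD : 1 ≤ D) (hQ : 2 ≤ Q) (hΦ : ∀ p ∈ Φ, 2 ≤ p.1 ∧ p.1 ≤ w ∧ 0 ≤ p.2 ∧ p.2 < 1)
    (hΨ : ∀ p ∈ Ψ, 2 ≤ p.1 ∧ p.1 ≤ w ∧ 0 ≤ p.2 ∧ p.2 < 1)
    {V : Submodule ℚ ℝ} (hVf : Module.Finite ℚ V) (hVD : Module.finrank ℚ V ≤ D) :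
    AtMost (fun y : ℚ => 0 ≤ y ∧ y < 1 ∧ DenQ Q (Φ.image Prod.snd ∪ Ψ.image Prod.snd) y ∧
      (∀ p ∈ Φ, Int.fract (y + p.2) ≠ 0) ∧ (∀ p ∈ Ψ, Int.fract (y + p.2) ≠ 0) ∧
      RelVQ V Φ Ψ g y) (EQ w (D * (Φ.card + Ψ.card + g).choose g) (Real.log Q)) := by
  classical
  have hw : 1 ≤ w := by
    obtain ⟨p, hp⟩ := hne
    have := hΦ p hp
    omega
  have hK1 : 1 ≤ D * (Φ.card + Ψ.card + g).choose g :=
    Nat.mul_pos hD (Nat.choose_pos (Nat.le_add_left _ _))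
  have hlog : 0 ≤ Real.log Q := Real.log_nonneg (by exact_mod_cast (by omega : 1 ≤ Q))
  intro Y hY
  rcases Y.eq_empty_or_nonempty with h0 | ⟨y₀, hy₀⟩
  · rw [h0, card_empty, Nat.cast_zero]
    unfold EQ
    positivity
  obtain ⟨q, hq⟩ : ∃ q, q = Q.factorial := ⟨_, rfl⟩
  have hq2 : 2 ≤ q := by rw [hq]; exact FQ_fac hQ
  have hden : ∀ y ∈ Y, y.den ∣ q := fun y hy => by
    rw [hq]
    exact (FQ_den (hY y hy).2.2.1).1
  have hdenA : ∀ c ∈ Φ.image Prod.snd ∪ Ψ.image Prod.snd, c.den ∣ q := fun c hc => by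
    rw [hq]
    exact (FQ_den (hY y₀ hy₀).2.2.1).2 c hc
  have hA0 : ∀ c ∈ Φ.image Prod.snd ∪ Ψ.image Prod.snd, (0 : ℚ) ≤ c := by
    intro c hc
    rcases mem_union.1 hc with h | h
    · obtain ⟨p, hp, rfl⟩ := mem_image.1 h
      exact (hΦ p hp).2.2.1
    · obtain ⟨p, hp, rfl⟩ := mem_image.1 h
      exact (hΨ p hp).2.2.1
  have hdΦ : ∀ p ∈ Φ, p.2.den ∣ q := fun p hp =>
    hdenA _ (mem_union_left _ (mem_image_of_mem Prod.snd hp))
  have hdΨ : ∀ p ∈ Ψ, p.2.den ∣ q := fun p hp =>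
    hdenA _ (mem_union_right _ (mem_image_of_mem Prod.snd hp))
  have hcard : (Y.image (lev q)).card = Y.card := by
    refine card_image_of_injOn ?_
    intro y hy y' hy' h
    exact lev_inj (by omega) (hY y hy).1 (hY y' hy').1 (hden y hy) (hden y' hy') h
  have himg : (Φ.image (levp q)).image Prod.snd ∪ (Ψ.image (levp q)).image Prod.snd =
      (Φ.image Prod.snd ∪ Ψ.image Prod.snd).image (lev q) := by
    rw [image_union, image_image, image_image, image_image, image_image]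
    rfl
  have hsub : ((Y.image (lev q) : Finset ℕ) : Set ℕ) ⊆ {x : ℕ | x < q ∧
      (∀ p ∈ Φ.image (levp q), 0 < (x + p.2) % q) ∧ (∀ p ∈ Ψ.image (levp q), 0 < (x + p.2) % q) ∧
      DenC Q q x ((Φ.image (levp q)).image Prod.snd ∪ (Ψ.image (levp q)).image Prod.snd) ∧
      RelV V (Φ.image (levp q)) (Ψ.image (levp q)) g q x} := by
    intro x hx
    rw [mem_coe, mem_image] at hx
    obtain ⟨y, hy, rfl⟩ := hx
    obtain ⟨h0, h1, h2, h3, h4, h5⟩ := hY y hy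
    have hdy := hden y hy
    refine ⟨lev_lt (by omega) h0 h1 hdy, ?_, ?_, ?_, ?_⟩
    · intro p' hp'
      obtain ⟨p, hp, rfl⟩ := mem_image.1 hp'
      exact lev_pos (by omega) h0 (hΦ p hp).2.2.1 hdy (hdΦ p hp) (h3 p hp)
    · intro p' hp'
      obtain ⟨p, hp, rfl⟩ := mem_image.1 hp'
      exact lev_pos (by omega) h0 (hΨ p hp).2.2.1 hdy (hdΨ p hp) (h4 p hp)
    · rw [himg, hq]
      exact FQ_DenC hQ h0 hA0 h2
    · exact relVQ_relV (by omega) h0 hdy (fun p hp => ⟨(hΦ p hp).2.2.1, hdΦ p hp⟩)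
        (fun p hp => ⟨(hΨ p hp).2.2.1, hdΨ p hp⟩) h5
  have h1 := Set.ncard_le_ncard hsub ((Set.finite_Iio q).subset fun x hx => hx.1)
  rw [Set.ncard_coe_finset, hcard] at h1
  have h2 := count_GQ (Φ := Φ.image (levp q)) (Ψ := Ψ.image (levp q)) (w := w) (g := g) (D := D)
    (q := q) (lam := LX Q) (Qb := Q) hg hq2 hQ (le_LX Q) (by
      intro p' hp'
      obtain ⟨p, hp, rfl⟩ := mem_image.1 hp'
      exact ⟨(hΦ p hp).1, (hΦ p hp).2.1,
        lev_lt (by omega) (hΦ p hp).2.2.1 (hΦ p hp).2.2.2 (hdΦ p hp)⟩) (by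
      intro p' hp'
      obtain ⟨p, hp, rfl⟩ := mem_image.1 hp'
      exact ⟨(hΨ p hp).1, (hΨ p hp).2.1,
        lev_lt (by omega) (hΨ p hp).2.2.1 (hΨ p hp).2.2.2 (hdΨ p hp)⟩) hVf hVD
  have h3 : bQ w (D * ((Φ.image (levp q)).card + (Ψ.image (levp q)).card + g).choose g) (LX Q) ≤
      bQ w (D * (Φ.card + Ψ.card + g).choose g) (LX Q) := by
    refine bQ_mono (lam_pos hQ (le_LX Q)) le_rfl (Nat.mul_le_mul_left _ ?_) hK1
    exact Nat.choose_le_choose _ (Nat.add_le_add_right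
      (Nat.add_le_add card_image_le card_image_le) _)
  have h4 : (Y.card : ℝ) ≤ (bQ w (D * (Φ.card + Ψ.card + g).choose g) (LX Q) : ℝ) := by
    exact_mod_cast h1.trans (h2.trans h3)
  have h5 := bQ_real (w := w) (K := D * (Φ.card + Ψ.card + g).choose g) hQ hw hK1
  linarith

/-- (π and the numbers `ζ(k, y_c)`) -/
theorem zeroPi_EQ {J : Finset ℕ} {w : ℕ} (hw : 1 ≤ w) (h2 : ∀ k ∈ J, 2 ≤ k ∧ k ≤ w)
    (h : ℕ) {r g Q : ℕ} (hg : 1 ≤ g) (hQ : 2 ≤ Q)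
    {Cs : Finset ℚ} (hcard : Cs.card = r) (hCs : ∀ c ∈ Cs, 0 ≤ c ∧ c < 1) :
    AtMost (fun y : ℚ => 0 ≤ y ∧ y < 1 ∧ DenQ Q Cs y ∧ (∀ c ∈ Cs, Int.fract (y + c) ≠ 0) ∧
      ZeroPiQ h J Cs g y) (EQ w ((h + 1) * (J.card * r + g).choose g) (Real.log Q)) := by
  classical
  have hK1 : 1 ≤ (h + 1) * (J.card * r + g).choose g :=
    Nat.mul_pos (by omega) (Nat.choose_pos (Nat.le_add_left _ _))
  have hlog : 0 ≤ Real.log Q := Real.log_nonneg (by exact_mod_cast (by omega : 1 ≤ Q))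
  intro Y hY
  rcases Y.eq_empty_or_nonempty with h0 | ⟨y₀, hy₀⟩
  · rw [h0, card_empty, Nat.cast_zero]
    unfold EQ
    positivity
  obtain ⟨q, hq⟩ : ∃ q, q = Q.factorial := ⟨_, rfl⟩
  have hq2 : 2 ≤ q := by rw [hq]; exact FQ_fac hQ
  have hden : ∀ y ∈ Y, y.den ∣ q := fun y hy => by
    rw [hq]
    exact (FQ_den (hY y hy).2.2.1).1
  have hdenC : ∀ c ∈ Cs, c.den ∣ q := fun c hc => by
    rw [hq]
    exact (FQ_den (hY y₀ hy₀).2.2.1).2 c hc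
  have hcardY : (Y.image (lev q)).card = Y.card := by
    refine card_image_of_injOn ?_
    intro y hy y' hy' h
    exact lev_inj (by omega) (hY y hy).1 (hY y' hy').1 (hden y hy) (hden y' hy') h
  have hcardC : (Cs.image (lev q)).card = r := by
    rw [← hcard]
    refine card_image_of_injOn ?_
    intro c hc c' hc' h
    exact lev_inj (by omega) (hCs c hc).1 (hCs c' hc').1 (hdenC c hc) (hdenC c' hc') h
  have hsub : ((Y.image (lev q) : Finset ℕ) : Set ℕ) ⊆ {x : ℕ | x < q ∧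
      (∀ c ∈ Cs.image (lev q), 0 < (x + c) % q) ∧ DenC Q q x (Cs.image (lev q)) ∧
      ZeroV (VPi h) J (Cs.image (lev q)) g q x} := by
    intro x hx
    rw [mem_coe, mem_image] at hx
    obtain ⟨y, hy, rfl⟩ := hx
    obtain ⟨h0, h1, h2, h3, h4⟩ := hY y hy
    have hdy := hden y hy
    refine ⟨lev_lt (by omega) h0 h1 hdy, ?_, ?_, ?_⟩
    · intro c' hc'
      obtain ⟨c, hc, rfl⟩ := mem_image.1 hc'
      exact lev_pos (by omega) h0 (hCs c hc).1 hdy (hdenC c hc) (h3 c hc)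
    · have h5 := FQ_DenC hQ (A := Cs) h0 (fun c hc => (hCs c hc).1) h2
      rw [← hq] at h5
      exact h5
    · exact zeroPi_V (zeroPiQ_zeroPi (by omega) h0 hdy (fun c hc => ⟨(hCs c hc).1, hdenC c hc⟩) h4)
  have h1 := Set.ncard_le_ncard hsub ((Set.finite_Iio q).subset fun x hx => hx.1)
  rw [Set.ncard_coe_finset, hcardY] at h1
  have h3 := zeroV_countQ (J := J) (w := w) (r := r) (g := g) (D := h + 1) (q := q) (lam := LX Q)
    (Qb := Q) h2 hg hq2 hQ (le_LX Q) (vpi_finite h) (vpi_rank h) hcardC (by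
      intro c' hc'
      obtain ⟨c, hc, rfl⟩ := mem_image.1 hc'
      exact lev_lt (by omega) (hCs c hc).1 (hCs c hc).2 (hdenC c hc))
  have h4 : (Y.card : ℝ) ≤ (bQ w ((h + 1) * (J.card * r + g).choose g) (LX Q) : ℝ) := by
    exact_mod_cast h1.trans h3
  have h5 := bQ_real (w := w) (K := (h + 1) * (J.card * r + g).choose g) hQ hw hK1
  linarith

/-- the linear relations -/
theorem lin_EQ {J : Finset ℕ} (hne : J.Nonempty) {w : ℕ} (h2 : ∀ k ∈ J, 2 ≤ k ∧ k ≤ w)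
    {r D Q : ℕ} (hr : 1 ≤ r) (hD : 1 ≤ D) (hQ : 2 ≤ Q)
    {V : Submodule ℚ ℝ} (hVf : Module.Finite ℚ V) (hVD : Module.finrank ℚ V ≤ D) (h1 : (1 : ℝ) ∈ V)
    {Cs : Finset ℚ} (hcard : Cs.card = r) (hCs : ∀ c ∈ Cs, 0 ≤ c ∧ c < 1) :
    AtMost (fun y : ℚ => 0 ≤ y ∧ y < 1 ∧ DenQ Q Cs y ∧ (∀ c ∈ Cs, Int.fract (y + c) ≠ 0) ∧
      ExcQ J Cs V y) (EQ w (D * (2 * (J.card * r) + 1)) (Real.log Q)) := by
  classical
  have hw : 1 ≤ w := by
    obtain ⟨k, hk⟩ := hne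
    have := h2 k hk
    omega
  have hK1 : 1 ≤ D * (2 * (J.card * r) + 1) := Nat.mul_pos hD (by omega)
  have hlog : 0 ≤ Real.log Q := Real.log_nonneg (by exact_mod_cast (by omega : 1 ≤ Q))
  intro Y hY
  rcases Y.eq_empty_or_nonempty with h0 | ⟨y₀, hy₀⟩
  · rw [h0, card_empty, Nat.cast_zero]
    unfold EQ
    positivity
  obtain ⟨q, hq⟩ : ∃ q, q = Q.factorial := ⟨_, rfl⟩
  have hq2 : 2 ≤ q := by rw [hq]; exact FQ_fac hQ
  have hden : ∀ y ∈ Y, y.den ∣ q := fun y hy => by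
    rw [hq]
    exact (FQ_den (hY y hy).2.2.1).1
  have hdenC : ∀ c ∈ Cs, c.den ∣ q := fun c hc => by
    rw [hq]
    exact (FQ_den (hY y₀ hy₀).2.2.1).2 c hc
  have hcardY : (Y.image (lev q)).card = Y.card := by
    refine card_image_of_injOn ?_
    intro y hy y' hy' h
    exact lev_inj (by omega) (hY y hy).1 (hY y' hy').1 (hden y hy) (hden y' hy') h
  have hcardC : (Cs.image (lev q)).card = r := by
    rw [← hcard]
    refine card_image_of_injOn ?_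
    intro c hc c' hc' h
    exact lev_inj (by omega) (hCs c hc).1 (hCs c' hc').1 (hdenC c hc) (hdenC c' hc') h
  obtain ⟨C', hC'⟩ : ∃ C', C' = Cs.image (lev q) := ⟨_, rfl⟩
  have hC'q : ∀ c' ∈ C', c' < q := by
    intro c' hc'
    rw [hC'] at hc'
    obtain ⟨c, hc, rfl⟩ := mem_image.1 hc'
    exact lev_lt (by omega) (hCs c hc).1 (hCs c hc).2 (hdenC c hc)
  have hsub : ((Y.image (lev q) : Finset ℕ) : Set ℕ) ⊆ {x : ℕ | x < q ∧
      (∀ p ∈ J ×ˢ C', 0 < (x + p.2) % q) ∧ (∀ p ∈ J ×ˢ C', 0 < (x + p.2) % q) ∧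
      DenC Q q x ((J ×ˢ C').image Prod.snd ∪ (J ×ˢ C').image Prod.snd) ∧
      RelV V (J ×ˢ C') (J ×ˢ C') 1 q x} := by
    intro x hx
    rw [mem_coe, mem_image] at hx
    obtain ⟨y, hy, rfl⟩ := hx
    obtain ⟨h0, h1', h2', h3, h4⟩ := hY y hy
    have hdy := hden y hy
    have hpos : ∀ p ∈ J ×ˢ C', 0 < (lev q y + p.2) % q := by
      rintro ⟨k, c'⟩ hp
      have hc' := (mem_product.1 hp).2
      rw [hC'] at hc'
      obtain ⟨c, hc, rfl⟩ := mem_image.1 hc'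
      exact lev_pos (by omega) h0 (hCs c hc).1 hdy (hdenC c hc) (h3 c hc)
    refine ⟨lev_lt (by omega) h0 h1' hdy, hpos, hpos, ?_, ?_⟩
    · have h5 := FQ_DenC hQ (A := Cs) h0 (fun c hc => (hCs c hc).1) h2'
      rw [← hq, ← hC'] at h5
      obtain ⟨d, b, h6, h7, h8, h9, h10⟩ := h5
      refine ⟨d, b, h6, h7, h8, h9, fun c hc => h10 c ?_⟩
      rw [union_self, mem_image] at hc
      obtain ⟨p, hp, rfl⟩ := hc
      exact (mem_product.1 hp).2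
    · rw [hC']
      exact exc_relV h1 (excQ_exc (by omega) h0 hdy (fun c hc => ⟨(hCs c hc).1, hdenC c hc⟩) h4)
  have h3 := Set.ncard_le_ncard hsub ((Set.finite_Iio q).subset fun x hx => hx.1)
  rw [Set.ncard_coe_finset, hcardY] at h3
  have hΦ : ∀ p ∈ J ×ˢ C', 2 ≤ p.1 ∧ p.1 ≤ w ∧ p.2 < q := by
    rintro ⟨k, c⟩ hp
    obtain ⟨h4, h5⟩ := mem_product.1 hp
    exact ⟨(h2 k h4).1, (h2 k h4).2, hC'q c h5⟩
  have h4 := count_GQ (Φ := J ×ˢ C') (Ψ := J ×ˢ C') (w := w) (g := 1) (D := D)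
    (q := q) (lam := LX Q) (Qb := Q) le_rfl hq2 hQ (le_LX Q) hΦ hΦ hVf hVD
  have e1 : ((J ×ˢ C').card + (J ×ˢ C').card + 1).choose 1 = 2 * (J.card * r) + 1 := by
    rw [Nat.choose_one_right, card_product, hC', hcardC]
    ring
  rw [e1] at h4
  have h5 : (Y.card : ℝ) ≤ (bQ w (D * (2 * (J.card * r) + 1)) (LX Q) : ℝ) := by
    exact_mod_cast h3.trans h4
  have h6 := bQ_real (w := w) (K := D * (2 * (J.card * r) + 1)) hQ hw hK1
  linarith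

/-- the degrees may be increased -/
theorem zeroPiQ_mono {h h' g g' : ℕ} {J : Finset ℕ} {Cs : Finset ℚ} {y : ℚ} (hh : h ≤ h')
    (hg : g ≤ g') (H : ZeroPiQ h J Cs g y) : ZeroPiQ h' J Cs g' y := by
  obtain ⟨P, h1, h2, h3, h4⟩ := H
  exact ⟨P, h1, h2.trans hg, fun m => (h3 m).trans hh, h4⟩

/-- `N` numbers together with `π`: the degrees tend to infinity with `Q` -/
theorem tuple_growingQ (J : Finset ℕ) (hne : J.Nonempty) (h2 : ∀ k ∈ J, 2 ≤ k) (r : ℕ) {η : ℝ}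
    (h0 : 0 < η) (h1 : η < 1 / 2) :
    ∃ Q₀ : ℕ, ∀ Q : ℕ, Q₀ ≤ Q → ∀ Cs : Finset ℚ, Cs.card = r → (∀ c ∈ Cs, 0 ≤ c ∧ c < 1) →
    AtMost (fun y : ℚ => 0 ≤ y ∧ y < 1 ∧ DenQ Q Cs y ∧ (∀ c ∈ Cs, Int.fract (y + c) ≠ 0) ∧
      ∃ h g : ℕ, (h : ℝ) ≤ Real.log Q ^ ((1 - 2 * η) / ((J.card * r : ℝ) + 1)) ∧
      (g : ℝ) ≤ Real.log Q ^ ((1 - 2 * η) / ((J.card * r : ℝ) + 1)) ∧
      ZeroPiQ h J Cs g y) (Real.exp (Real.log Q ^ (1 - η))) := by
  obtain ⟨N, hN⟩ : ∃ N : ℕ, N = J.card * r := ⟨_, rfl⟩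
  have hNR : (J.card * r : ℝ) = N := by rw [hN]; push_cast; ring
  obtain ⟨w, hw⟩ : ∃ w : ℕ, ∀ k ∈ J, k ≤ w := ⟨J.sup id, fun k hk => le_sup (f := id) hk⟩
  have hw1 : 1 ≤ w := by
    obtain ⟨k, hk⟩ := hne
    have := h2 k hk
    have := hw k hk
    omega
  rw [hNR]
  obtain ⟨q₀, hq₀3, hq₀⟩ := growthX w (2 ^ (N + 1)) h0 h1
  refine ⟨q₀, fun q hq Cs hCs hCq => ?_⟩
  obtain ⟨hL, hg⟩ := hq₀ q hq
  obtain ⟨u, hudef⟩ : ∃ u : ℝ, u = Real.log q ^ ((1 - 2 * η) / ((N : ℝ) + 1)) := ⟨_, rfl⟩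
  rw [← hudef]
  have hL0 : 0 < Real.log q := by linarith
  have hu1 : 1 ≤ u := by
    rw [hudef]
    exact Real.one_le_rpow hL (by
      have : (0 : ℝ) < (N : ℝ) + 1 := by positivity
      exact div_nonneg (by linarith) this.le)
  have huN : u ^ (N + 1) = Real.log q ^ (1 - 2 * η) := by
    rw [hudef, ← Real.rpow_natCast, ← Real.rpow_mul hL0.le]
    congr 1
    push_cast
    field_simp
  obtain ⟨G, hGdef⟩ : ∃ G : ℕ, G = ⌊u⌋₊ := ⟨_, rfl⟩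
  have hGle : (G : ℝ) ≤ u := by rw [hGdef]; exact Nat.floor_le (by linarith)
  have hG1 : 1 ≤ G := by
    rw [hGdef]
    exact Nat.le_floor (by exact_mod_cast hu1)
  have hK : (((G + 1) * (N + G).choose G : ℕ) : ℝ) ≤ ((2 ^ (N + 1) : ℕ) : ℝ) *
      Real.log q ^ (1 - 2 * η) := by
    have e1 := TUP_choose N G
    have e2 : (((G + 1) * (N + G).choose G : ℕ) : ℝ) ≤ ((G : ℝ) + 1) ^ (N + 1) := by
      have : (G + 1) * (N + G).choose G ≤ (G + 1) ^ (N + 1) := by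
        calc (G + 1) * (N + G).choose G ≤ (G + 1) * (G + 1) ^ N := Nat.mul_le_mul_left _ e1
          _ = (G + 1) ^ (N + 1) := by ring
      exact_mod_cast this
    refine e2.trans ?_
    rw [← huN]
    push_cast
    rw [← mul_pow]
    exact pow_le_pow_left₀ (by positivity) (by linarith) _
  have hcount := zeroPi_EQ (J := J) (w := w) (r := r) (g := G) (Q := q) hw1
    (fun k hk => ⟨h2 k hk, hw k hk⟩) G hG1 (by omega) hCs hCq
  rw [← hN] at hcount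
  intro Y hY
  have h3 := hcount Y (by
    intro y hy
    obtain ⟨hx1, hx2, hx3, hx4, h, g, hh, hg', hz⟩ := hY y hy
    refine ⟨hx1, hx2, hx3, hx4, zeroPiQ_mono ?_ ?_ hz⟩
    · rw [hGdef]
      exact Nat.le_floor hh
    · rw [hGdef]
      exact Nat.le_floor hg')
  exact h3.trans ((EQ_le_EP hL).trans (hg _ hK))

end CM68
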