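import Pool.Agent.LibPQ.TR0

/-!
# Row TR1: the relations `RelVQ` are relations `RelV` at the level `q` (MEDIUM)

`levp q` is injective on `Φ` and on `Ψ` (`lev_inj`): equivalences `a : Φ ≃ Φ.image (levp q)`, `b : Ψ ≃ Ψ.image (levp q)` (`Equiv.ofBijective`; value `(a p : ℕ × ℕ) = levp q p`).
Take `P' = MvPolynomial.rename (Sum.map a b) P` (injective map): `MvPolynomial.totalDegree_rename_le`, `coeff_rename_mapDomain` / `coeff_rename_eq_zero` for the coefficients (every exponent of `P'` is the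
`Finsupp.mapDomain` of one of `P`, as the map is bijective; see `relV_of_zeroV` in LibPX/VALX.lean), `MvPolynomial.eval_rename`, `ptG .. ∘ Sum.map a b = ptQ Φ Ψ y` by `lev_fract`.
The sums: `∑ i : Φ', (mapDomain m) (inl i) = ∑ i : Φ, m (inl i)` (`Equiv.sum_comp a`, `Finsupp.mapDomain_apply`).
-/

namespace CM68

open Finset Polynomial

private theorem TR1_equiv (Φ : Finset (ℕ × ℚ)) {q : ℕ} (hq : 1 ≤ q)
    (hΦ : ∀ p ∈ Φ, 0 ≤ p.2 ∧ p.2.den ∣ q) :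
    ∃ a : Φ ≃ (Φ.image (levp q) : Finset (ℕ × ℕ)), ∀ p : Φ, ((a p : ℕ × ℕ)) = levp q p := by
  let f : Φ → (Φ.image (levp q) : Finset (ℕ × ℕ)) := fun p => ⟨levp q p, mem_image_of_mem _ p.2⟩
  have hf : Function.Bijective f := by
    constructor
    · rintro ⟨⟨k, y⟩, hp⟩ ⟨⟨k', y'⟩, hp'⟩ h
      have h1 : levp q (k, y) = levp q (k', y') := congrArg Subtype.val h
      have h2 := Prod.ext_iff.1 h1
      have h3 : k = k' := h2.1
      have h4 : lev q y = lev q y' := h2.2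
      have h5 := lev_inj hq (hΦ _ hp).1 (hΦ _ hp').1 (hΦ _ hp).2 (hΦ _ hp').2 h4
      subst h3
      subst h5
      rfl
    · rintro ⟨z, hz⟩
      obtain ⟨p, hp, rfl⟩ := mem_image.1 hz
      exact ⟨⟨p, hp⟩, rfl⟩
  exact ⟨Equiv.ofBijective f hf, fun p => rfl⟩

theorem relVQ_relV {V : Submodule ℚ ℝ} {Φ Ψ : Finset (ℕ × ℚ)} {g q : ℕ} {y : ℚ} (hq : 1 ≤ q)
    (hy : 0 ≤ y) (hyd : y.den ∣ q) (hΦ : ∀ p ∈ Φ, 0 ≤ p.2 ∧ p.2.den ∣ q)
    (hΨ : ∀ p ∈ Ψ, 0 ≤ p.2 ∧ p.2.den ∣ q) (h : RelVQ V Φ Ψ g y) :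
    RelV V (Φ.image (levp q)) (Ψ.image (levp q)) g q (lev q y) := by
  obtain ⟨a, ha⟩ := TR1_equiv Φ hq hΦ
  obtain ⟨b, hb⟩ := TR1_equiv Ψ hq hΨ
  obtain ⟨e, P, he, hPg, hPV, hPs, ⟨m0, hm0, hm0'⟩, hP0⟩ := h
  let c : Φ ⊕ Ψ ≃ (Φ.image (levp q) : Finset (ℕ × ℕ)) ⊕ (Ψ.image (levp q) : Finset (ℕ × ℕ)) :=
    Equiv.sumCongr a b
  have hinj : Function.Injective c := c.injective
  have hcl : ∀ i, c (Sum.inl i) = Sum.inl (a i) := fun _ => rfl
  have hcr : ∀ i, c (Sum.inr i) = Sum.inr (b i) := fun _ => rfl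
  have hL : ∀ m : Φ ⊕ Ψ →₀ ℕ, ∀ i, Finsupp.mapDomain c m (Sum.inl (a i)) = m (Sum.inl i) := by
    intro m i
    rw [← hcl, Finsupp.mapDomain_apply hinj]
  have hR : ∀ m : Φ ⊕ Ψ →₀ ℕ, ∀ i, Finsupp.mapDomain c m (Sum.inr (b i)) = m (Sum.inr i) := by
    intro m i
    rw [← hcr, Finsupp.mapDomain_apply hinj]
  have hsum : ∀ m : Φ ⊕ Ψ →₀ ℕ,
      ∑ i : (Φ.image (levp q) : Finset (ℕ × ℕ)), Finsupp.mapDomain c m (Sum.inl i) =
        ∑ i : Φ, m (Sum.inl i) := by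
    intro m
    rw [← Equiv.sum_comp a]
    exact Finset.sum_congr rfl fun i _ => hL m i
  have hcoef : ∀ m : Φ ⊕ Ψ →₀ ℕ,
      (MvPolynomial.rename c P).coeff (Finsupp.mapDomain c m) = P.coeff m :=
    fun m => MvPolynomial.coeff_rename_mapDomain _ hinj _ _
  have hex : ∀ m', (MvPolynomial.rename c P).coeff m' ≠ 0 →
      ∃ m, Finsupp.mapDomain c m = m' ∧ P.coeff m ≠ 0 := by
    intro m' hm'
    exact MvPolynomial.coeff_rename_ne_zero _ _ _ hm'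
  have hpt : ptG (Φ.image (levp q)) (Ψ.image (levp q)) q (lev q y) ∘ c = ptQ Φ Ψ y := by
    funext i
    rcases i with i | i
    · have h1 := lev_fract hq hy (hΦ i i.2).1 hyd (hΦ i i.2).2
      show hz (a i : ℕ × ℕ).1 ((((lev q y + (a i : ℕ × ℕ).2) % q : ℕ) : ℝ) / q) = _
      rw [ha i]
      show hz (i : ℕ × ℚ).1 ((((lev q y + lev q (i : ℕ × ℚ).2) % q : ℕ) : ℝ) / q) = _
      rw [h1]
      rfl
    · have h1 := lev_fract hq hy (hΨ i i.2).1 hyd (hΨ i i.2).2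
      show hz (b i : ℕ × ℕ).1 ((((lev q y + (b i : ℕ × ℕ).2) % q : ℕ) : ℝ) / q) +
        (-1) ^ (b i : ℕ × ℕ).1 *
          hz (b i : ℕ × ℕ).1 (1 - (((lev q y + (b i : ℕ × ℕ).2) % q : ℕ) : ℝ) / q) = _
      rw [hb i]
      show hz (i : ℕ × ℚ).1 ((((lev q y + lev q (i : ℕ × ℚ).2) % q : ℕ) : ℝ) / q) +
        (-1) ^ (i : ℕ × ℚ).1 *
          hz (i : ℕ × ℚ).1 (1 - (((lev q y + lev q (i : ℕ × ℚ).2) % q : ℕ) : ℝ) / q) = _
      rw [h1]
      rfl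
  refine ⟨e, MvPolynomial.rename c P, he, (MvPolynomial.totalDegree_rename_le _ _).trans hPg,
    ?_, ?_, ?_, ?_⟩
  · intro m'
    by_cases h0 : (MvPolynomial.rename c P).coeff m' = 0
    · rw [h0]
      exact V.zero_mem
    · obtain ⟨m, rfl, -⟩ := hex m' h0
      rw [hcoef]
      exact hPV m
  · intro m' hm'
    obtain ⟨m, rfl, hm⟩ := hex m' (MvPolynomial.mem_support_iff.1 hm')
    rw [hsum]
    rcases hPs m (MvPolynomial.mem_support_iff.2 hm) with h1 | ⟨h1, h2⟩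
    · exact Or.inl h1
    · refine Or.inr ⟨h1, fun j => ?_⟩
      obtain ⟨j', rfl⟩ := b.surjective j
      rw [hR]
      exact h2 j'
  · refine ⟨Finsupp.mapDomain c m0, ?_, ?_⟩
    · rw [MvPolynomial.mem_support_iff, hcoef]
      exact MvPolynomial.mem_support_iff.1 hm0
    · rw [hsum]
      exact hm0'
  · rw [MvPolynomial.eval_rename, hpt]
    exact hP0

end CM68
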