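import Pool.Agent.LibPQ.TR0

/-!
# Row TR2: the relations `ZeroPiQ` are relations `ZeroPi` at the level `q` (MEDIUM)

As row TR1: the bijection `a : (J ×ˢ Cs) ≃ (J ×ˢ Cs.image (lev q))`, `(k, c) ↦ (k, lev q c)` (injective by `lev_inj`); `P' = MvPolynomial.rename a P`; `MvPolynomial.rename_injective`, `totalDegree_rename_le`,
`coeff_rename_mapDomain` / `coeff_rename_eq_zero`, `MvPolynomial.eval₂_rename`, `lev_fract`.
-/

namespace CM68

open Finset Polynomial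

theorem zeroPiQ_zeroPi {h g q : ℕ} {J : Finset ℕ} {Cs : Finset ℚ} {y : ℚ} (hq : 1 ≤ q)
    (hy : 0 ≤ y) (hyd : y.den ∣ q) (hC : ∀ c ∈ Cs, 0 ≤ c ∧ c.den ∣ q) (H : ZeroPiQ h J Cs g y) :
    ZeroPi h J (Cs.image (lev q)) g q (lev q y) := by
  obtain ⟨P, hP, hg, hc, hr⟩ := H
  have hmem : ∀ p : (J ×ˢ Cs : Finset (ℕ × ℚ)),
      ((p : ℕ × ℚ).1, lev q (p : ℕ × ℚ).2) ∈ (J ×ˢ Cs.image (lev q) : Finset (ℕ × ℕ)) := by
    intro p
    have h1 := mem_product.1 p.2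
    exact mem_product.2 ⟨h1.1, mem_image_of_mem _ h1.2⟩
  obtain ⟨a, haeq⟩ : ∃ a : (J ×ˢ Cs : Finset (ℕ × ℚ)) → (J ×ˢ Cs.image (lev q) : Finset (ℕ × ℕ)),
      ∀ p, ((a p : ℕ × ℕ)) = ((p : ℕ × ℚ).1, lev q (p : ℕ × ℚ).2) :=
    ⟨fun p => ⟨_, hmem p⟩, fun p => rfl⟩
  have ha : Function.Injective a := by
    intro p p' hpp
    have h1 : ((a p : ℕ × ℕ)) = (a p' : ℕ × ℕ) := by rw [hpp]
    rw [haeq, haeq, Prod.mk.injEq] at h1
    have h2 := hC _ (mem_product.1 p.2).2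
    have h3 := hC _ (mem_product.1 p'.2).2
    exact Subtype.ext (Prod.ext h1.1 (lev_inj hq h2.1 h3.1 h2.2 h3.2 h1.2))
  refine ⟨MvPolynomial.rename a P, ?_, (MvPolynomial.totalDegree_rename_le a P).trans hg, ?_, ?_⟩
  · intro h0
    refine hP (MvPolynomial.rename_injective a ha ?_)
    rw [h0, map_zero]
  · intro m
    by_cases hm : ∃ u, Finsupp.mapDomain a u = m
    · obtain ⟨u, rfl⟩ := hm
      rw [MvPolynomial.coeff_rename_mapDomain a ha]
      exact hc u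
    · rw [MvPolynomial.coeff_rename_eq_zero a P m fun u hu => absurd ⟨u, hu⟩ hm, natDegree_zero]
      exact Nat.zero_le _
  · rw [MvPolynomial.eval₂_rename, ← hr]
    congr 1
    funext p
    have h1 := hC _ (mem_product.1 p.2).2
    rw [Function.comp_apply, haeq, ← lev_fract hq hy h1.1 hyd h1.2]

end CM68
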