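import Pool.Agent.LibPQ.TR0

/-!
# Row TR3: the linear relations (SHORT/MEDIUM)

`lev q` is injective on `Cs` (`lev_inj`); let `r : ℕ → ℚ` with `r (lev q c) = c` for `c ∈ Cs` (`Function.invFunOn`); `lam' c' k = lam (r c') k`, `mu' c' k = mu (r c') k`; `Finset.sum_image`, `lev_fract`.
-/

namespace CM68

open Finset Polynomial

theorem excQ_exc {q : ℕ} {J : Finset ℕ} {Cs : Finset ℚ} {V : Submodule ℚ ℝ} {y : ℚ} (hq : 1 ≤ q)
    (hy : 0 ≤ y) (hyd : y.den ∣ q) (hC : ∀ c ∈ Cs, 0 ≤ c ∧ c.den ∣ q) (H : ExcQ J Cs V y) :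
    Exc J (Cs.image (lev q)) V q (lev q y) := by
  classical
  obtain ⟨lam, mu, hne, hmem⟩ := H
  have hinj : Set.InjOn (lev q) (Cs : Set ℚ) := by
    intro c hc c' hc' h
    exact lev_inj hq (hC c hc).1 (hC c' hc').1 (hC c hc).2 (hC c' hc').2 h
  obtain ⟨r, hr⟩ : ∃ r : ℕ → ℚ, ∀ c ∈ Cs, r (lev q c) = c :=
    ⟨Function.invFunOn (lev q) (Cs : Set ℚ), fun c hc => hinj.leftInvOn_invFunOn hc⟩
  refine ⟨fun c' k => lam (r c') k, fun c' k => mu (r c') k, ?_, ?_⟩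
  · obtain ⟨c, hc, k, hk, h⟩ := hne
    refine ⟨lev q c, mem_image_of_mem _ hc, k, hk, ?_⟩
    simp only
    rw [hr c hc]
    exact h
  · rw [sum_image hinj]
    convert hmem using 1
    refine sum_congr rfl fun c hc => sum_congr rfl fun k _ => ?_
    simp only
    rw [hr c hc, lev_fract hq hy (hC c hc).1 hyd (hC c hc).2]

end CM68
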