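import Pool.Agent.LibPQ.VALQ
import Pool.Agent.LibPQ.TR1
import Pool.Agent.LibPQ.TR2
import Pool.Agent.LibPQ.TR3

/-!
# PQ: the final forms for rational numbers of bounded denominator (helper68)
-/

namespace CM68

open Finset Polynomial

/-- the bound for the number of exceptional rational numbers -/
noncomputable def EQ (w K : ℕ) (L : ℝ) : ℝ := w * (80 * K * (L + 3)) ^ (6 * K + 2)

/-- at most `C` elements have the property `P` -/
def AtMost {α : Type} (P : α → Prop) (C : ℝ) : Prop :=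
  ∀ S : Finset α, (∀ a ∈ S, P a) → (S.card : ℝ) ≤ C

theorem bQ_real {Q w K : ℕ} (hQ : 2 ≤ Q) (hw : 1 ≤ w) (hK : 1 ≤ K) :
    (bQ w K (LX Q) : ℝ) + 1 ≤ EQ w K (Real.log Q) := by
  have hlog : 0 ≤ Real.log Q := Real.log_nonneg (by exact_mod_cast (by omega : 1 ≤ Q))
  have h1 : (LX Q : ℝ) ≤ Real.log Q + 3 := by
    unfold LX
    push_cast
    linarith [Nat.ceil_lt_add_one hlog]
  have hw1 : (1 : ℝ) ≤ w := by exact_mod_cast hw
  have hK1 : (1 : ℝ) ≤ K := by exact_mod_cast hK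
  obtain ⟨a, ha⟩ : ∃ a : ℝ, a = 26 * K * (3 * (LX Q : ℝ)) := ⟨_, rfl⟩
  have ha0 : 0 ≤ a := by rw [ha]; positivity
  have h4 : a + 1 ≤ 80 * K * (Real.log Q + 3) := by
    rw [ha]
    nlinarith
  have h5 : a ^ (6 * K + 2) + 1 ≤ (80 * K * (Real.log Q + 3)) ^ (6 * K + 2) := by
    calc a ^ (6 * K + 2) + 1 = a ^ (6 * K + 2) + 1 ^ (6 * K + 2) := by rw [one_pow]
      _ ≤ (a + 1) ^ (6 * K + 2) := pow_add_pow_le ha0 zero_le_one (by omega)
      _ ≤ _ := by gcongr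
  unfold bQ EQ
  push_cast
  rw [← ha]
  nlinarith [pow_nonneg ha0 (6 * K + 2)]

theorem EQ_mono {w w' K K' : ℕ} {L : ℝ} (hL : 0 ≤ L) (hw : w ≤ w') (hK : K ≤ K') (hK' : 1 ≤ K') :
    EQ w K L ≤ EQ w' K' L := by
  unfold EQ
  have h1 : (w : ℝ) ≤ w' := by exact_mod_cast hw
  have h2 : (K : ℝ) ≤ K' := by exact_mod_cast hK
  have h3 : (1 : ℝ) ≤ K' := by exact_mod_cast hK'
  have h4 : (1 : ℝ) ≤ 80 * K' * (L + 3) := by nlinarith
  have h5 : (0 : ℝ) ≤ 80 * K * (L + 3) := by positivity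
  refine mul_le_mul h1 ?_ (pow_nonneg h5 _) (Nat.cast_nonneg _)
  exact (pow_le_pow_left₀ h5 (by gcongr) _).trans (pow_le_pow_right₀ h4 (by omega))

theorem EQ_le_EP {w K : ℕ} {L : ℝ} (hL : 1 ≤ L) : EQ w K L ≤ EP w K L := by
  unfold EQ EP
  have hK : (0 : ℝ) ≤ K := Nat.cast_nonneg _
  have h1 : 80 * (K : ℝ) * (L + 3) ≤ 416 * K * L ^ 2 := by
    have : 80 * (L + 3) ≤ 416 * L ^ 2 := by nlinarith
    nlinarith
  have h5 : (0 : ℝ) ≤ 80 * K * (L + 3) := by positivity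
  exact mul_le_mul_of_nonneg_left (pow_le_pow_left₀ h5 h1 _) (Nat.cast_nonneg _)

theorem FQ_fac {Q : ℕ} (hQ : 2 ≤ Q) : 2 ≤ Q.factorial :=
  hQ.trans (Nat.self_le_factorial Q)

theorem FQ_two {Q : ℕ} (hQ : 2 ≤ Q) {A : Finset ℚ} {y : ℚ} (h : DenQ Q A y) :
    ∃ b : ℕ, 2 ≤ b ∧ b ≤ Q ∧ y.den ∣ b ∧ ∀ c ∈ A, c.den ∣ b := by
  obtain ⟨b, h1, h2, h3, h4⟩ := h
  rcases Nat.lt_or_ge b 2 with h5 | h5
  · have hb : b = 1 := by omega
    subst hb
    exact ⟨2, le_rfl, hQ, h3.trans (by norm_num), fun c hc => (h4 c hc).trans (by norm_num)⟩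
  · exact ⟨b, h5, h2, h3, h4⟩

theorem FQ_den {Q : ℕ} {A : Finset ℚ} {y : ℚ} (h : DenQ Q A y) :
    y.den ∣ Q.factorial ∧ ∀ c ∈ A, c.den ∣ Q.factorial := by
  obtain ⟨b, h1, h2, h3, h4⟩ := h
  have h5 : b ∣ Q.factorial := Nat.dvd_factorial (by omega) h2
  exact ⟨h3.trans h5, fun c hc => (h4 c hc).trans h5⟩

theorem FQ_DenC {Q : ℕ} (hQ : 2 ≤ Q) {A : Finset ℚ} {y : ℚ} (hy : 0 ≤ y)
    (hA : ∀ c ∈ A, 0 ≤ c) (h : DenQ Q A y) :
    DenC Q Q.factorial (lev Q.factorial y) (A.image (lev Q.factorial)) := by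
  obtain ⟨b, h1, h2, h3, h4⟩ := FQ_two hQ h
  have h5 : b ∣ Q.factorial := Nat.dvd_factorial (by omega) h2
  have h6 : Q.factorial = Q.factorial / b * b := (Nat.div_mul_cancel h5).symm
  refine ⟨Q.factorial / b, b, h1, h2, h6, lev_dvd h6 hy h3, fun c hc => ?_⟩
  obtain ⟨c', hc', rfl⟩ := mem_image.1 hc
  exact lev_dvd h6 (hA c' hc') (h4 c' hc')

theorem FQ_cast {q : ℕ} {y : ℚ} (hq : 1 ≤ q) (h0 : 0 ≤ y) (hd : y.den ∣ q) :
    ((lev q y : ℕ) : ℝ) / q = (y : ℝ) := by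
  have h1 := lev_cast h0 hd
  have h2 : ((lev q y : ℕ) : ℝ) = (y : ℝ) * q := by
    have h3 := congrArg (fun z : ℚ => (z : ℝ)) h1
    push_cast at h3
    exact h3
  have h3 : (q : ℝ) ≠ 0 := by
    have : (0 : ℝ) < q := by exact_mod_cast hq
    exact this.ne'
  rw [h2, mul_div_assoc, div_self h3, mul_one]

/-- (Vals): all rational numbers of denominator at most `Q` -/
theorem vals_EQ {k g D Q : ℕ} (hk : 2 ≤ k) (hg : 1 ≤ g) (hD : 1 ≤ D) (hQ : 2 ≤ Q)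
    {V : Submodule ℚ ℝ} (hVf : Module.Finite ℚ V) (hVD : Module.finrank ℚ V ≤ D) :
    AtMost (fun y : ℚ => 0 < y ∧ y < 1 ∧ y.den ≤ Q ∧ ∃ ρ ∈ Vals k (y : ℝ), RootV V g ρ)
      (EQ k (D * (2 + g).choose g) (Real.log Q)) := by
  classical
  intro Y hY
  obtain ⟨q, hq⟩ : ∃ q, q = Q.factorial := ⟨_, rfl⟩
  have hq2 : 2 ≤ q := by rw [hq]; exact FQ_fac hQ
  have hden : ∀ y ∈ Y, y.den ∣ q := fun y hy => by
    rw [hq]
    exact Nat.dvd_factorial y.pos (hY y hy).2.2.1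
  have hcard : (Y.image (lev q)).card = Y.card := by
    refine card_image_of_injOn ?_
    intro y hy y' hy' h
    exact lev_inj (by omega) (hY y hy).1.le (hY y' hy').1.le (hden y hy) (hden y' hy') h
  have hfin : {x : ℕ | 0 < x ∧ x < q ∧ 2 * x ≠ q ∧ DenC Q q x ∅ ∧
      ∃ ρ ∈ Vals k ((x : ℝ) / q), RootV V g ρ}.Finite :=
    (Set.finite_Iio q).subset fun x hx => hx.2.1
  have hsub : ((Y.image (lev q) : Finset ℕ) : Set ℕ) ⊆ {x : ℕ | 0 < x ∧ x < q ∧ 2 * x ≠ q ∧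
      DenC Q q x ∅ ∧ ∃ ρ ∈ Vals k ((x : ℝ) / q), RootV V g ρ} ∪ {q / 2} := by
    intro x hx
    rw [mem_coe, mem_image] at hx
    obtain ⟨y, hy, rfl⟩ := hx
    obtain ⟨h0, h1, h2, h3⟩ := hY y hy
    have hdy := hden y hy
    have hc := lev_cast h0.le hdy
    have hpos : 0 < lev q y := by
      have h4 : (0 : ℚ) < ((lev q y : ℕ) : ℚ) := by
        rw [hc]
        have : (0 : ℚ) < q := by exact_mod_cast (by omega : 0 < q)
        positivity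
      exact_mod_cast h4
    by_cases h5 : 2 * lev q y = q
    · right
      rw [Set.mem_singleton_iff]
      omega
    · left
      refine ⟨hpos, lev_lt (by omega) h0.le h1 hdy, h5, ?_, ?_⟩
      · have h6 := FQ_DenC hQ (A := ∅) h0.le (fun c hc => absurd hc (notMem_empty c))
          ⟨y.den, y.pos, h2, dvd_rfl, fun c hc => absurd hc (notMem_empty c)⟩
        rw [image_empty, ← hq] at h6
        exact h6
      · rw [FQ_cast (by omega) h0.le hdy]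
        exact h3
  have h1 := Set.ncard_le_ncard hsub (hfin.union (Set.finite_singleton _))
  rw [Set.ncard_coe_finset, hcard] at h1
  have h2 := Set.ncard_union_le {x : ℕ | 0 < x ∧ x < q ∧ 2 * x ≠ q ∧
      DenC Q q x ∅ ∧ ∃ ρ ∈ Vals k ((x : ℝ) / q), RootV V g ρ} {q / 2}
  rw [Set.ncard_singleton] at h2
  have h3 := vals_countQ (k := k) (g := g) (D := D) (q := q) (lam := LX Q) (Qb := Q) hk hg hq2 hQ
    (le_LX Q) hVf hVD
  have h4 : Y.card ≤ bQ k (D * (2 + g).choose g) (LX Q) + 1 := by omega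
  have h5 : (Y.card : ℝ) ≤ (bQ k (D * (2 + g).choose g) (LX Q) : ℝ) + 1 := by exact_mod_cast h4
  exact h5.trans (bQ_real hQ (by omega) (Nat.mul_pos hD (Nat.choose_pos (Nat.le_add_left _ _))))

/-- the moduli -/
theorem vals_mod {k g D Q : ℕ} (hk : 2 ≤ k) (hg : 1 ≤ g) (hD : 1 ≤ D) (hQ : 2 ≤ Q)
    {V : Submodule ℚ ℝ} (hVf : Module.Finite ℚ V) (hVD : Module.finrank ℚ V ≤ D) :
    AtMost (fun q : ℕ => q ≤ Q ∧ ∃ x : ℕ, 0 < x ∧ x < q ∧ x.Coprime q ∧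
      ∃ ρ ∈ Vals k ((x : ℝ) / q), RootV V g ρ)
      (EQ k (D * (2 + g).choose g) (Real.log Q)) := by
  classical
  intro S hS
  choose! hSQ x hx0 hxq hxc hx using hS
  have hden : ∀ q ∈ S, ((x q : ℚ) / (q : ℚ)).den = q := by
    intro q hq
    have h1 := Rat.den_div_eq_of_coprime (a := (x q : ℤ)) (b := (q : ℤ))
      (by have := hx0 q hq; have := hxq q hq; omega) (by simpa using hxc q hq)
    have h2 : (((x q : ℤ) : ℚ) / ((q : ℤ) : ℚ)) = (x q : ℚ) / (q : ℚ) := by push_cast; rfl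
    rw [h2] at h1
    exact_mod_cast h1
  have hinj : Set.InjOn (fun q : ℕ => (x q : ℚ) / (q : ℚ)) (S : Set ℕ) := by
    intro q hq q' hq' h
    rw [← hden q hq, ← hden q' hq']
    exact congrArg Rat.den h
  rw [← card_image_of_injOn hinj]
  refine vals_EQ hk hg hD hQ hVf hVD _ ?_
  intro y hy
  obtain ⟨q, hq, rfl⟩ := mem_image.1 hy
  have h1 : (0 : ℚ) < q := by
    have := hx0 q hq
    have := hxq q hq
    exact_mod_cast (by omega : 0 < q)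
  have h2 : (0 : ℚ) < x q := by exact_mod_cast hx0 q hq
  refine ⟨by positivity, ?_, ?_, ?_⟩
  · rw [div_lt_one h1]
    exact_mod_cast hxq q hq
  · rw [hden q hq]
    exact hSQ q hq
  · obtain ⟨ρ, hρ, hR⟩ := hx q hq
    refine ⟨ρ, ?_, hR⟩
    have : (((x q : ℚ) / (q : ℚ) : ℚ) : ℝ) = (x q : ℝ) / (q : ℝ) := by push_cast; rfl
    rw [this]
    exact hρ

/-- the points `1/4 + 1/n`, which tend to the point of the question -/
theorem vals_quarter {k g D N : ℕ} (hk : 2 ≤ k) (hg : 1 ≤ g) (hD : 1 ≤ D) (hN : 2 ≤ N)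
    {V : Submodule ℚ ℝ} (hVf : Module.Finite ℚ V) (hVD : Module.finrank ℚ V ≤ D) :
    AtMost (fun n : ℕ => 2 ≤ n ∧ n ≤ N ∧ ∃ ρ ∈ Vals k (1 / 4 + 1 / (n : ℝ)), RootV V g ρ)
      (EQ k (D * (2 + g).choose g) (Real.log (4 * N))) := by
  classical
  intro S hS
  have hn0 : ∀ n ∈ S, (0 : ℚ) < n := fun n hn => by
    exact_mod_cast (by have := (hS n hn).1; omega : 0 < n)
  have hinj : Set.InjOn (fun n : ℕ => (1 / 4 + 1 / (n : ℚ) : ℚ)) (S : Set ℕ) := by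
    intro n hn n' hn' h
    have h1 : (1 : ℚ) / n = 1 / n' := by
      have h0 : (1 / 4 + 1 / (n : ℚ) : ℚ) = 1 / 4 + 1 / (n' : ℚ) := h
      linarith
    have h2 := hn0 n hn
    have h3 := hn0 n' hn'
    rw [div_eq_div_iff h2.ne' h3.ne'] at h1
    have h4 : (n' : ℚ) = n := by linarith
    exact_mod_cast h4.symm
  rw [← card_image_of_injOn hinj]
  have h4N : (4 : ℝ) * N = ((4 * N : ℕ) : ℝ) := by push_cast; ring
  rw [h4N]
  refine vals_EQ hk hg hD (by omega) hVf hVD _ ?_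
  intro y hy
  obtain ⟨n, hn, rfl⟩ := mem_image.1 hy
  obtain ⟨h2, h3, h4⟩ := hS n hn
  have h0 := hn0 n hn
  have h2q : (2 : ℚ) ≤ n := by exact_mod_cast h2
  refine ⟨by positivity, ?_, ?_, ?_⟩
  · have : (1 : ℚ) / n ≤ 1 / 2 := one_div_le_one_div_of_le (by norm_num) h2q
    linarith
  · have e1 : (1 / 4 + 1 / (n : ℚ) : ℚ) = ((n + 4 : ℕ) : ℤ) / ((4 * n : ℕ) : ℤ) := by
      push_cast
      field_simp
    have e2 : (1 / 4 + 1 / (n : ℚ) : ℚ).den ∣ 4 * n := by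
      rw [e1]
      have := Rat.den_dvd ((n + 4 : ℕ) : ℤ) ((4 * n : ℕ) : ℤ)
      rw [Rat.divInt_eq_div] at this
      exact_mod_cast this
    exact (Nat.le_of_dvd (by omega) e2).trans (by omega)
  · have : ((1 / 4 + 1 / (n : ℚ) : ℚ) : ℝ) = 1 / 4 + 1 / (n : ℝ) := by push_cast; rfl
    rw [this]
    exact h4

end CM68
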