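import Pool.Agent.LibPX.X7
import Pool.Agent.LibPQ.EB1

/-!
# Row ID: the rows are independent (SHORT/MEDIUM)

`Fintype.linearIndependent_iff`; let `∑ b, v b * rowQ b.1 b.2 j = 0` at the nodes.  For `s` let `v' s` be the coefficients of `ebin_comb` for `fun i => v (s, i)`.  Then with
`u (s, i) = q^(sw s) / q^(2 gQ) * v' s i`: `∑ u (s, i) * rowB n T s i j = 0` at the nodes (`rowB s i j = row s j * (Om^E * j.choose i)`), so it is in `D.rsp ∅ n T d` (zero function), `rows_indX` with `Sg = ∅`,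
`Sh = univ` (index type `↥univ × Fin κ`: use `u (a.1.1, a.2)`, `Fintype.sum_prod_type`, `Finset.sum_coe_sort univ`) gives `u = 0`, so all `v' s = 0` (`q ≥ 2`), `v = 0` by `ebin_comb`.
-/

namespace CM68

open Finset Polynomial

theorem rowQ_ind (D : DatX) {n T d κ : ℕ} (hκ : 1 ≤ κ) (hκd : κ + D.gQ n T ≤ d) (hn : D.L + 1 < n)
    (hdeg : D.Sp * ((D.B + 1) * (D.L * (d + D.B * (D.w * D.L * D.N)))) ≤
      D.I.card * (n - 1 - D.L)) :
    LinearIndependent ℝ fun (b : D.Ix × Fin κ) (j : D.Nd n) => D.rowQ n T b.1 b.2 (j : ℕ) := by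
  classical
  have hq1 : 1 ≤ D.q := by have := D.hq; omega
  have hqne : (D.q : ℝ) ≠ 0 := by
    have : (0 : ℝ) < (D.q : ℝ) := by exact_mod_cast (show 0 < D.q by omega)
    exact this.ne'
  rw [Fintype.linearIndependent_iff]
  intro v hv
  choose v' hv1 hv2 using fun s : D.Ix => ebin_comb (κ := κ) hq1 (fun i => v (s, i))
  have hzero : ∀ s : D.Ix, v' s = 0 := by
    have hu := rows_indX D ∅ univ (by intro s _; simp) hκ hκd hn hdeg
      (fun a : (↥(univ : Finset D.Ix)) × Fin κ =>
        (D.q : ℝ) ^ D.sw a.1.1 / (D.q : ℝ) ^ (2 * D.gQ n T) * v' a.1.1 a.2) ?_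
    · intro s
      funext i
      have h1 := congrFun hu (⟨s, mem_univ s⟩, i)
      simp only [Pi.zero_apply] at h1 ⊢
      rcases mul_eq_zero.1 h1 with h2 | h2
      · exact absurd h2 (div_ne_zero (pow_ne_zero _ hqne) (pow_ne_zero _ hqne))
      · exact h2
    · have hz : (∑ b : (↥(univ : Finset D.Ix)) × Fin κ,
          ((D.q : ℝ) ^ D.sw b.1.1 / (D.q : ℝ) ^ (2 * D.gQ n T) * v' b.1.1 b.2) •
            fun j : D.Nd n => D.rowB n T b.1.1 b.2 (j : ℕ)) = 0 := by
        funext j
        have hj := congrFun hv j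
        simp only [Finset.sum_apply, Pi.smul_apply, smul_eq_mul, Pi.zero_apply] at hj ⊢
        rw [Fintype.sum_prod_type] at hj ⊢
        have hcoe : (∑ x : (univ : Finset D.Ix), ∑ y : Fin κ,
            (D.q : ℝ) ^ D.sw x.1 / (D.q : ℝ) ^ (2 * D.gQ n T) * v' x.1 y *
              D.rowB n T x.1 y (j : ℕ)) =
            ∑ x : D.Ix, ∑ y : Fin κ,
              (D.q : ℝ) ^ D.sw x / (D.q : ℝ) ^ (2 * D.gQ n T) * v' x y *
              D.rowB n T x y (j : ℕ) :=
          Finset.sum_coe_sort univ (fun x : D.Ix => ∑ y : Fin κ,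
              (D.q : ℝ) ^ D.sw x / (D.q : ℝ) ^ (2 * D.gQ n T) * v' x y *
              D.rowB n T x y (j : ℕ))
        refine hcoe.trans ?_
        rw [← hj]
        refine Finset.sum_congr rfl fun s _ => ?_
        have h3 := hv1 s (j : ℕ)
        calc ∑ y : Fin κ, (D.q : ℝ) ^ D.sw s / (D.q : ℝ) ^ (2 * D.gQ n T) * v' s y *
              D.rowB n T s y (j : ℕ)
            = (D.q : ℝ) ^ D.sw s / (D.q : ℝ) ^ (2 * D.gQ n T) *
                (D.row T s (j : ℕ) * (D.Om n T).eval ((j : ℕ) : ℝ) ^ D.E) *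
                ∑ y : Fin κ, v' s y * ((j : ℕ).choose y : ℝ) := by
              rw [Finset.mul_sum]
              refine Finset.sum_congr rfl fun y _ => ?_
              unfold DatX.rowB
              ring
          _ = (D.q : ℝ) ^ D.sw s / (D.q : ℝ) ^ (2 * D.gQ n T) *
                (D.row T s (j : ℕ) * (D.Om n T).eval ((j : ℕ) : ℝ) ^ D.E) *
                ∑ y : Fin κ, v (s, y) * ebin y (((j : ℕ) : ℝ) / D.q) := by
              rw [← h3]
          _ = ∑ y : Fin κ, v (s, y) * D.rowQ n T s y (j : ℕ) := by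
              rw [Finset.mul_sum]
              refine Finset.sum_congr rfl fun y _ => ?_
              unfold DatX.rowQ DatX.rho DatX.OmQ
              ring
      rw [hz]
      exact Submodule.zero_mem _
  rintro ⟨s, i⟩
  exact congrFun (hv2 s (hzero s)) i

end CM68
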