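import Pool.Agent.LibCM68.I1
import Pool.Agent.LibPQ.QDefs

/-!
# Row IN1: the change of the level (SHORT/MEDIUM)

`ps_scale`: `(e j) / (e b) = j / b` (`Nat.mul_div_mul_left`), `(e j) % (e b) = e (j % b)` (`Nat.mul_mod_mul_left`); every term: `1 / (e b m + e r)^k = 1 / e^k * 1 / (b m + r)^k`; `(e b)^k = e^k b^k`, `e ≥ 1`.
`WP_scale`: `bet (e b) = e^win bet b`, the factors `e y - e b (n + T) + e b i = e (y - b (n + T) + b i)`; `Polynomial.eval_pow`, `eval_prod`, `Finset.prod_pow_eq_pow_sum`/`Finset.prod_const`; all is in LibCM68/Defs.lean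
(`bet`, `WP`, `win`).
-/

namespace CM68

open Finset Polynomial

theorem ps_scale {e b : ℕ} (he : 1 ≤ e) (T k j : ℕ) :
    ((e * b : ℕ) : ℝ) ^ k * ps (e * b) T k (e * j) = (b : ℝ) ^ k * ps b T k j := by
  have heR : ((e : ℝ)) ≠ 0 := by
    have : e ≠ 0 := by omega
    exact_mod_cast this
  have hek : (e : ℝ) ^ k ≠ 0 := pow_ne_zero k heR
  unfold ps
  rw [Nat.mul_div_mul_left j b (by omega : 0 < e), Nat.mul_mod_mul_left, Finset.mul_sum, Finset.mul_sum]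
  refine Finset.sum_congr rfl fun m _ => ?_
  have h1 : ((e * b : ℕ) : ℝ) * m + ((e * (j % b) : ℕ) : ℝ) =
      (e : ℝ) * ((b : ℝ) * m + ((j % b : ℕ) : ℝ)) := by
    push_cast
    ring
  rw [h1, mul_pow, Nat.cast_mul, mul_pow, one_div, one_div, mul_inv]
  calc (e : ℝ) ^ k * (b : ℝ) ^ k * (((e : ℝ) ^ k)⁻¹ * (((b : ℝ) * m + ((j % b : ℕ) : ℝ)) ^ k)⁻¹)
      = ((e : ℝ) ^ k * ((e : ℝ) ^ k)⁻¹) *
          ((b : ℝ) ^ k * (((b : ℝ) * m + ((j % b : ℕ) : ℝ)) ^ k)⁻¹) := by ring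
    _ = (b : ℝ) ^ k * (((b : ℝ) * m + ((j % b : ℕ) : ℝ)) ^ k)⁻¹ := by
        rw [mul_inv_cancel₀ hek, one_mul]

theorem WP_scale (e b n T w : ℕ) (y : ℝ) :
    (WP (e * b) n T w).eval ((e : ℝ) * y) = (e : ℝ) ^ (2 * win n T * w) * (WP b n T w).eval y := by
  have hbet : bet (e * b) n T = (e : ℝ) ^ win n T * bet b n T := by
    unfold bet
    rw [Nat.cast_mul, mul_pow]
    ring
  have hprod : ∏ i ∈ range (win n T), ((e : ℝ) * y + (-((e * b : ℕ) : ℝ) * (n + T) + ((e * b : ℕ) : ℝ) * i)) =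
      (e : ℝ) ^ win n T * ∏ i ∈ range (win n T), (y + (-(b : ℝ) * (n + T) + (b : ℝ) * i)) := by
    have h1 : ∀ i ∈ range (win n T), ((e : ℝ) * y + (-((e * b : ℕ) : ℝ) * (n + T) + ((e * b : ℕ) : ℝ) * i)) =
        (e : ℝ) * (y + (-(b : ℝ) * (n + T) + (b : ℝ) * i)) := by
      intro i _
      push_cast
      ring
    rw [Finset.prod_congr rfl h1, Finset.prod_mul_distrib, Finset.prod_const, Finset.card_range]
  unfold WP
  rw [eval_pow, eval_pow, eval_mul, eval_mul, eval_C, eval_C, eval_prod, eval_prod]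
  simp only [eval_add, eval_X, eval_C]
  rw [hbet, hprod]
  have h2 : (e : ℝ) ^ win n T * bet b n T *
      ((e : ℝ) ^ win n T * ∏ i ∈ range (win n T), (y + (-(b : ℝ) * (n + T) + (b : ℝ) * i))) =
      (e : ℝ) ^ (2 * win n T) *
        (bet b n T * ∏ i ∈ range (win n T), (y + (-(b : ℝ) * (n + T) + (b : ℝ) * i))) := by
    rw [two_mul, pow_add]
    ring
  rw [h2, mul_pow, ← pow_mul]

end CM68
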