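import Pool.Agent.LibPX.X4
import Pool.Agent.LibPQ.EB2
import Pool.Agent.LibPQ.IN1

/-!
# Row IN2: the common denominator of a column (MEDIUM; template: `row_intX`, `Om_intX` in LibPX/X4.lean, copy the private lemmas)

`j = e j'` (`hje`; `e ∣ q`, `e ∣ j % q` give it, but here it is a hypothesis), `cs i = e c i`, `ct i = e c' i`.  Then `j' + c i < b n` (from `X4_lt`: `j + cs i < q n`), and with
`O = (∏ i, (WP b n T w).eval (j' + c i)) * ∏ i, (WP b n T w).eval (j' + c' i)`: `(D.Om n T).eval j = e^(2 win ww) O` (`WP_scale`, `ww = w (N + M)`), so `OmQ n T j = O^E / b^(2 gQ)`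
(`q = e b`, `2 gQ = 2 win ww E`).  `rho T s j = φ * ∏ i, (q^(ks i) pS i)^(ex i) = φ * ∏ i, (b^(ks i) * ps b T (ks i) (j' + c i))^(ex i)` (`ps_scale`).
So the product is `(D₀ φ) * b^(sw s) * (O^E * ∏ i, (ps b ..)^(ex i)) * (b^(2 κ) * ebin i (j' / b))`, three integers: the third as in `row_intX` (`Wps_int`, `∑ ex ≤ B ≤ E`), the last from `ebin_int`, `i ≤ κ`.
-/

namespace CM68

open Finset Polynomial

private theorem IN2_prod {ι : Type*} (s : Finset ι) (f : ι → ℝ)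
    (h : ∀ i ∈ s, ∃ z : ℤ, f i = z) : ∃ z : ℤ, ∏ i ∈ s, f i = z := by
  classical
  induction s using Finset.induction_on with
  | empty => exact ⟨1, by simp⟩
  | insert a s ha ih =>
    obtain ⟨z₁, h₁⟩ := h a (Finset.mem_insert_self a s)
    obtain ⟨z₂, h₂⟩ := ih (fun i hi => h i (Finset.mem_insert_of_mem hi))
    refine ⟨z₁ * z₂, ?_⟩
    rw [Finset.prod_insert ha, h₁, h₂]
    push_cast
    ring

private theorem IN2_pow {ι : Type*} (s : Finset ι) (O : ℝ) (f : ι → ℝ) (e : ι → ℕ)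
    (h : ∀ i ∈ s, ∃ z : ℤ, O * f i = z) : ∃ z : ℤ, O ^ (∑ i ∈ s, e i) * ∏ i ∈ s, f i ^ e i = z := by
  rw [← Finset.prod_pow_eq_pow_sum, ← Finset.prod_mul_distrib]
  refine IN2_prod s _ fun i hi => ?_
  obtain ⟨z, hz⟩ := h i hi
  refine ⟨z ^ e i, ?_⟩
  rw [← mul_pow, hz]
  push_cast
  rfl

private theorem IN2_nd {D : DatX} {n j : ℕ} (hj : j ∈ D.Nd n) :
    j < D.q * (n - 1) ∧ j % D.q ∈ D.I := by
  have hj' := Finset.mem_filter.1
    (show j ∈ (range (D.q * (n - 1))).filter fun j => j % D.q ∈ D.I from hj)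
  exact ⟨Finset.mem_range.1 hj'.1, hj'.2⟩

private theorem IN2_lt {D : DatX} {n j : ℕ} (hj : j ∈ D.Nd n) {c : ℕ} (hc : c < D.q) :
    j + c < D.q * n := by
  have hjr := (IN2_nd hj).1
  have hn : 1 ≤ n := by
    rcases Nat.eq_zero_or_pos n with h | h
    · subst h
      simp at hjr
    · exact h
  have h1 : D.q * n = D.q * (n - 1) + D.q := by
    conv_lhs => rw [show n = (n - 1) + 1 by omega]
    ring
  omega

private theorem IN2_ev (e b n T w j c : ℕ) :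
    (WP (e * b) n T w).eval ((e * j + e * c : ℕ) : ℝ) =
      (e : ℝ) ^ (2 * win n T * w) * (WP b n T w).eval ((j + c : ℕ) : ℝ) := by
  rw [← WP_scale]
  congr 1
  push_cast
  ring

private theorem IN2_Om (D : DatX) {e b : ℕ} (hq : D.q = e * b) (n T j : ℕ)
    (c : Fin D.N → ℕ) (hc : ∀ i, D.cs i = e * c i) (c' : Fin D.M → ℕ)
    (hc' : ∀ i, D.ct i = e * c' i) :
    (D.Om n T).eval ((e * j : ℕ) : ℝ) = (e : ℝ) ^ (2 * (D.ww * win n T)) *
      ((∏ i, (WP b n T D.w).eval ((j + c i : ℕ) : ℝ)) *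
        ∏ i, (WP b n T D.w).eval ((j + c' i : ℕ) : ℝ)) := by
  have h1 : ∀ i : Fin D.N, (taylor (D.cs i : ℝ) (WP D.q n T D.w)).eval ((e * j : ℕ) : ℝ) =
      (e : ℝ) ^ (2 * win n T * D.w) * (WP b n T D.w).eval ((j + c i : ℕ) : ℝ) := by
    intro i
    rw [taylor_eval, ← IN2_ev, hq, hc i]
    congr 1
    push_cast
    ring
  have h2 : ∀ i : Fin D.M, (taylor (D.ct i : ℝ) (WP D.q n T D.w)).eval ((e * j : ℕ) : ℝ) =
      (e : ℝ) ^ (2 * win n T * D.w) * (WP b n T D.w).eval ((j + c' i : ℕ) : ℝ) := by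
    intro i
    rw [taylor_eval, ← IN2_ev, hq, hc' i]
    congr 1
    push_cast
    ring
  unfold DatX.Om
  rw [eval_mul, eval_prod, eval_prod, Finset.prod_congr rfl fun i _ => h1 i,
    Finset.prod_congr rfl fun i _ => h2 i, Finset.prod_mul_distrib, Finset.prod_mul_distrib,
    Finset.prod_const, Finset.prod_const, Finset.card_univ, Finset.card_univ, Fintype.card_fin,
    Fintype.card_fin, ← pow_mul, ← pow_mul]
  have h3 : 2 * (D.ww * win n T) = 2 * win n T * D.w * D.N + 2 * win n T * D.w * D.M := by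
    unfold DatX.ww
    ring
  rw [h3, pow_add]
  ring

private theorem IN2_OmQ (D : DatX) {e b : ℕ} (he : 1 ≤ e) (hb : 1 ≤ b) (hq : D.q = e * b)
    (n T j : ℕ) (c : Fin D.N → ℕ) (hc : ∀ i, D.cs i = e * c i) (c' : Fin D.M → ℕ)
    (hc' : ∀ i, D.ct i = e * c' i) :
    (b : ℝ) ^ (2 * D.gQ n T) * D.OmQ n T (e * j) =
      ((∏ i, (WP b n T D.w).eval ((j + c i : ℕ) : ℝ)) *
        ∏ i, (WP b n T D.w).eval ((j + c' i : ℕ) : ℝ)) ^ D.E := by
  unfold DatX.OmQ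
  rw [IN2_Om D hq n T j c hc c' hc']
  generalize ((∏ i, (WP b n T D.w).eval ((j + c i : ℕ) : ℝ)) *
        ∏ i, (WP b n T D.w).eval ((j + c' i : ℕ) : ℝ)) = O
  have he' : (e : ℝ) ≠ 0 := by
    have : e ≠ 0 := by omega
    exact_mod_cast this
  have hb' : (b : ℝ) ≠ 0 := by
    have : b ≠ 0 := by omega
    exact_mod_cast this
  have h1 : (D.q : ℝ) ^ (2 * D.gQ n T) = (e : ℝ) ^ (2 * D.gQ n T) * (b : ℝ) ^ (2 * D.gQ n T) := by
    rw [hq]
    push_cast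
    rw [mul_pow]
  have h2 : ((e : ℝ) ^ (2 * (D.ww * win n T)) * O) ^ D.E = (e : ℝ) ^ (2 * D.gQ n T) * O ^ D.E := by
    rw [mul_pow, ← pow_mul]
    congr 2
    unfold DatX.gQ
    ring
  rw [h1, h2]
  have h3 : (e : ℝ) ^ (2 * D.gQ n T) ≠ 0 := pow_ne_zero _ he'
  have h4 : (b : ℝ) ^ (2 * D.gQ n T) ≠ 0 := pow_ne_zero _ hb'
  field_simp

private theorem IN2_rho (D : DatX) {e b : ℕ} (he : 1 ≤ e) (hq : D.q = e * b)
    (T j : ℕ) (c : Fin D.N → ℕ) (hc : ∀ i, D.cs i = e * c i) (s : D.Ix) :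
    D.rho T s (e * j) = (D.φ s.1 ((e * j) % D.q) : ℝ) *
      ((∏ i, ((b : ℝ) ^ D.ks i) ^ s.ex i) * ∏ i, (ps b T (D.ks i) (j + c i)) ^ s.ex i) := by
  unfold DatX.rho DatX.row DatX.sw
  rw [← Finset.prod_pow_eq_pow_sum, ← Finset.prod_mul_distrib]
  have h1 : ∀ i : Fin D.N, ((b : ℝ) ^ D.ks i) ^ s.ex i * (ps b T (D.ks i) (j + c i)) ^ s.ex i =
      (D.q : ℝ) ^ (D.ks i * s.ex i) * D.pS T i (e * j) ^ s.ex i := by
    intro i
    rw [← mul_pow, ← ps_scale he, pow_mul, ← mul_pow]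
    unfold DatX.pS
    rw [hc i, hq, ← mul_add]
  rw [Finset.prod_congr rfl fun i _ => h1 i, Finset.prod_mul_distrib]
  ring

private theorem IN2_S (D : DatX) {e b n T j : ℕ} (he : 1 ≤ e) (hq : D.q = e * b)
    (hj : e * j ∈ D.Nd n) (c : Fin D.N → ℕ) (hc : ∀ i, D.cs i = e * c i) (c' : Fin D.M → ℕ)
    (i : Fin D.N) :
    ∃ z : ℤ, ((∏ i, (WP b n T D.w).eval ((j + c i : ℕ) : ℝ)) *
        ∏ i, (WP b n T D.w).eval ((j + c' i : ℕ) : ℝ)) * ps b T (D.ks i) (j + c i) = z := by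
  classical
  have hk := D.hks i
  have hlt : j + c i < b * n := by
    have h1 := IN2_lt hj (D.hcs i)
    rw [hc i, hq, ← mul_add, mul_assoc] at h1
    exact Nat.lt_of_mul_lt_mul_left h1
  obtain ⟨z, hz⟩ := Wps_int (q := b) (n := n) (T := T) (w := D.w) (by omega : 1 ≤ D.ks i) hk.2
    hlt
  obtain ⟨z₁, h₁⟩ := IN2_prod (Finset.univ.erase i)
    (fun i => (WP b n T D.w).eval ((j + c i : ℕ) : ℝ)) (fun i _ => W_int b n T D.w _)
  obtain ⟨z₂, h₂⟩ := IN2_prod Finset.univ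
    (fun i => (WP b n T D.w).eval ((j + c' i : ℕ) : ℝ)) (fun i _ => W_int b n T D.w _)
  refine ⟨z * z₁ * z₂, ?_⟩
  rw [← Finset.mul_prod_erase Finset.univ
    (fun i => (WP b n T D.w).eval ((j + c i : ℕ) : ℝ)) (Finset.mem_univ i), h₁, h₂]
  push_cast
  push_cast at hz
  linear_combination (z₁ : ℝ) * z₂ * hz

theorem rowQ_int (D : DatX) {D₀ e b κ n T : ℕ} (hb : 2 ≤ b) (hq : D.q = e * b)
    (hco : ∀ h, ∀ x < D.q, ∃ m : ℤ, (D₀ : ℚ) * D.φ h x = m)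
    {j : ℕ} (hj : j ∈ D.Nd n) (hje : e ∣ j) (hcs : ∀ i, e ∣ D.cs i) (hct : ∀ i, e ∣ D.ct i)
    (s : D.Ix) {i : ℕ} (hi : i ≤ κ) :
    ∃ z : ℤ, (D₀ : ℝ) * (b : ℝ) ^ (2 * D.gQ n T + 2 * κ) * D.rowQ n T s i j = z := by
  have hq2 := D.hq
  have he : 1 ≤ e := by
    rcases Nat.eq_zero_or_pos e with h | h
    · subst h
      omega
    · exact h
  obtain ⟨j', rfl⟩ := hje
  choose c hc using hcs
  choose c' hc' using hct
  have hx : (e * j') % D.q < D.q := Nat.mod_lt _ (by omega)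
  obtain ⟨m, hm⟩ := hco s.1 _ hx
  have hm' : (D₀ : ℝ) * (D.φ s.1 ((e * j') % D.q) : ℝ) = m := by exact_mod_cast hm
  have hOQ := IN2_OmQ D he (by omega : 1 ≤ b) hq n T j' c hc c' hc'
  have hrho := IN2_rho D he hq T j' c hc s
  obtain ⟨z₁, h₁⟩ := IN2_pow Finset.univ
    ((∏ i, (WP b n T D.w).eval ((j' + c i : ℕ) : ℝ)) *
        ∏ i, (WP b n T D.w).eval ((j' + c' i : ℕ) : ℝ))
    (fun i => ps b T (D.ks i) (j' + c i)) (fun i => s.ex i)
    (fun i _ => IN2_S D he hq hj c hc c' i)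
  obtain ⟨z₂, h₂⟩ := IN2_prod Finset.univ
    (fun i => (WP b n T D.w).eval ((j' + c i : ℕ) : ℝ)) (fun i _ => W_int b n T D.w _)
  obtain ⟨z₃, h₃⟩ := IN2_prod Finset.univ
    (fun i => (WP b n T D.w).eval ((j' + c' i : ℕ) : ℝ)) (fun i _ => W_int b n T D.w _)
  obtain ⟨z₄, h₄⟩ := IN2_prod Finset.univ (fun i => ((b : ℝ) ^ D.ks i) ^ s.ex i)
    (fun i _ => ⟨((b : ℤ) ^ D.ks i) ^ s.ex i, by push_cast; rfl⟩)
  obtain ⟨z₅, h₅⟩ := ebin_int (by omega : 1 ≤ b) j' i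
  have hBE : D.B ≤ D.E := Nat.le_mul_of_pos_left _ D.hg
  have hs : ∑ i, s.ex i ≤ D.B := mem_expo.1 s.2.2
  obtain ⟨t, ht⟩ : ∃ t, D.E = t + ∑ i, s.ex i := ⟨D.E - ∑ i, s.ex i, by omega⟩
  have hOe : ∃ z : ℤ, (b : ℝ) ^ (2 * D.gQ n T) * D.OmQ n T (e * j') *
      ∏ i, (ps b T (D.ks i) (j' + c i)) ^ s.ex i = z := by
    refine ⟨(z₂ * z₃) ^ t * z₁, ?_⟩
    rw [hOQ, ht, pow_add, mul_assoc, h₁, h₂, h₃]
    push_cast
    ring
  obtain ⟨z₆, h₆⟩ := hOe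
  have hjq : (((e * j' : ℕ) : ℝ)) / (D.q : ℝ) = (j' : ℝ) / b := by
    rw [hq]
    push_cast
    have he' : (e : ℝ) ≠ 0 := by
      have : e ≠ 0 := by omega
      exact_mod_cast this
    rw [mul_div_mul_left _ _ he']
  obtain ⟨r, hr⟩ : ∃ r, 2 * κ = r + 2 * i := ⟨2 * κ - 2 * i, by omega⟩
  refine ⟨m * z₄ * z₆ * ((b : ℤ) ^ r * z₅), ?_⟩
  unfold DatX.rowQ
  rw [hjq, hrho, h₄, pow_add, hr, pow_add]
  push_cast
  rw [← hm', ← h₆, ← h₅]
  ring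

end CM68
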