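import Pool.Agent.LibPX.X3
import Pool.Agent.LibPX.X5
import Pool.Agent.LibPQ.EB1
import Pool.Agent.LibPQ.EB2
import Pool.Agent.LibPQ.CB

/-!
# Row RP: every row is a combination of the rows of `Sg` with coefficients well approximated by polynomials (MEDIUM/STRONG; template LibPX/X6.lean)

`Γ` from `combX`.  `q^(sw s) row s j = ∑_{s' ∈ Sg} ∑_{μ ∈ Mm} c s' μ * Cf μ j * rho s' j`, `c s' μ = Γ s s' μ * q^(sw s) / q^(sw s')` (`Γ s s' μ ≠ 0 → s' ∈ Sg`).  So `rowQ n n s i j = ∑_{s'} F s' j * rho n s' j` with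
`F s' j = ∑_μ c s' μ * (Om^E Cf μ j) / q^(2 gQ) * ebin i (j / q)`.  For `m ≥ 1` let `G m μ` be the polynomial of `Cf_polyX` with `r = 1` (`1 * n`: `one_mul`), `P m s' = ∑_μ C (c s' μ / q^(2 gQ)) * G m μ * (ebin_poly i)`,
`natDegree (P m s') < m + gQ + i < ..`; pieces: `h s' 0 = P 1 s'`, `h s' m = P (m + 1) s' - P m s'` (`1 ≤ m < M`), `h s' M = F s' - P M s'`: the sum over `Fin (M + 1)` telescopes (`Fin.sum_univ_eq_sum_range`-like;
`h s' m` for `m < M` is `p.eval (j : ℝ)` with `p = P 1 s'` or `P (m + 1) s' - P m s'`, degree `< m + (κ + gQ)` as `i < κ`).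
Sizes at the nodes: `Wb q n n (E ww) = q^(2 gQ) * Wb 1 n n (E ww)` (unfold `Wb`, `mul_pow`, `pow_mul`), so `|F s' j - (P m s').eval j| ≤ (∑_μ |c s' μ|) * 2^E * Wb 1 * win^E * Kd * ce ec * (m + 1)^ec * (1/3)^m * 2^(n + κ)`
(`ebin_le`, `0 ≤ j / q ≤ n`), `|F s' j| ≤ (∑ |c|) * Wb 1 * C win^B * 2^(n + κ)` (`Om_leX`, `Cf_leQ`); for `m ≥ 1` the piece is at most the sum of two errors, `(m + 2)^ec ≤ (M + 2)^ec`, for `m = 0`: `|P 1| ≤ |F| + error`.
`Kx` = e.g. `1 + 4 * (∑ s, ∑ s', ∑ μ, |Γ s s' μ| * (q^(sw s))) * 2^E * (C + Kd * ce ec)`.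
-/

namespace CM68

open Finset Polynomial

private theorem RP_abs_sum {ι : Type*} (s : Finset ι) (c f : ι → ℝ) {A X : ℝ}
    (hX : 0 ≤ X) (hc : ∑ i ∈ s, |c i| ≤ A) (hf : ∀ i ∈ s, |f i| ≤ X) :
    |∑ i ∈ s, c i * f i| ≤ A * X := by
  refine (Finset.abs_sum_le_sum_abs _ _).trans ?_
  refine (Finset.sum_le_sum fun i hi => ?_).trans
    ((Finset.sum_mul s (fun i => |c i|) X).symm.le.trans (mul_le_mul_of_nonneg_right hc hX))
  rw [abs_mul]
  exact mul_le_mul_of_nonneg_left (hf i hi) (abs_nonneg _)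

private theorem RP_Wb {q n T E w : ℕ} :
    Wb q n T (E * w) = (q : ℝ) ^ (2 * (E * (w * win n T))) * Wb 1 n T (E * w) := by
  unfold Wb
  rw [Nat.cast_one, one_pow, one_mul, mul_assoc, mul_pow, ← pow_mul]
  congr 2
  ring

private theorem RP_Wb0 {q n T w : ℕ} : 0 ≤ Wb q n T w := by
  unfold Wb
  positivity

private theorem RP_node {D : DatX} {n j : ℕ} (hj : j ∈ D.Nd n) :
    0 ≤ (j : ℝ) / D.q ∧ (j : ℝ) / D.q ≤ n := by
  have hq := D.hq
  have hq0 : (0 : ℝ) < D.q := by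
    have : 0 < D.q := by omega
    exact_mod_cast this
  refine ⟨by positivity, ?_⟩
  rw [div_le_iff₀ hq0]
  have hj' := Finset.mem_range.1 (Finset.mem_filter.1
    (show j ∈ (range (D.q * (n - 1))).filter fun j => j % D.q ∈ D.I from hj)).1
  have h1 : j ≤ n * D.q := by
    have h2 : D.q * (n - 1) ≤ D.q * n := Nat.mul_le_mul_left _ (Nat.sub_le _ _)
    rw [Nat.mul_comm n]
    omega
  exact_mod_cast h1

private theorem RP_tele (M : ℕ) (A : ℕ → ℝ) (h0 : A 0 = 0) :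
    ∑ m : Fin (M + 1), (A ((m : ℕ) + 1) - A (m : ℕ)) = A (M + 1) := by
  rw [Fin.sum_univ_eq_sum_range (fun m => A (m + 1) - A m), Finset.sum_range_sub, h0, sub_zero]

theorem rowQ_rep (D : DatX) (Sg : Finset D.Ix) (hG : D.Good Sg) : ∃ Kx : ℝ, 1 ≤ Kx ∧
    ∀ n κ M : ℕ, 1 ≤ n → 1 ≤ M → ∀ (s : D.Ix) (i : ℕ), i < κ →
    ∃ h : Sg → Fin (M + 1) → ℕ → ℝ,
      (∀ j ∈ D.Nd n, D.rowQ n n s i j = ∑ s' : Sg, (∑ m, h s' m j) * D.rho n s'.1 j) ∧
      (∀ s' (m : Fin (M + 1)), (m : ℕ) < M → ∃ p : ℝ[X],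
        p.natDegree < (m : ℕ) + (κ + D.gQ n n) ∧ ∀ j : ℕ, h s' m j = p.eval (j : ℝ)) ∧
      ∀ s' (m : Fin (M + 1)), ∀ j ∈ D.Nd n, |h s' m j| ≤
        Kx * (Wb 1 n n (D.E * D.ww) * (win n n : ℝ) ^ (D.B + D.E) * ((M : ℝ) + 2) ^ D.ec *
          2 ^ (n + κ)) * (1 / 3) ^ (m : ℕ) := by
  classical
  obtain ⟨Γ, hΓ, hcomb⟩ := combX D Sg hG
  obtain ⟨C0, hC0, hCf⟩ := Cf_leQ D
  have hqn := D.hq
  have hq1 : (1 : ℝ) ≤ D.q := by
    have : 1 ≤ D.q := by omega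
    exact_mod_cast this
  have hq0 : (0 : ℝ) < D.q := by linarith
  obtain ⟨Gs, hGs⟩ : ∃ Gs : ℝ, Gs = ∑ s : D.Ix, ∑ s' : D.Ix, ∑ μ ∈ D.Mm,
    |Γ s s' μ| * (D.q : ℝ) ^ D.sw s := ⟨_, rfl⟩
  have hGs' : ∀ s s' : D.Ix, ∑ μ ∈ D.Mm, |Γ s s' μ| * (D.q : ℝ) ^ D.sw s ≤ Gs := by
    intro s s'
    rw [hGs]
    refine (Finset.single_le_sum (f := fun s' : D.Ix => ∑ μ ∈ D.Mm,
      |Γ s s' μ| * (D.q : ℝ) ^ D.sw s) (fun _ _ => Finset.sum_nonneg fun _ _ => by positivity)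
      (mem_univ s')).trans ?_
    exact Finset.single_le_sum (f := fun s : D.Ix => ∑ s' : D.Ix, ∑ μ ∈ D.Mm,
      |Γ s s' μ| * (D.q : ℝ) ^ D.sw s) (fun _ _ => Finset.sum_nonneg fun _ _ =>
        Finset.sum_nonneg fun _ _ => by positivity) (mem_univ s)
  have hGs0 : 0 ≤ Gs := by
    rw [hGs]
    exact Finset.sum_nonneg fun _ _ => Finset.sum_nonneg fun _ _ =>
      Finset.sum_nonneg fun _ _ => by positivity
  have hKd : 0 ≤ D.Kd := by
    unfold DatX.Kd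
    positivity
  have hce : 0 ≤ ce D.ec := le_trans zero_le_one (ce_pos _)
  obtain ⟨K0, hK0⟩ : ∃ K0 : ℝ, K0 = Gs * (C0 + 2 ^ D.E * (D.Kd * ce D.ec)) := ⟨_, rfl⟩
  have hK00 : 0 ≤ K0 := by
    rw [hK0]
    positivity
  refine ⟨1 + 2 * K0, by linarith, ?_⟩
  intro n κ M hn hM s i hi
  obtain ⟨c, hc⟩ : ∃ c : D.Ix → Mon D.N D.M → ℝ,
    c = fun (s' : D.Ix) (μ : Mon D.N D.M) => Γ s s' μ * (D.q : ℝ) ^ D.sw s / (D.q : ℝ) ^ D.sw s' := ⟨_, rfl⟩
  have hcs : ∀ s' : D.Ix, ∑ μ ∈ D.Mm, |c s' μ| ≤ Gs := by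
    intro s'
    refine (Finset.sum_le_sum fun μ _ => ?_).trans (hGs' s s')
    rw [hc]
    have h1 : (1 : ℝ) ≤ (D.q : ℝ) ^ D.sw s' := one_le_pow₀ hq1
    show |Γ s s' μ * (D.q : ℝ) ^ D.sw s / (D.q : ℝ) ^ D.sw s'| ≤ _
    rw [abs_div, abs_mul, abs_of_nonneg (by positivity : (0 : ℝ) ≤ (D.q : ℝ) ^ D.sw s),
      abs_of_nonneg (by positivity : (0 : ℝ) ≤ (D.q : ℝ) ^ D.sw s')]
    exact div_le_self (by positivity) h1
  obtain ⟨Q, hQ⟩ : ∃ Q : ℝ, Q = (D.q : ℝ) ^ (2 * D.gQ n n) := ⟨_, rfl⟩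
  have hQ0 : 0 < Q := by
    rw [hQ]
    positivity
  have hWbQ : Wb D.q n n (D.E * D.ww) = Q * Wb 1 n n (D.E * D.ww) := by
    rw [hQ]
    exact RP_Wb
  have hWb1 : 0 ≤ Wb 1 n n (D.E * D.ww) := RP_Wb0
  have hW : (1 : ℝ) ≤ (win n n : ℝ) := by
    have : 1 ≤ win n n := by unfold win; omega
    exact_mod_cast this
  obtain ⟨pe, hpe, hpe'⟩ := ebin_poly i (q := D.q) (by omega)
  have heb : ∀ j ∈ D.Nd n, |ebin i ((j : ℝ) / D.q)| ≤ 2 ^ (n + κ) := by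
    intro j hj
    refine (ebin_le (RP_node hj).1 (RP_node hj).2).trans ?_
    exact pow_le_pow_right₀ (by norm_num) (by omega)
  -- the approximating polynomials
  have hP : ∀ (m : ℕ) (μ : Mon D.N D.M), ∃ G : ℝ[X], 1 ≤ m → μ ∈ D.Mm →
      G.natDegree < m + D.gQ n n ∧
      ∀ j ∈ D.Nd n, |(D.Om n n).eval (j : ℝ) ^ D.E * D.Cf n μ j - G.eval (j : ℝ)| ≤
        2 ^ D.E * (Wb D.q n n (D.E * D.ww) * (win n n : ℝ) ^ D.E) *
          (D.Kd * ce D.ec * ((m : ℝ) + 1) ^ D.ec * (1 / 3) ^ m) := by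
    intro m μ
    by_cases hm : 1 ≤ m
    · by_cases hμ : μ ∈ D.Mm
      · obtain ⟨G, h1, h2⟩ := Cf_polyX D hn le_rfl hm hμ
        refine ⟨G, fun _ _ => ⟨?_, ?_⟩⟩
        · rw [one_mul] at h1
          exact h1
        · intro j hj
          have h3 := h2 j hj
          rw [one_mul] at h3
          have h4 : (1 / (2 * ((1 : ℕ) : ℝ) + 1)) = (1 / 3 : ℝ) := by norm_num
          rw [h4] at h3
          exact h3
      · exact ⟨0, fun _ h => absurd h hμ⟩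
    · exact ⟨0, fun h => absurd h hm⟩
  choose G hGp using hP
  obtain ⟨Pm, hPm⟩ : ∃ Pm : ℕ → D.Ix → ℝ[X], Pm = fun (m : ℕ) (s' : D.Ix) =>
    if m = 0 then 0 else (∑ μ ∈ D.Mm, C (c s' μ / Q) * G m μ) * pe := ⟨_, rfl⟩
  obtain ⟨F, hF⟩ : ∃ F : D.Ix → ℕ → ℝ, F = fun (s' : D.Ix) (j : ℕ) =>
    (∑ μ ∈ D.Mm, c s' μ * (((D.Om n n).eval (j : ℝ) ^ D.E * D.Cf n μ j) / Q)) *
      ebin i ((j : ℝ) / D.q) := ⟨_, rfl⟩
  obtain ⟨A, hA⟩ : ∃ A : D.Ix → ℕ → ℕ → ℝ, A = fun (s' : D.Ix) (j m : ℕ) =>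
    if m ≤ M then (Pm m s').eval (j : ℝ) else F s' j := ⟨_, rfl⟩
  have hA0 : ∀ s' j, A s' j 0 = 0 := by
    intro s' j
    rw [hA, hPm]
    simp
  have hAM : ∀ s' j, A s' j (M + 1) = F s' j := by
    intro s' j
    rw [hA]
    simp
  obtain ⟨Z, hZ⟩ : ∃ Z : ℝ, Z = Wb 1 n n (D.E * D.ww) * (win n n : ℝ) ^ (D.B + D.E) *
    ((M : ℝ) + 2) ^ D.ec * 2 ^ (n + κ) := ⟨_, rfl⟩
  have hM2 : (1 : ℝ) ≤ ((M : ℝ) + 2) ^ D.ec := by
    refine one_le_pow₀ ?_
    have : (0 : ℝ) ≤ M := Nat.cast_nonneg _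
    linarith
  have hZ0 : 0 ≤ Z := by
    rw [hZ]
    positivity
  -- the distance between the polynomials and the function
  have herr : ∀ s' : D.Ix, ∀ j ∈ D.Nd n, ∀ m : ℕ, |A s' j m - F s' j| ≤ K0 * Z * (1 / 3) ^ m := by
    intro s' j hj m
    have hKZ : 0 ≤ K0 * Z * (1 / 3) ^ m := by positivity
    by_cases hmM : m ≤ M
    · have h1 : A s' j m = (Pm m s').eval (j : ℝ) := by
        rw [hA]
        exact if_pos hmM
      rw [h1]
      rcases Nat.eq_zero_or_pos m with hm0 | hm1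
      · subst hm0
        have h2 : (Pm 0 s').eval (j : ℝ) = 0 := by
          rw [hPm]
          simp
        rw [h2, zero_sub, abs_neg, pow_zero, mul_one, hF]
        show |(∑ μ ∈ D.Mm, c s' μ * (((D.Om n n).eval (j : ℝ) ^ D.E * D.Cf n μ j) / Q)) *
          ebin i ((j : ℝ) / D.q)| ≤ _
        rw [abs_mul]
        have h3 : |∑ μ ∈ D.Mm, c s' μ * (((D.Om n n).eval (j : ℝ) ^ D.E * D.Cf n μ j) / Q)| ≤
            Gs * (Wb 1 n n (D.E * D.ww) * (C0 * (win n n : ℝ) ^ D.B)) := by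
          refine RP_abs_sum D.Mm (c s') _ (by positivity) (hcs s') fun μ hμ => ?_
          rw [abs_div, abs_mul, abs_pow, abs_of_pos hQ0, div_le_iff₀ hQ0]
          have h4 := Om_leX D (T := n) hj
          have h5 := hCf n n μ hμ j hj
          refine (mul_le_mul h4 h5 (abs_nonneg _) RP_Wb0).trans (le_of_eq ?_)
          rw [hWbQ]
          ring
        refine (mul_le_mul h3 (heb j hj) (abs_nonneg _) (by positivity)).trans ?_
        rw [hK0, hZ]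
        have h6 : (win n n : ℝ) ^ D.B ≤ (win n n : ℝ) ^ (D.B + D.E) :=
          pow_le_pow_right₀ hW (Nat.le_add_right _ _)
        have h7 : Gs * (Wb 1 n n (D.E * D.ww) * (C0 * (win n n : ℝ) ^ D.B)) * 2 ^ (n + κ) ≤
            Gs * C0 * (Wb 1 n n (D.E * D.ww) * (win n n : ℝ) ^ (D.B + D.E) *
              ((M : ℝ) + 2) ^ D.ec * 2 ^ (n + κ)) := by
          have h8 : (win n n : ℝ) ^ D.B ≤ (win n n : ℝ) ^ (D.B + D.E) * ((M : ℝ) + 2) ^ D.ec :=
            h6.trans (le_mul_of_one_le_right (by positivity) hM2)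
          calc Gs * (Wb 1 n n (D.E * D.ww) * (C0 * (win n n : ℝ) ^ D.B)) * 2 ^ (n + κ)
              = Gs * C0 * (Wb 1 n n (D.E * D.ww) * 2 ^ (n + κ)) * (win n n : ℝ) ^ D.B := by ring
            _ ≤ Gs * C0 * (Wb 1 n n (D.E * D.ww) * 2 ^ (n + κ)) *
                ((win n n : ℝ) ^ (D.B + D.E) * ((M : ℝ) + 2) ^ D.ec) :=
              mul_le_mul_of_nonneg_left h8 (by positivity)
            _ = _ := by ring
        refine h7.trans (mul_le_mul_of_nonneg_right ?_ (by positivity))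
        refine mul_le_mul_of_nonneg_left ?_ hGs0
        have : 0 ≤ 2 ^ D.E * (D.Kd * ce D.ec) := by positivity
        linarith
      · have h2 : (Pm m s').eval (j : ℝ) = (∑ μ ∈ D.Mm, c s' μ * ((G m μ).eval (j : ℝ) / Q)) *
            ebin i ((j : ℝ) / D.q) := by
          rw [hPm]
          show ((if m = 0 then 0 else (∑ μ ∈ D.Mm, C (c s' μ / Q) * G m μ) * pe) : ℝ[X]).eval
            (j : ℝ) = _
          rw [if_neg (by omega), eval_mul, hpe', eval_finsetSum]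
          congr 1
          refine Finset.sum_congr rfl fun μ _ => ?_
          rw [eval_mul, eval_C]
          ring
        have h3 : (Pm m s').eval (j : ℝ) - F s' j = -((∑ μ ∈ D.Mm, c s' μ *
            (((D.Om n n).eval (j : ℝ) ^ D.E * D.Cf n μ j - (G m μ).eval (j : ℝ)) / Q)) *
            ebin i ((j : ℝ) / D.q)) := by
          rw [h2, hF]
          show (∑ μ ∈ D.Mm, c s' μ * ((G m μ).eval (j : ℝ) / Q)) * ebin i ((j : ℝ) / D.q) -
            (∑ μ ∈ D.Mm, c s' μ * (((D.Om n n).eval (j : ℝ) ^ D.E * D.Cf n μ j) / Q)) *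
            ebin i ((j : ℝ) / D.q) = _
          rw [← sub_mul, ← Finset.sum_sub_distrib, ← neg_mul, ← Finset.sum_neg_distrib]
          congr 1
          refine Finset.sum_congr rfl fun μ _ => ?_
          ring
        rw [h3, abs_neg, abs_mul]
        have h4 : |∑ μ ∈ D.Mm, c s' μ *
            (((D.Om n n).eval (j : ℝ) ^ D.E * D.Cf n μ j - (G m μ).eval (j : ℝ)) / Q)| ≤
            Gs * (2 ^ D.E * (Wb 1 n n (D.E * D.ww) * (win n n : ℝ) ^ D.E) *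
              (D.Kd * ce D.ec * ((m : ℝ) + 1) ^ D.ec * (1 / 3) ^ m)) := by
          refine RP_abs_sum D.Mm (c s') _ (by positivity) (hcs s') fun μ hμ => ?_
          rw [abs_div, abs_of_pos hQ0, div_le_iff₀ hQ0]
          refine ((hGp m μ hm1 hμ).2 j hj).trans (le_of_eq ?_)
          rw [hWbQ]
          ring
        refine (mul_le_mul h4 (heb j hj) (abs_nonneg _) (by positivity)).trans ?_
        rw [hK0, hZ]
        have hmM' : (m : ℝ) ≤ M := by exact_mod_cast hmM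
        have h5 : ((m : ℝ) + 1) ^ D.ec ≤ ((M : ℝ) + 2) ^ D.ec :=
          pow_le_pow_left₀ (by positivity) (by linarith) _
        have h6 : (win n n : ℝ) ^ D.E ≤ (win n n : ℝ) ^ (D.B + D.E) :=
          pow_le_pow_right₀ hW (Nat.le_add_left _ _)
        have h7 : (win n n : ℝ) ^ D.E * ((m : ℝ) + 1) ^ D.ec ≤
            (win n n : ℝ) ^ (D.B + D.E) * ((M : ℝ) + 2) ^ D.ec :=
          mul_le_mul h6 h5 (by positivity) (by positivity)
        calc Gs * (2 ^ D.E * (Wb 1 n n (D.E * D.ww) * (win n n : ℝ) ^ D.E) *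
              (D.Kd * ce D.ec * ((m : ℝ) + 1) ^ D.ec * (1 / 3) ^ m)) * 2 ^ (n + κ)
            = Gs * (2 ^ D.E * (D.Kd * ce D.ec)) * (Wb 1 n n (D.E * D.ww) * 2 ^ (n + κ) *
              (1 / 3) ^ m) * ((win n n : ℝ) ^ D.E * ((m : ℝ) + 1) ^ D.ec) := by ring
          _ ≤ Gs * (2 ^ D.E * (D.Kd * ce D.ec)) * (Wb 1 n n (D.E * D.ww) * 2 ^ (n + κ) *
              (1 / 3) ^ m) * ((win n n : ℝ) ^ (D.B + D.E) * ((M : ℝ) + 2) ^ D.ec) :=
            mul_le_mul_of_nonneg_left h7 (by positivity)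
          _ = Gs * (2 ^ D.E * (D.Kd * ce D.ec)) * (Wb 1 n n (D.E * D.ww) *
              (win n n : ℝ) ^ (D.B + D.E) * ((M : ℝ) + 2) ^ D.ec * 2 ^ (n + κ) *
              (1 / 3) ^ m) := by ring
          _ ≤ Gs * (C0 + 2 ^ D.E * (D.Kd * ce D.ec)) * (Wb 1 n n (D.E * D.ww) *
              (win n n : ℝ) ^ (D.B + D.E) * ((M : ℝ) + 2) ^ D.ec * 2 ^ (n + κ) *
              (1 / 3) ^ m) := by
            refine mul_le_mul_of_nonneg_right ?_ (by positivity)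
            refine mul_le_mul_of_nonneg_left ?_ hGs0
            linarith
          _ = _ := by ring
    · have h1 : A s' j m = F s' j := by
        rw [hA]
        exact if_neg hmM
      rw [h1, sub_self, abs_zero]
      exact hKZ
  refine ⟨fun s' m j => A s'.1 j ((m : ℕ) + 1) - A s'.1 j (m : ℕ), ?_, ?_, ?_⟩
  · intro j hj
    have h1 : D.rowQ n n s i j = ∑ s' : D.Ix, F s' j * D.rho n s' j := by
      unfold DatX.rowQ DatX.rho DatX.OmQ
      rw [hcomb n n s j hj, ← hQ, hF, Finset.mul_sum, Finset.sum_mul]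
      refine Finset.sum_congr rfl fun s' _ => ?_
      show _ = (∑ μ ∈ D.Mm, c s' μ * (((D.Om n n).eval (j : ℝ) ^ D.E * D.Cf n μ j) / Q)) *
        ebin i ((j : ℝ) / D.q) * _
      rw [Finset.mul_sum, Finset.sum_mul, Finset.sum_mul, Finset.sum_mul, hc]
      refine Finset.sum_congr rfl fun μ _ => ?_
      have hqs : (D.q : ℝ) ^ D.sw s' ≠ 0 := by positivity
      show _ = Γ s s' μ * (D.q : ℝ) ^ D.sw s / (D.q : ℝ) ^ D.sw s' * _ * _ * _
      field_simp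
    have h2 : ∀ s' : D.Ix, s' ∉ Sg → F s' j * D.rho n s' j = 0 := by
      intro s' hs'
      have h3 : ∀ μ, Γ s s' μ = 0 := by
        intro μ
        by_contra h
        exact hs' (hΓ s s' μ h)
      rw [hF, hc]
      show (∑ μ ∈ D.Mm, Γ s s' μ * (D.q : ℝ) ^ D.sw s / (D.q : ℝ) ^ D.sw s' *
        (((D.Om n n).eval (j : ℝ) ^ D.E * D.Cf n μ j) / Q)) * ebin i ((j : ℝ) / D.q) * _ = 0
      rw [Finset.sum_eq_zero fun μ _ => by rw [h3 μ]; ring]
      ring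
    rw [h1, ← Finset.sum_subset (Finset.subset_univ Sg) fun s' _ hs' => h2 s' hs',
      ← Finset.sum_coe_sort Sg fun s' => F s' j * D.rho n s' j]
    refine Finset.sum_congr rfl fun s' _ => ?_
    rw [RP_tele M (fun m => A s'.1 j m) (hA0 s'.1 j), hAM]
  · intro s' m hm
    refine ⟨Pm ((m : ℕ) + 1) s'.1 - Pm (m : ℕ) s'.1, ?_, ?_⟩
    · have hdeg : ∀ k : ℕ, k ≤ (m : ℕ) + 1 →
          (Pm k s'.1).natDegree < (m : ℕ) + (κ + D.gQ n n) := by
        intro k hk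
        rw [hPm]
        show ((if k = 0 then 0 else (∑ μ ∈ D.Mm, C (c s'.1 μ / Q) * G k μ) * pe) :
          ℝ[X]).natDegree < _
        split_ifs with hk0
        · rw [natDegree_zero]
          omega
        · have h1 : (∑ μ ∈ D.Mm, C (c s'.1 μ / Q) * G k μ).natDegree ≤ k + D.gQ n n - 1 := by
            refine natDegree_sum_le_of_forall_le _ _ fun μ hμ => ?_
            have h2 := (hGp k μ (by omega) hμ).1
            refine (natDegree_C_mul_le _ _).trans ?_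
            omega
          have h3 := (natDegree_mul_le (p := ∑ μ ∈ D.Mm, C (c s'.1 μ / Q) * G k μ)
            (q := pe))
          omega
      refine lt_of_le_of_lt (natDegree_sub_le _ _) (max_lt (hdeg _ le_rfl) (hdeg _ (by omega)))
    · intro j
      show A s'.1 j ((m : ℕ) + 1) - A s'.1 j (m : ℕ) = _
      rw [eval_sub, hA]
      show (if (m : ℕ) + 1 ≤ M then _ else _) - (if (m : ℕ) ≤ M then _ else _) = _
      rw [if_pos (by omega), if_pos (by omega)]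
  · intro s' m j hj
    show |A s'.1 j ((m : ℕ) + 1) - A s'.1 j (m : ℕ)| ≤ _
    have h1 := herr s'.1 j hj ((m : ℕ) + 1)
    have h2 := herr s'.1 j hj (m : ℕ)
    have h3 : A s'.1 j ((m : ℕ) + 1) - A s'.1 j (m : ℕ) =
        (A s'.1 j ((m : ℕ) + 1) - F s'.1 j) - (A s'.1 j (m : ℕ) - F s'.1 j) := by ring
    rw [h3, ← hZ]
    refine (abs_sub _ _).trans ?_
    have h4 : K0 * Z * (1 / 3) ^ ((m : ℕ) + 1) ≤ K0 * Z * (1 / 3) ^ (m : ℕ) := by
      refine mul_le_mul_of_nonneg_left ?_ (by positivity)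
      exact pow_le_pow_of_le_one (by norm_num) (by norm_num) (Nat.le_succ _)
    have h5 : (1 + 2 * K0) * Z * (1 / 3) ^ (m : ℕ) = Z * (1 / 3) ^ (m : ℕ) +
        (K0 * Z * (1 / 3) ^ (m : ℕ) + K0 * Z * (1 / 3) ^ (m : ℕ)) := by ring
    have h6 : 0 ≤ Z * (1 / 3) ^ (m : ℕ) := by positivity
    rw [h5]
    linarith

end CM68
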