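import Pool.Agent.LibCM68.Det
import Pool.Agent.LibPQ.DET3
import Pool.Agent.LibPQ.IN2
import Pool.Agent.LibPQ.ID
import Pool.Agent.LibPQ.RP

/-!
# Row KN: the inequality for one `n` (MEDIUM; templates `det_ineq` in LibCM68/Det.lean, `coreX_n` in LibPX/COREX.lean)

`ι = D.Ix × Fin κ`, `R = card ι = card Ix * κ ≥ 1`.  `rowQ_ind` (with `d = κ + gQ n n`) and `exists_minor` give nodes `g : ι → D.Nd n` with `det (of fun b l => rowQ n n b.1 b.2 (g l)) ≠ 0`.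
Column `l`: `Col` at `x = j % q`, `j = g l` (`e ∣ j` from `e ∣ j % q`, `e ∣ q`: `Nat.dvd_mod_iff`-like) and `rowQ_int`: `X l = D₀ * b^(2 gQ + 2 κ)` makes the column integral, so `∏ X l * det` is a nonzero integer
(`Matrix.det_mul_row`, as in `det_ineq`), `1 ≤ ∏ X l * |det| ≤ (D₀ * Qb^(2 gQ + 2 κ))^R * |det|`.
Upper bound: `rowQ_rep` with `M = R` for every `b : ι` (choose `h b`), `detQ` with `S = Sg`, `x l = (g l : ℝ)`, `ρ s l = rho n s (g l)`, `θ = 1 / 3`, `D₁ = κ + gQ n n`, `A = Kx * (..)` (nonnegative), `P`.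
-/

namespace CM68

open Finset Polynomial

private theorem kn_int (D : DatX) {Qb n D₀ κ : ℕ}
    (hco : ∀ h, ∀ x < D.q, ∃ m : ℤ, (D₀ : ℚ) * D.φ h x = m)
    (hcol : ∀ x ∈ D.I, D.Col Qb x) (j : D.Nd n) :
    ∃ bb : ℕ, 2 ≤ bb ∧ bb ≤ Qb ∧ ∀ (s : D.Ix) (i : Fin κ), ∃ z : ℤ,
      (D₀ : ℝ) * (bb : ℝ) ^ (2 * D.gQ n n + 2 * κ) * D.rowQ n n s i (j : ℕ) = z := by
  obtain ⟨j, hj⟩ := j
  have hj2 : j % D.q ∈ D.I := by
    have h1 := hj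
    unfold DatX.Nd P at h1
    exact (mem_filter.1 h1).2
  obtain ⟨e, b, hb2, hbQ, hq, hex, hcs, hct⟩ := hcol _ hj2
  have heq : e ∣ D.q := ⟨b, hq⟩
  have hej : e ∣ j := (Nat.dvd_mod_iff heq).1 hex
  exact ⟨b, hb2, hbQ, fun s i => rowQ_int D hb2 hq hco hj hej hcs hct s i.2.le⟩

private theorem kn_low {ι : Type*} [Fintype ι] [DecidableEq ι] (N : Matrix ι ι ℝ) {D₀ Qb e : ℕ}
    (hD₀ : 1 ≤ D₀) (hdet : N.det ≠ 0)
    (hint : ∀ l, ∃ bb : ℕ, 2 ≤ bb ∧ bb ≤ Qb ∧ ∀ i, ∃ z : ℤ,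
      (D₀ : ℝ) * (bb : ℝ) ^ e * N i l = z) :
    1 ≤ ((D₀ : ℝ) * (Qb : ℝ) ^ e) ^ Fintype.card ι * |N.det| := by
  choose bb hb2 hbQ hint using hint
  choose Z hZ using hint
  have hD : (0 : ℝ) < D₀ := by exact_mod_cast hD₀
  have hb0 : ∀ l, (0 : ℝ) < bb l := fun l => by
    have := hb2 l
    exact_mod_cast (by omega : 0 < bb l)
  have hdetZ : ((Matrix.of fun i l => Z l i).det : ℝ) =
      (∏ l, ((D₀ : ℝ) * (bb l : ℝ) ^ e)) * N.det := by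
    rw [← Matrix.det_mul_row]
    have h1 := RingHom.map_det (Int.castRingHom ℝ) (Matrix.of fun i l => Z l i)
    simp only [Int.coe_castRingHom] at h1
    rw [h1]
    congr 1
    ext i l
    simp only [RingHom.mapMatrix_apply, Matrix.map_apply, Matrix.of_apply, Int.coe_castRingHom]
    exact (hZ l i).symm
  have hprod : 0 < ∏ l, ((D₀ : ℝ) * (bb l : ℝ) ^ e) := by
    refine prod_pos fun l _ => ?_
    have := hb0 l
    positivity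
  have hZ1 : (1 : ℝ) ≤ |((Matrix.of fun i l => Z l i).det : ℝ)| := by
    have h1 : (Matrix.of fun i l => Z l i).det ≠ 0 := by
      intro h0
      rw [h0, Int.cast_zero] at hdetZ
      exact (mul_ne_zero hprod.ne' hdet) hdetZ.symm
    have h2 := Int.one_le_abs h1
    exact_mod_cast h2
  rw [hdetZ, abs_mul, abs_of_pos hprod] at hZ1
  refine hZ1.trans (mul_le_mul_of_nonneg_right ?_ (abs_nonneg _))
  calc ∏ l, ((D₀ : ℝ) * (bb l : ℝ) ^ e) ≤ ∏ _l : ι, ((D₀ : ℝ) * (Qb : ℝ) ^ e) := by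
        refine prod_le_prod (fun l _ => by have := hb0 l; positivity) fun l _ => ?_
        have h2 : (bb l : ℝ) ≤ Qb := by exact_mod_cast hbQ l
        have h3 := (hb0 l).le
        gcongr
    _ = _ := by rw [prod_const, card_univ]

theorem coreQ_n (D : DatX) (Sg : Finset D.Ix) {Qb n D₀ κ G : ℕ} {P Kx : ℝ}
    (hn : 1 ≤ n) (hκ : 1 ≤ κ) (hD₀ : 1 ≤ D₀)
    (hco : ∀ h, ∀ x < D.q, ∃ m : ℤ, (D₀ : ℚ) * D.φ h x = m)
    (hcol : ∀ x ∈ D.I, D.Col Qb x) (hnL : D.L + 1 < n)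
    (hdeg : D.Sp * ((D.B + 1) * (D.L * ((κ + D.gQ n n) + D.B * (D.w * D.L * D.N)))) ≤
      D.I.card * (n - 1 - D.L))
    (hP : 0 ≤ P) (hrho : ∀ s : D.Ix, ∀ j ∈ D.Nd n, |D.rho n s j| ≤ P) (hK1 : 1 ≤ Kx)
    (hKx : ∀ n κ M : ℕ, 1 ≤ n → 1 ≤ M → ∀ (s : D.Ix) (i : ℕ), i < κ →
      ∃ h : Sg → Fin (M + 1) → ℕ → ℝ,
      (∀ j ∈ D.Nd n, D.rowQ n n s i j = ∑ s' : Sg, (∑ m, h s' m j) * D.rho n s'.1 j) ∧
      (∀ s' (m : Fin (M + 1)), (m : ℕ) < M → ∃ p : ℝ[X],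
        p.natDegree < (m : ℕ) + (κ + D.gQ n n) ∧ ∀ j : ℕ, h s' m j = p.eval (j : ℝ)) ∧
      ∀ s' (m : Fin (M + 1)), ∀ j ∈ D.Nd n, |h s' m j| ≤
        Kx * (Wb 1 n n (D.E * D.ww) * (win n n : ℝ) ^ (D.B + D.E) * ((M : ℝ) + 2) ^ D.ec *
          2 ^ (n + κ)) * (1 / 3) ^ (m : ℕ))
    {R : ℕ} (hR : R = Fintype.card D.Ix * κ) (hR1 : 1 ≤ R)
    (hG : 2 * Sg.card * (G + R * (κ + D.gQ n n)) ≤ R ^ 2) :
    1 ≤ ((D₀ : ℝ) * (Qb : ℝ) ^ (2 * D.gQ n n + 2 * κ)) ^ R *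
      ((R.factorial : ℝ) * ((Sg.card : ℝ) * (R + 1) *
        (Kx * (Wb 1 n n (D.E * D.ww) * (win n n : ℝ) ^ (D.B + D.E) * ((R : ℝ) + 2) ^ D.ec *
          2 ^ (n + κ)) * P)) ^ R * (1 / 3) ^ G) := by
  classical
  have hcard : Fintype.card (D.Ix × Fin κ) = R := by
    rw [Fintype.card_prod, Fintype.card_fin, hR]
  have hli := rowQ_ind D (n := n) (T := n) (d := κ + D.gQ n n) (κ := κ) hκ le_rfl hnL hdeg
  obtain ⟨g, -, hdet⟩ := exists_minor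
    (fun (b : D.Ix × Fin κ) (j : D.Nd n) => D.rowQ n n b.1 b.2 (j : ℕ)) hli
  have hlow := kn_low (Matrix.of fun (i : D.Ix × Fin κ) l =>
    (fun (b : D.Ix × Fin κ) (j : D.Nd n) => D.rowQ n n b.1 b.2 (j : ℕ)) i (g l))
    (e := 2 * D.gQ n n + 2 * κ) (Qb := Qb) hD₀ hdet (fun l => by
      obtain ⟨bb, h1, h2, h3⟩ := kn_int D (Qb := Qb) (κ := κ) hco hcol (g l)
      exact ⟨bb, h1, h2, fun i => h3 i.1 i.2⟩)
  rw [hcard] at hlow
  refine hlow.trans (mul_le_mul_of_nonneg_left ?_ (by positivity))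
  have hWb : 0 ≤ Wb 1 n n (D.E * D.ww) := by
    unfold Wb
    positivity
  obtain ⟨A, hA⟩ : ∃ A : ℝ, A = Kx * (Wb 1 n n (D.E * D.ww) * (win n n : ℝ) ^ (D.B + D.E) *
    ((R : ℝ) + 2) ^ D.ec * 2 ^ (n + κ)) := ⟨_, rfl⟩
  have hA0 : 0 ≤ A := by
    rw [hA]
    have : 0 ≤ Kx := by linarith
    positivity
  have hrep := fun b : D.Ix × Fin κ => hKx n κ R hn hR1 b.1 b.2 b.2.2
  choose h hh1 hh2 hh3 using hrep
  rw [← hA]
  have key := detQ (ι := D.Ix × Fin κ) (S := Sg) (M := R) (D₁ := κ + D.gQ n n) (G := G)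
    (A := A) (P := P) (θ := 1 / 3) (by rw [hcard]; exact hR1) (by rw [hcard])
    (fun l => ((g l : ℕ) : ℝ)) (fun b s m l => h b s m (g l)) (fun s l => D.rho n s.1 (g l))
    hA0 hP (by norm_num) (by norm_num) (fun s l => hrho s.1 _ (g l).2)
    (fun b s m l => by rw [hA]; exact hh3 b s m _ (g l).2)
    (fun b s m hm => by
      obtain ⟨p, hp1, hp2⟩ := hh2 b s m hm
      exact ⟨p, hp1, fun l => hp2 _⟩)
    (by rw [hcard, Fintype.card_coe]; exact hG)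
  rw [hcard, Fintype.card_coe] at key
  refine le_trans (le_of_eq ?_) key
  congr 2
  ext b l
  exact hh1 b _ (g l).2

end CM68
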