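import Pool.Agent.LibCM68.Defs
import Pool.Agent.LibCM68.LIM

/-!
# Row LM: the limit (MEDIUM, real numbers; template: the second half of `coreX` in LibPX/COREX.lean)

`R = F (4 W n)`, `κ = 4 W n`, `g = W win n n ≤ 4 W n` (`win n n = 3 n + 1 ≤ 4 n` for `n ≥ 1`).
`S₁ = 0`: the right hand side is `0` (`R ≥ 1`): contradiction with one `n ≥ 1`.  `S₁ ≥ 1`: apply `h n G` with `G = R^2 / (2 S₁) - R (κ + g)` (natural numbers; `R (κ + g) ≤ R * 8 W n ≤ R^2 / (2 S₁)` since `16 S₁ ≤ 4 F`), so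
`G ≥ R^2 / (2 S₁) - 1 - R * 8 W n` (real), `R^2 / (2 S₁) = R * 4 W n F / (2 S₁) ≥ R W n * 24 lam`.  Logarithms (`log 3 ≥ 1`, `log (Wb 1 n n W) = W win (8 log 2 + 1) ≤ 26.2 W n`, `log 2 ≤ 0.6932`, `n + 4 W n ≤ 5 W n`,
`log (R!) ≤ R log R`):
`(G : ℝ) ≤ G log 3 ≤ R (log D₀ + 16 W n log Qb) + R log R + R (log S₁ + log (R + 1) + log Kx + 26.2 W n + (B + E) log win + ec log (R + 2) + 3.5 W n + log Cρ + B log win)`.
With `ρ = 4 W F`, `R = ρ n`: `ρ W (24 lam - 8 - 16 log Qb - 29.7) n^2 ≤ a n + ρ n log (ρ n) + c n log (200 (δ n + 2)^2)`, `δ = ρ + 4`, `c = ρ (1 + 2 B + E + ec)`, `a = ρ (log D₀ + log S₁ + log Kx + log Cρ) + 1`, and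
`24 lam - 8 - 16 log Qb - 29.7 ≥ 8 lam - 5.7 > 0` (`log Qb ≤ lam - 2`, `lam ≥ 2`): `lim_contra`.
-/

namespace CM68

open Finset Polynomial

theorem lim_Q {W F S₁ Qb D₀ B E ec n₀ : ℕ} {lam Kx Cρ : ℝ} (hW : 1 ≤ W) (hF1 : 1 ≤ F)
    (hF : 12 * lam * S₁ ≤ F) (hQb : 2 ≤ Qb) (hlam : Real.log Qb + 2 ≤ lam) (hD₀ : 1 ≤ D₀)
    (hKx : 1 ≤ Kx) (hC : 1 ≤ Cρ)
    (h : ∀ n : ℕ, n₀ ≤ n → ∀ R : ℕ, R = F * (4 * W * n) → ∀ G : ℕ,
      2 * S₁ * (G + R * (4 * W * n + W * win n n)) ≤ R ^ 2 →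
      1 ≤ ((D₀ : ℝ) * (Qb : ℝ) ^ (2 * (W * win n n) + 2 * (4 * W * n))) ^ R *
        ((R.factorial : ℝ) * ((S₁ : ℝ) * (R + 1) *
          (Kx * (Wb 1 n n W * (win n n : ℝ) ^ (B + E) * ((R : ℝ) + 2) ^ ec * 2 ^ (n + 4 * W * n)) *
            (Cρ * (win n n : ℝ) ^ B))) ^ R * (1 / 3) ^ G)) : False := by
  have hlogQb : 0 < Real.log Qb := Real.log_pos (by exact_mod_cast (by omega : 1 < Qb))
  have hlam2 : 2 < lam := by linarith
  have hW1 : (1 : ℝ) ≤ W := by exact_mod_cast hW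
  have hF1R : (1 : ℝ) ≤ F := by exact_mod_cast hF1
  have hD1 : (1 : ℝ) ≤ D₀ := by exact_mod_cast hD₀
  have hQb1 : (1 : ℝ) ≤ Qb := by exact_mod_cast (by omega : 1 ≤ Qb)
  rcases Nat.eq_zero_or_pos S₁ with hS | hS
  · have h1 := h (max n₀ 1) (le_max_left _ _) _ rfl 0 (by rw [hS]; simp)
    have hR : F * (4 * W * max n₀ 1) ≠ 0 := by
      have : 1 ≤ max n₀ 1 := le_max_right _ _
      have h2 : 0 < F * (4 * W * max n₀ 1) := by positivity
      omega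
    rw [hS] at h1
    simp only [Nat.cast_zero, zero_mul, mul_zero, zero_pow hR] at h1
    linarith
  have hS1 : (1 : ℝ) ≤ S₁ := by exact_mod_cast hS
  have hFS : 4 * S₁ ≤ F := by
    have h1 : (4 : ℝ) * S₁ ≤ F := by
      have h2 : 24 * (S₁ : ℝ) ≤ 12 * lam * S₁ := by
        have := mul_le_mul_of_nonneg_right hlam2.le (by positivity : (0 : ℝ) ≤ 12 * S₁)
        linarith
      linarith
    exact_mod_cast h1
  obtain ⟨ρ, hρ⟩ : ∃ ρ : ℕ, ρ = F * (4 * W) := ⟨_, rfl⟩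
  have hρ1 : 1 ≤ ρ := by
    rw [hρ]
    exact Nat.mul_pos hF1 (by omega)
  have hρ1R : (1 : ℝ) ≤ ρ := by exact_mod_cast hρ1
  refine lim_contra (E := ρ * W)
    (a := ρ * (Real.log D₀ + Real.log S₁ + Real.log Kx + Real.log Cρ) + 1) (R₁ := ρ)
    (c := ρ * (1 + 2 * B + E + ec)) (δ := ρ + 4) (by positivity) (by linarith) (by linarith)
    (max n₀ 1) ?_
  intro n hn
  have hn0 : n₀ ≤ n := (le_max_left _ _).trans hn
  have hn1 : 1 ≤ n := (le_max_right _ _).trans hn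
  have hn1R : (1 : ℝ) ≤ n := by exact_mod_cast hn1
  obtain ⟨R, hR⟩ : ∃ R : ℕ, R = F * (4 * W * n) := ⟨_, rfl⟩
  have hRρ : R = ρ * n := by
    rw [hR, hρ]
    ring
  have hRρR : (R : ℝ) = ρ * n := by
    rw [hRρ]
    push_cast
    ring
  have hR1 : 1 ≤ R := by
    rw [hRρ]
    exact Nat.mul_pos hρ1 hn1
  have hR1R : (1 : ℝ) ≤ R := by exact_mod_cast hR1
  have hwin : win n n ≤ 4 * n := by
    unfold win
    omega
  have hwin1 : 1 ≤ win n n := by
    unfold win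
    omega
  have hg : 4 * W * n + W * win n n ≤ 8 * W * n := by
    have h1 : W * win n n ≤ W * (4 * n) := Nat.mul_le_mul_left _ hwin
    have h2 : W * (4 * n) = 4 * W * n := by ring
    have h3 : 8 * W * n = 4 * W * n + 4 * W * n := by ring
    omega
  have hle : R * (4 * W * n + W * win n n) ≤ R ^ 2 / (2 * S₁) := by
    rw [Nat.le_div_iff_mul_le (by omega), sq, mul_assoc]
    refine Nat.mul_le_mul_left _ ?_
    calc (4 * W * n + W * win n n) * (2 * S₁) ≤ (8 * W * n) * (2 * S₁) :=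
          Nat.mul_le_mul_right _ hg
      _ = (4 * S₁) * (4 * W * n) := by ring
      _ ≤ F * (4 * W * n) := Nat.mul_le_mul_right _ hFS
      _ = R := hR.symm
  obtain ⟨G, hG⟩ : ∃ G : ℕ, G = R ^ 2 / (2 * S₁) - R * (4 * W * n + W * win n n) := ⟨_, rfl⟩
  have hGadd : G + R * (4 * W * n + W * win n n) = R ^ 2 / (2 * S₁) := by
    rw [hG]
    exact Nat.sub_add_cancel hle
  have h1 := h n hn0 R hR G (by
    rw [hGadd]
    exact Nat.mul_div_le _ _)
  -- the lower bound for `G`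
  have hGR : 24 * lam * (R * (W * n)) - 8 * (R * (W * n)) - 1 ≤ (G : ℝ) := by
    have h2 : ((R ^ 2 : ℕ) : ℝ) < 2 * S₁ * ((R ^ 2 / (2 * S₁) : ℕ) : ℝ) + 2 * S₁ := by
      have h3 : R ^ 2 < 2 * S₁ * (R ^ 2 / (2 * S₁)) + 2 * S₁ := Nat.lt_mul_div_succ _ (by omega)
      exact_mod_cast h3
    have h3 : ((R ^ 2 / (2 * S₁) : ℕ) : ℝ) =
        G + R * (4 * W * n + W * (win n n : ℕ)) := by
      rw [← hGadd]
      push_cast
      ring
    rw [h3] at h2
    push_cast at h2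
    have h4 : (4 * (W : ℝ) * n + W * (win n n : ℕ)) ≤ 8 * W * n := by exact_mod_cast hg
    have h5 : (R : ℝ) * (4 * (W : ℝ) * n + W * (win n n : ℕ)) ≤ R * (8 * W * n) :=
      mul_le_mul_of_nonneg_left h4 (by linarith)
    have h6 : 2 * (S₁ : ℝ) * (24 * lam * (R * (W * n))) ≤ (R : ℝ) ^ 2 := by
      have h7 : (R : ℝ) = F * (4 * W * n) := by
        rw [hR]
        push_cast
        ring
      have h8 : (12 * lam * S₁) * (4 * (W : ℝ) * n) ≤ F * (4 * W * n) :=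
        mul_le_mul_of_nonneg_right hF (by positivity)
      calc 2 * (S₁ : ℝ) * (24 * lam * (R * (W * n))) = R * ((12 * lam * S₁) * (4 * W * n)) := by
            ring
        _ ≤ R * (F * (4 * W * n)) := mul_le_mul_of_nonneg_left h8 (by linarith)
        _ = (R : ℝ) ^ 2 := by rw [← h7]; ring
    have h9 : 2 * (S₁ : ℝ) * (24 * lam * (R * (W * n))) <
        2 * S₁ * (G + R * (4 * W * n + W * (win n n : ℕ)) + 1) := by linarith
    have h10 := lt_of_mul_lt_mul_left h9 (by positivity)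
    linarith
  -- logarithms
  have hwin1R : (1 : ℝ) ≤ (win n n : ℝ) := by exact_mod_cast hwin1
  have hwinR : (win n n : ℝ) ≤ 4 * n := by exact_mod_cast hwin
  obtain ⟨Y, hY⟩ : ∃ Y : ℝ, Y = Wb 1 n n W := ⟨_, rfl⟩
  have hY0 : 0 < Y := by
    rw [hY]
    unfold Wb
    positivity
  have hYlog : Real.log Y = W * (win n n * (8 * Real.log 2 + 1)) := by
    rw [hY]
    unfold Wb
    rw [Real.log_pow, Nat.cast_one, one_pow, one_mul, Real.log_mul (by positivity)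
      (Real.exp_ne_zero _), Real.log_pow, Real.log_exp]
    push_cast
    ring
  have hRf : (0 : ℝ) < (R.factorial : ℝ) := by exact_mod_cast R.factorial_pos
  rw [← hY] at h1
  have hwin0 : (0 : ℝ) < (win n n : ℝ) := by linarith
  have hKx0 : 0 < Kx := by linarith
  have hC0 : 0 < Cρ := by linarith
  have hD0 : (0 : ℝ) < D₀ := by linarith
  have hQ0 : (0 : ℝ) < Qb := by linarith
  have hS0 : (0 : ℝ) < S₁ := by linarith
  have hR0 : (0 : ℝ) < R := by linarith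
  have hR10 : (0 : ℝ) < (R : ℝ) + 1 := by linarith
  have hR20 : (0 : ℝ) < (R : ℝ) + 2 := by linarith
  have hlog := Real.log_nonneg h1
  have e1 : Real.log (((D₀ : ℝ) * (Qb : ℝ) ^ (2 * (W * win n n) + 2 * (4 * W * n))) ^ R) =
      R * (Real.log D₀ + (2 * (W * win n n) + 2 * (4 * W * n)) * Real.log Qb) := by
    rw [Real.log_pow, Real.log_mul hD0.ne' (by positivity), Real.log_pow]
    push_cast
    ring
  have e2 : Real.log ((S₁ : ℝ) * (R + 1) *
      (Kx * (Y * (win n n : ℝ) ^ (B + E) * ((R : ℝ) + 2) ^ ec * 2 ^ (n + 4 * W * n)) *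
        (Cρ * (win n n : ℝ) ^ B))) =
      Real.log S₁ + Real.log (R + 1) + (Real.log Kx + (Real.log Y +
        (B + E) * Real.log (win n n) + ec * Real.log ((R : ℝ) + 2) +
        (n + 4 * W * n) * Real.log 2) + (Real.log Cρ + B * Real.log (win n n))) := by
    have p1 : (win n n : ℝ) ^ (B + E) ≠ 0 := (pow_pos hwin0 _).ne'
    have p2 : ((R : ℝ) + 2) ^ ec ≠ 0 := (pow_pos hR20 _).ne'
    have p3 : (2 : ℝ) ^ (n + 4 * W * n) ≠ 0 := (pow_pos two_pos _).ne'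
    have p4 : (win n n : ℝ) ^ B ≠ 0 := (pow_pos hwin0 _).ne'
    rw [Real.log_mul (mul_ne_zero hS0.ne' hR10.ne')
        (mul_ne_zero (mul_ne_zero hKx0.ne' (mul_ne_zero (mul_ne_zero (mul_ne_zero hY0.ne' p1) p2)
          p3)) (mul_ne_zero hC0.ne' p4)),
      Real.log_mul hS0.ne' hR10.ne',
      Real.log_mul (mul_ne_zero hKx0.ne' (mul_ne_zero (mul_ne_zero (mul_ne_zero hY0.ne' p1) p2)
          p3)) (mul_ne_zero hC0.ne' p4),
      Real.log_mul hKx0.ne' (mul_ne_zero (mul_ne_zero (mul_ne_zero hY0.ne' p1) p2) p3),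
      Real.log_mul (mul_ne_zero (mul_ne_zero hY0.ne' p1) p2) p3,
      Real.log_mul (mul_ne_zero hY0.ne' p1) p2, Real.log_mul hY0.ne' p1,
      Real.log_mul hC0.ne' p4, Real.log_pow, Real.log_pow, Real.log_pow, Real.log_pow]
    push_cast
    ring
  obtain ⟨Z, hZ⟩ : ∃ Z : ℝ, Z = (S₁ : ℝ) * (R + 1) *
      (Kx * (Y * (win n n : ℝ) ^ (B + E) * ((R : ℝ) + 2) ^ ec * 2 ^ (n + 4 * W * n)) *
        (Cρ * (win n n : ℝ) ^ B)) := ⟨_, rfl⟩
  have hZ0 : 0 < Z := by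
    rw [hZ]
    positivity
  rw [← hZ] at hlog e2
  have e3 : Real.log ((1 / 3 : ℝ) ^ G) = -(G * Real.log 3) := by
    rw [Real.log_pow, Real.log_div one_ne_zero (by norm_num), Real.log_one]
    ring
  have q1 : (((D₀ : ℝ) * (Qb : ℝ) ^ (2 * (W * win n n) + 2 * (4 * W * n))) ^ R) ≠ 0 := by
    positivity
  have q2 : (1 / 3 : ℝ) ^ G ≠ 0 := by positivity
  rw [Real.log_mul q1 (mul_ne_zero (mul_ne_zero hRf.ne' (pow_pos hZ0 _).ne') q2), e1,
    Real.log_mul (mul_ne_zero hRf.ne' (pow_pos hZ0 _).ne') q2,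
    Real.log_mul hRf.ne' (pow_pos hZ0 _).ne', Real.log_pow Z, e2, e3, hYlog] at hlog
  have hfac : Real.log (R.factorial : ℝ) ≤ R * Real.log R := by
    rw [← Real.log_pow]
    refine Real.log_le_log hRf ?_
    exact_mod_cast R.factorial_le_pow
  have hlog3 : (1 : ℝ) ≤ Real.log 3 := by
    rw [Real.le_log_iff_exp_le (by norm_num)]
    exact Real.exp_one_lt_d9.le.trans (by norm_num)
  have hlog2 := Real.log_two_lt_d9
  have hlog20 : 0 < Real.log 2 := Real.log_pos (by norm_num)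
  have hG3 : (G : ℝ) ≤ G * Real.log 3 := by
    have := mul_le_mul_of_nonneg_left hlog3 (Nat.cast_nonneg G : (0 : ℝ) ≤ G)
    linarith
  obtain ⟨Λ, hΛ⟩ : ∃ Λ : ℝ, Λ = Real.log (200 * (((ρ : ℝ) + 4) * n + 2) ^ 2) := ⟨_, rfl⟩
  have hbig : ∀ z : ℝ, 1 ≤ z → z ≤ ((ρ : ℝ) + 4) * n + 2 → Real.log z ≤ Λ := by
    intro z hz1 hz
    rw [hΛ]
    refine Real.log_le_log (by linarith) (hz.trans ?_)
    have h2 : (1 : ℝ) ≤ ((ρ : ℝ) + 4) * n + 2 := hz1.trans hz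
    have h3 : (((ρ : ℝ) + 4) * n + 2) * 1 ≤ (((ρ : ℝ) + 4) * n + 2) *
        (((ρ : ℝ) + 4) * n + 2) := mul_le_mul_of_nonneg_left h2 (zero_le_one.trans h2)
    rw [sq]
    linarith only [h2, h3]
  have hn0R : (0 : ℝ) ≤ n := by linarith
  have hρn : (0 : ℝ) ≤ (ρ : ℝ) * n := by positivity
  have l1 : Real.log ((R : ℝ) + 1) ≤ Λ := hbig _ (by linarith) (by rw [hRρR]; linarith)
  have l2 : Real.log ((R : ℝ) + 2) ≤ Λ := hbig _ (by linarith) (by rw [hRρR]; linarith)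
  have l3 : Real.log (win n n : ℝ) ≤ Λ := hbig _ hwin1R (by linarith)
  have hB0 : (0 : ℝ) ≤ B := Nat.cast_nonneg B
  have hE0 : (0 : ℝ) ≤ E := Nat.cast_nonneg E
  have hec0 : (0 : ℝ) ≤ ec := Nat.cast_nonneg ec
  -- the terms
  have hWn : (1 : ℝ) * n ≤ W * n := mul_le_mul_of_nonneg_right hW1 hn0R
  have hwW : (W : ℝ) * win n n ≤ 4 * (W * n) := by
    have := mul_le_mul_of_nonneg_left hwinR (by linarith : (0 : ℝ) ≤ W)
    linarith
  have t1 : (2 * ((W : ℝ) * win n n) + 2 * (4 * W * n)) * Real.log Qb ≤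
      16 * (W * n) * Real.log Qb := by
    refine mul_le_mul_of_nonneg_right ?_ hlogQb.le
    linarith
  have t2 : (W : ℝ) * (win n n * (8 * Real.log 2 + 1)) ≤ 26.2 * (W * n) := by
    have h2 : (W : ℝ) * win n n * (8 * Real.log 2 + 1) ≤ 4 * (W * n) * (8 * Real.log 2 + 1) :=
      mul_le_mul_of_nonneg_right hwW (by positivity)
    have h3 : 4 * ((W : ℝ) * n) * (8 * Real.log 2 + 1) ≤ 4 * (W * n) * 6.55 :=
      mul_le_mul_of_nonneg_left (by linarith) (by positivity)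
    linarith
  have t3 : ((n : ℝ) + 4 * W * n) * Real.log 2 ≤ 3.5 * (W * n) := by
    have h2 : ((n : ℝ) + 4 * W * n) * Real.log 2 ≤ 5 * (W * n) * Real.log 2 :=
      mul_le_mul_of_nonneg_right (by linarith) hlog20.le
    have h3 : 5 * ((W : ℝ) * n) * Real.log 2 ≤ 5 * (W * n) * 0.7 :=
      mul_le_mul_of_nonneg_left (by linarith) (by positivity)
    linarith
  have t4 : ((B : ℝ) + E) * Real.log (win n n) ≤ (B + E) * Λ :=
    mul_le_mul_of_nonneg_left l3 (by positivity)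
  have t5 : (ec : ℝ) * Real.log ((R : ℝ) + 2) ≤ ec * Λ := mul_le_mul_of_nonneg_left l2 hec0
  have t6 : (B : ℝ) * Real.log (win n n) ≤ B * Λ := mul_le_mul_of_nonneg_left l3 hB0
  obtain ⟨w, hw⟩ : ∃ w : ℝ, w = W * n := ⟨_, rfl⟩
  have hw0 : 0 ≤ w := by rw [hw]; positivity
  rw [← hw] at hGR t1 t2 t3
  have hin : Real.log D₀ + (2 * ((W : ℝ) * win n n) + 2 * (4 * W * n)) * Real.log Qb +
      (Real.log S₁ + Real.log (R + 1) + (Real.log Kx + (W * (win n n * (8 * Real.log 2 + 1)) +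
        (B + E) * Real.log (win n n) + ec * Real.log ((R : ℝ) + 2) +
        (n + 4 * W * n) * Real.log 2) + (Real.log Cρ + B * Real.log (win n n)))) ≤
      (Real.log D₀ + Real.log S₁ + Real.log Kx + Real.log Cρ) + (16 * Real.log Qb + 29.7) * w +
        (1 + 2 * B + E + ec) * Λ := by linarith only [t1, t2, t3, t4, t5, t6, l1]
  have hmul := mul_le_mul_of_nonneg_left hin hR0.le
  have hmain : 24 * lam * (R * w) - 8 * (R * w) - 1 ≤
      R * ((Real.log D₀ + Real.log S₁ + Real.log Kx + Real.log Cρ) +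
        (16 * Real.log Qb + 29.7) * w + (1 + 2 * B + E + ec) * Λ) + R * Real.log R := by
    linarith only [hlog, hmul, hfac, hG3, hGR]
  have hRw : 0 ≤ (R : ℝ) * w := mul_nonneg hR0.le hw0
  have hcoef : (R : ℝ) * w * 1 ≤ R * w * (24 * lam - 8 - (16 * Real.log Qb + 29.7)) :=
    mul_le_mul_of_nonneg_left (by linarith) hRw
  have hfin : (R : ℝ) * w ≤
      R * (Real.log D₀ + Real.log S₁ + Real.log Kx + Real.log Cρ) + 1 + R * Real.log R +
        R * ((1 + 2 * B + E + ec) * Λ) := by linarith only [hmain, hcoef]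
  rw [hRρR, hw] at hfin
  rw [← hΛ]
  have e9 : (ρ : ℝ) * W * (n : ℝ) ^ 2 = (ρ : ℝ) * n * (W * n) := by ring
  rw [e9]
  linarith only [hfin, hn1R]

end CM68
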