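import Pool.Agent.LibCM68.CORE
import Pool.Agent.LibPX.X1
import Pool.Agent.LibPQ.KN
import Pool.Agent.LibPQ.LM

/-!
# Row KC: the contradiction (MEDIUM, assembly; template: `coreX` in LibPX/COREX.lean)

`greedy` (LibPX/X1.lean) with `deg = IxT.dg`, `R = D.R` gives `Sg`, `Sg.card + finrank R = card Ix`, `Good Sg`.  `rowQ_rep` gives `Kx`.  `D₀`, `hco`: `exists_den` as in `coreX`; `Bd ≥ 1` with `|φ h x| ≤ Bd` for `x < q` as in `coreX`;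
`|rho n s j| ≤ q^(sw s) * Bd * win^B ≤ Cρ * win^B` (`row_leX`), `Cρ = (∑ s, q^(sw s)) * Bd + 1`-like, `≥ 1`.
`lim_Q` with `W = D.E * D.ww`, `F = card Ix`, `S₁ = Sg.card`, `n₀` = e.g. `Sp * ((B + 1) * (L * (B * (w * L * N)))) + I.card * (L + 1) + L + 2`; for `n ≥ n₀`: `coreQ_n` with `κ = 4 * W * n`
(`gQ n n = E * (ww * win n n) = W * win n n`: `mul_assoc`), `hdeg` as in `coreX_n`: `κ + gQ n n ≤ 8 W n`.
-/

namespace CM68

open Finset Polynomial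

private theorem KC_deg {Sp B L c I W κ g n : ℕ} (hW : κ + g ≤ 8 * W * n)
    (hZE : Sp * ((B + 1) * L) * (8 * W) < I)
    (hn : Sp * ((B + 1) * (L * c)) + I * (L + 1) + L + 2 ≤ n) :
    Sp * ((B + 1) * (L * ((κ + g) + c))) ≤ I * (n - 1 - L) := by
  have h1 : (Sp * ((B + 1) * L) * (8 * W) + 1) * n ≤ I * n := Nat.mul_le_mul_right n hZE
  have h2 : Sp * ((B + 1) * (L * ((κ + g) + c))) =
      Sp * ((B + 1) * L) * (κ + g) + Sp * ((B + 1) * (L * c)) := by ring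
  have h3 : I * (n - 1 - L) + I * (L + 1) = I * n := by
    rw [← Nat.mul_add]
    congr 1
    omega
  have h4 : (Sp * ((B + 1) * L) * (8 * W) + 1) * n = Sp * ((B + 1) * L) * (8 * W * n) + n := by
    ring
  have h5 : Sp * ((B + 1) * L) * (κ + g) ≤ Sp * ((B + 1) * L) * (8 * W * n) :=
    Nat.mul_le_mul_left _ hW
  omega

theorem coreQ (D : DatX) {Qb lam : ℕ} (hQb : 2 ≤ Qb) (hlam : Real.log Qb + 2 ≤ lam)
    (hcol : ∀ x ∈ D.I, D.Col Qb x) (hW : 1 ≤ D.E * D.ww) (hF1 : 1 ≤ Fintype.card D.Ix)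
    (hF : 12 * lam * (Fintype.card D.Ix - Module.finrank ℝ D.R) ≤ Fintype.card D.Ix)
    (hZE : D.Sp * ((D.B + 1) * D.L) * (8 * (D.E * D.ww)) < D.I.card) : False := by
  classical
  obtain ⟨Sg, hSg, hgood⟩ := greedy (ι := D.Ix) (fun s => IxT.dg s) D.R
  obtain ⟨Kx, hK1, hKx⟩ := rowQ_rep D Sg hgood
  -- the denominator and the bound
  obtain ⟨D₀, hD₀, hden⟩ := exists_den
    ((univ : Finset (Fin D.H)) ×ˢ range D.q) (fun t => D.φ t.1 t.2)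
  have hco : ∀ h, ∀ x < D.q, ∃ m : ℤ, (D₀ : ℚ) * D.φ h x = m := fun h x hx =>
    hden (h, x) (mem_product.2 ⟨mem_univ _, mem_range.2 hx⟩)
  obtain ⟨Bd, hB1, hBd⟩ : ∃ Bd : ℝ, 1 ≤ Bd ∧ ∀ h, ∀ x < D.q, |(D.φ h x : ℝ)| ≤ Bd := by
    refine ⟨1 + ∑ t ∈ (univ : Finset (Fin D.H)) ×ˢ range D.q, |(D.φ t.1 t.2 : ℝ)|, ?_, ?_⟩
    · have : 0 ≤ ∑ t ∈ (univ : Finset (Fin D.H)) ×ˢ range D.q, |(D.φ t.1 t.2 : ℝ)| :=
        sum_nonneg fun t _ => abs_nonneg _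
      linarith
    · intro h x hx
      have h1 := single_le_sum (f := fun t : Fin D.H × ℕ => |(D.φ t.1 t.2 : ℝ)|)
        (fun t _ => abs_nonneg _) (mem_product.2 ⟨mem_univ h, mem_range.2 hx⟩ :
          (h, x) ∈ (univ : Finset (Fin D.H)) ×ˢ range D.q)
      have h2 : |(D.φ h x : ℝ)| ≤ _ := h1
      linarith
  have hBd0 : (0 : ℝ) ≤ Bd := by linarith
  obtain ⟨Cρ, hC1, hCρ⟩ : ∃ Cρ : ℝ, 1 ≤ Cρ ∧ ∀ n : ℕ, ∀ s : D.Ix, ∀ j ∈ D.Nd n,
      |D.rho n s j| ≤ Cρ * (win n n : ℝ) ^ D.B := by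
    have hs0 : (0 : ℝ) ≤ ∑ s : D.Ix, (D.q : ℝ) ^ D.sw s :=
      sum_nonneg fun s _ => pow_nonneg (Nat.cast_nonneg _) _
    refine ⟨(1 + ∑ s : D.Ix, (D.q : ℝ) ^ D.sw s) * Bd,
      one_le_mul_of_one_le_of_one_le (by linarith) hB1, ?_⟩
    intro n s j hj
    have h1 : (D.q : ℝ) ^ D.sw s ≤ 1 + ∑ s : D.Ix, (D.q : ℝ) ^ D.sw s := by
      have h2 := single_le_sum (f := fun s : D.Ix => (D.q : ℝ) ^ D.sw s)
        (fun s _ => pow_nonneg (Nat.cast_nonneg _) _) (mem_univ s)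
      have h3 : (D.q : ℝ) ^ D.sw s ≤ _ := h2
      linarith
    have h4 := row_leX D hBd hj (T := n) s
    unfold DatX.rho
    rw [abs_mul, abs_of_nonneg (pow_nonneg (Nat.cast_nonneg D.q) (D.sw s) : (0 : ℝ) ≤ _),
      mul_assoc]
    exact mul_le_mul h1 h4 (abs_nonneg _) (by linarith)
  refine lim_Q (W := D.E * D.ww) (F := Fintype.card D.Ix) (S₁ := Sg.card) (Qb := Qb) (D₀ := D₀)
    (B := D.B) (E := D.E) (ec := D.ec)
    (n₀ := D.Sp * ((D.B + 1) * (D.L * (D.B * (D.w * D.L * D.N)))) + D.I.card * (D.L + 1) + D.L + 2)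
    (lam := (lam : ℝ)) (Kx := Kx) (Cρ := Cρ) hW hF1 ?_ hQb hlam hD₀ hK1 hC1 ?_
  · have h1 : Sg.card = Fintype.card D.Ix - Module.finrank ℝ D.R := Nat.eq_sub_of_add_eq hSg
    rw [h1]
    exact_mod_cast hF
  · intro n hn R hR G hG
    have hn1 : 1 ≤ n := by omega
    have hg : D.gQ n n = D.E * D.ww * win n n := by
      unfold DatX.gQ
      rw [mul_assoc]
    have hwin : win n n ≤ 4 * n := by
      unfold win
      omega
    have hκ : 1 ≤ 4 * (D.E * D.ww) * n :=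
      Nat.mul_pos (Nat.mul_pos (by norm_num) hW) hn1
    have hle : 4 * (D.E * D.ww) * n + D.gQ n n ≤ 8 * (D.E * D.ww) * n := by
      rw [hg]
      have h1 : D.E * D.ww * win n n ≤ D.E * D.ww * (4 * n) := Nat.mul_le_mul_left _ hwin
      have h2 : 8 * (D.E * D.ww) * n = 4 * (D.E * D.ww) * n + D.E * D.ww * (4 * n) := by ring
      omega
    have hwin0 : (0 : ℝ) ≤ (win n n : ℝ) := Nat.cast_nonneg _
    have h := coreQ_n D Sg (Qb := Qb) (n := n) (D₀ := D₀) (κ := 4 * (D.E * D.ww) * n) (G := G)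
      (P := Cρ * (win n n : ℝ) ^ D.B) (Kx := Kx) hn1 hκ hD₀ hco hcol (by omega)
      (KC_deg hle hZE hn) (mul_nonneg (by linarith) (pow_nonneg hwin0 _)) (hCρ n) hK1 hKx
      (R := R) hR (by rw [hR]; exact Nat.mul_pos hF1 hκ) (by rw [hg]; exact hG)
    rw [hg] at h
    exact h

end CM68
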