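import Pool.Agent.LibPX.LINX

/-!
# PQ: the statements for rational numbers `y`: definitions

`lev q y` is the class of `y` at a level `q` which is a multiple of the denominators.
-/

namespace CM68

open Finset Polynomial

/-- `y + c` modulo one -/
noncomputable def fy (y c : ℚ) : ℝ := ((Int.fract (y + c) : ℚ) : ℝ)

/-- `y` and the shifts `c ∈ A` have a common denominator at most `Q` -/
def DenQ (Q : ℕ) (A : Finset ℚ) (y : ℚ) : Prop :=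
  ∃ b : ℕ, 1 ≤ b ∧ b ≤ Q ∧ y.den ∣ b ∧ ∀ c ∈ A, c.den ∣ b

/-- the numbers `ζ(k, y_c)`, `k ∈ J`, `c ∈ Cs`, are a zero of a nonzero polynomial of total degree `≤ g` whose coefficients are rational
polynomials in `π` of degree `≤ h` -/
def ZeroPiQ (h : ℕ) (J : Finset ℕ) (Cs : Finset ℚ) (g : ℕ) (y : ℚ) : Prop :=
  ∃ P : MvPolynomial (J ×ˢ Cs : Finset (ℕ × ℚ)) ℚ[X], P ≠ 0 ∧ P.totalDegree ≤ g ∧
    (∀ m, (P.coeff m).natDegree ≤ h) ∧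
    P.eval₂ (aeval (R := ℚ) Real.pi).toRingHom (fun p : (J ×ˢ Cs : Finset (ℕ × ℚ)) =>
      hz (p : ℕ × ℚ).1 (fy y (p : ℕ × ℚ).2)) = 0

/-- the numbers `X = ζ(k, y_c)` and the cotangent numbers `Y = ζ(k, y_c) + (-1)^k ζ(k, 1 - y_c)` -/
noncomputable def ptQ (Φ Ψ : Finset (ℕ × ℚ)) (y : ℚ) : Φ ⊕ Ψ → ℝ :=
  Sum.elim (fun p => hz (p : ℕ × ℚ).1 (fy y (p : ℕ × ℚ).2)) fun p =>
    hz (p : ℕ × ℚ).1 (fy y (p : ℕ × ℚ).2) +
      (-1) ^ (p : ℕ × ℚ).1 * hz (p : ℕ × ℚ).1 (1 - fy y (p : ℕ × ℚ).2)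

/-- a polynomial relation of total degree `≤ g` with coefficients in `V` between these numbers, whose leading form in the numbers `X` has
positive degree and does not contain the numbers `Y` -/
def RelVQ (V : Submodule ℚ ℝ) (Φ Ψ : Finset (ℕ × ℚ)) (g : ℕ) (y : ℚ) : Prop :=
  ∃ (e : ℕ) (P : MvPolynomial (Φ ⊕ Ψ) ℝ), 1 ≤ e ∧ P.totalDegree ≤ g ∧ (∀ m, P.coeff m ∈ V) ∧
    (∀ m ∈ P.support, ∑ i : Φ, m (Sum.inl i) < e ∨
      (∑ i : Φ, m (Sum.inl i) = e ∧ ∀ j : Ψ, m (Sum.inr j) = 0)) ∧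
    (∃ m ∈ P.support, ∑ i : Φ, m (Sum.inl i) = e) ∧ MvPolynomial.eval (ptQ Φ Ψ y) P = 0

/-- some rational linear combination of the `ζ(k, y_c)`, `ζ(k, 1 - y_c)`, not only of cotangent numbers, is in `V` -/
def ExcQ (J : Finset ℕ) (Cs : Finset ℚ) (V : Submodule ℚ ℝ) (y : ℚ) : Prop :=
  ∃ lam mu : ℚ → ℕ → ℚ, (∃ c ∈ Cs, ∃ k ∈ J, lam c k ≠ (-1) ^ k * mu c k) ∧
    ∑ c ∈ Cs, ∑ k ∈ J, ((lam c k : ℝ) * hz k (fy y c) + (mu c k : ℝ) * hz k (1 - fy y c)) ∈ V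

/-- the class of `y` at the level `q` -/
def lev (q : ℕ) (y : ℚ) : ℕ := (y * q).num.toNat

/-- the class of a pair -/
def levp (q : ℕ) (p : ℕ × ℚ) : ℕ × ℕ := (p.1, lev q p.2)

end CM68
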