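import Pool.Agent.LibCM3.TG3
import Pool.Agent.LibPX.RGX
import Pool.Agent.LibPQ.CNTQ

/-!
# The count for the relations modulo the cotangent numbers, classes with a small denominator (template LibPX/RGX.lean)
-/

namespace CM68

open Finset Polynomial

variable {α β : Type*} [Fintype α] [Fintype β] {N M : ℕ}

/-- the exponent of `MvPolynomial` -/
private noncomputable def RGQ_mo (φ : α ≃ Fin N) (ψ : β ≃ Fin M) (μ : Mon N M) : α ⊕ β →₀ ℕ :=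
  Finsupp.equivFunOnFinite.symm (Sum.elim (fun p => μ.1 (φ p)) fun p => μ.2 (ψ p))

private theorem RGQ_mo_inl (φ : α ≃ Fin N) (ψ : β ≃ Fin M) (μ : Mon N M) (p : α) :
    RGQ_mo φ ψ μ (Sum.inl p) = μ.1 (φ p) := rfl

private theorem RGQ_mo_inr (φ : α ≃ Fin N) (ψ : β ≃ Fin M) (μ : Mon N M) (p : β) :
    RGQ_mo φ ψ μ (Sum.inr p) = μ.2 (ψ p) := rfl

private theorem RGQ_mo_inj (φ : α ≃ Fin N) (ψ : β ≃ Fin M) : Function.Injective (RGQ_mo φ ψ) := by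
  intro μ ν h
  refine Prod.ext ?_ ?_
  · funext i
    have h1 := DFunLike.congr_fun h (Sum.inl (φ.symm i))
    rw [RGQ_mo_inl, RGQ_mo_inl, Equiv.apply_symm_apply] at h1
    exact h1
  · funext i
    have h1 := DFunLike.congr_fun h (Sum.inr (ψ.symm i))
    rw [RGQ_mo_inr, RGQ_mo_inr, Equiv.apply_symm_apply] at h1
    exact h1

private theorem RGQ_mo_surj (φ : α ≃ Fin N) (ψ : β ≃ Fin M) (m : α ⊕ β →₀ ℕ) :
    RGQ_mo φ ψ (fun i => m (Sum.inl (φ.symm i)), fun j => m (Sum.inr (ψ.symm j))) = m := by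
  ext p
  rcases p with p | p
  · rw [RGQ_mo_inl]
    simp
  · rw [RGQ_mo_inr]
    simp

private theorem RGQ_mo_suml (φ : α ≃ Fin N) (ψ : β ≃ Fin M) (μ : Mon N M) :
    ∑ p, RGQ_mo φ ψ μ (Sum.inl p) = ∑ i, μ.1 i := by
  simp only [RGQ_mo_inl]
  exact Equiv.sum_comp φ (fun i => μ.1 i)

private theorem RGQ_mo_sum (φ : α ≃ Fin N) (ψ : β ≃ Fin M) (μ : Mon N M) :
    ((RGQ_mo φ ψ μ).sum fun _ e => e) = ∑ i, μ.1 i + ∑ i, μ.2 i := by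
  rw [Finsupp.sum_fintype _ _ (fun _ => rfl), Fintype.sum_sum_type, RGQ_mo_suml]
  simp only [RGQ_mo_inr]
  rw [Equiv.sum_comp ψ (fun i => μ.2 i)]

private theorem RGQ_rel {g : ℕ} (φ : α ≃ Fin N) (ψ : β ≃ Fin M) (P : MvPolynomial (α ⊕ β) ℝ)
    (f : α ⊕ β → ℝ) (hg : P.totalDegree ≤ g) (h : MvPolynomial.eval f P = 0) :
    ∑ μ ∈ monos N M g, P.coeff (RGQ_mo φ ψ μ) *
      ((∏ i, f (Sum.inl (φ.symm i)) ^ μ.1 i) * ∏ i, f (Sum.inr (ψ.symm i)) ^ μ.2 i) = 0 := by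
  classical
  rw [MvPolynomial.eval_eq'] at h
  rw [← h]
  have h1 : ∀ μ : Mon N M, P.coeff (RGQ_mo φ ψ μ) *
      ((∏ i, f (Sum.inl (φ.symm i)) ^ μ.1 i) * ∏ i, f (Sum.inr (ψ.symm i)) ^ μ.2 i) =
      (fun m : α ⊕ β →₀ ℕ => P.coeff m * ∏ p, f p ^ m p) (RGQ_mo φ ψ μ) := by
    intro μ
    simp only [Fintype.prod_sum_type, RGQ_mo_inl, RGQ_mo_inr]
    have h2 : ∏ i, f (Sum.inl (φ.symm i)) ^ μ.1 i = ∏ p, f (Sum.inl p) ^ μ.1 (φ p) := by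
      rw [← Equiv.prod_comp φ (fun i => f (Sum.inl (φ.symm i)) ^ μ.1 i)]
      refine Finset.prod_congr rfl fun p _ => ?_
      rw [Equiv.symm_apply_apply]
    have h3 : ∏ i, f (Sum.inr (ψ.symm i)) ^ μ.2 i = ∏ p, f (Sum.inr p) ^ μ.2 (ψ p) := by
      rw [← Equiv.prod_comp ψ (fun i => f (Sum.inr (ψ.symm i)) ^ μ.2 i)]
      refine Finset.prod_congr rfl fun p _ => ?_
      rw [Equiv.symm_apply_apply]
    rw [h2, h3]
  have h3 : ∑ μ ∈ monos N M g,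
      (fun m : α ⊕ β →₀ ℕ => P.coeff m * ∏ p, f p ^ m p) (RGQ_mo φ ψ μ) =
      ∑ m ∈ (monos N M g).image (RGQ_mo φ ψ),
        (fun m : α ⊕ β →₀ ℕ => P.coeff m * ∏ p, f p ^ m p) m := by
    generalize (fun m : α ⊕ β →₀ ℕ => P.coeff m * ∏ p, f p ^ m p) = G
    rw [Finset.sum_image]
    exact (RGQ_mo_inj φ ψ).injOn
  rw [Finset.sum_congr rfl fun μ _ => h1 μ, h3]
  symm
  refine Finset.sum_subset ?_ ?_
  · intro m hm
    refine mem_image.2 ⟨(fun i => m (Sum.inl (φ.symm i)), fun j => m (Sum.inr (ψ.symm j))), ?_,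
      RGQ_mo_surj φ ψ m⟩
    rw [mem_monos]
    have h2 := MvPolynomial.le_totalDegree hm
    rw [← RGQ_mo_surj φ ψ m, RGQ_mo_sum] at h2
    exact h2.trans hg
  · intro m _ hm
    rw [MvPolynomial.notMem_support_iff] at hm
    rw [hm, zero_mul]

/-- `x / q` and the `c / q`, `c ∈ A`, have a common denominator at most `Qb` -/
def DenC (Qb q x : ℕ) (A : Finset ℕ) : Prop :=
  ∃ d b : ℕ, 2 ≤ b ∧ b ≤ Qb ∧ q = d * b ∧ d ∣ x ∧ ∀ c ∈ A, d ∣ c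

theorem countEQ {q w g e DD lam Qb : ℕ} {V : Submodule ℚ ℝ} [Module.Finite ℚ V]
    (hD : Module.finrank ℚ V = DD + 1) {Φ Ψ : Finset (ℕ × ℕ)} {I₀ : Finset ℕ}
    (hq : 2 ≤ q) (hQb : 2 ≤ Qb) (hlam : Real.log Qb + 2 ≤ lam)
    (hΦ : ∀ p ∈ Φ, 2 ≤ p.1 ∧ p.1 ≤ w ∧ p.2 < q)
    (hΨ : ∀ p ∈ Ψ, 2 ≤ p.1 ∧ p.1 ≤ w ∧ p.2 < q) (he : 1 ≤ e) (heg : e ≤ g)
    (hI : ∀ x ∈ I₀, x < q ∧ (∀ p ∈ Φ, 0 < (x + p.2) % q) ∧ (∀ p ∈ Ψ, 0 < (x + p.2) % q) ∧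
      DenC Qb q x (Φ.image Prod.snd ∪ Ψ.image Prod.snd) ∧ ∃ P, RelE V Φ Ψ g e q x P) :
    g * I₀.card ≤ w * (26 * ((Φ.card + Ψ.card + g).choose g * (DD + 1)) * (3 * lam)) ^
      (6 * ((Φ.card + Ψ.card + g).choose g * (DD + 1)) + 2) := by
  classical
  obtain ⟨N, hN⟩ : ∃ N, N = Φ.card := ⟨_, rfl⟩
  obtain ⟨M, hM⟩ : ∃ M, M = Ψ.card := ⟨_, rfl⟩
  obtain ⟨φ⟩ : Nonempty (Φ ≃ Fin N) := by
    rw [hN]
    exact ⟨Φ.equivFin⟩
  obtain ⟨ψ⟩ : Nonempty (Ψ ≃ Fin M) := by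
    rw [hM]
    exact ⟨Ψ.equivFin⟩
  have hex : ∀ x, ∃ P : MvPolynomial (Φ ⊕ Ψ) ℝ, x ∈ I₀ → RelE V Φ Ψ g e q x P := by
    intro x
    by_cases hx : x ∈ I₀
    · obtain ⟨P, hP⟩ := (hI x hx).2.2.2.2
      exact ⟨P, fun _ => hP⟩
    · exact ⟨0, fun h => absurd h hx⟩
  choose P hP using hex
  have hq1 : 1 ≤ q := by omega
  have hqR : (q : ℝ) ≠ 0 := by exact_mod_cast (by omega : q ≠ 0)
  have hmain := countQ (q := q) (w := w) (g := g) (e := e) (N := N) (M := M) (DD := DD)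
    (lam := lam) (Qb := Qb)
    (fun i => (φ.symm i : ℕ × ℕ).1) (fun i => (φ.symm i : ℕ × ℕ).2)
    (fun i => (ψ.symm i : ℕ × ℕ).1) (fun i => (ψ.symm i : ℕ × ℕ).2) V hD I₀
    (fun μ x => (P x).coeff (RGQ_mo φ ψ μ) * (q : ℝ) ^ (∑ i, (φ.symm i : ℕ × ℕ).1 * μ.1 i +
      ∑ i, (ψ.symm i : ℕ × ℕ).1 * μ.2 i))
    hq hQb hlam
    (fun i => ⟨(hΦ _ (φ.symm i).2).1, (hΦ _ (φ.symm i).2).2.1⟩)
    (fun i => ⟨(hΨ _ (ψ.symm i).2).1, (hΨ _ (ψ.symm i).2).2.1⟩)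
    (fun i => (hΦ _ (φ.symm i).2).2.2) (fun i => (hΨ _ (ψ.symm i).2).2.2)
    (fun a b hab => φ.symm.injective (Subtype.ext (by simpa using hab)))
    (fun x hx => (hI x hx).1) (fun x hx => by
      obtain ⟨d, b, h1, h2, h3, h4, h5⟩ := (hI x hx).2.2.2.1
      exact ⟨d, b, h1, h2, h3, h4,
        fun i => h5 _ (mem_union_left _ (mem_image_of_mem Prod.snd (φ.symm i).2)),
        fun i => h5 _ (mem_union_right _ (mem_image_of_mem Prod.snd (ψ.symm i).2))⟩)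
    (fun x hx i => (hI x hx).2.1 _ (φ.symm i).2)
    (fun x hx i => (hI x hx).2.2.1 _ (ψ.symm i).2) he heg ?_ ?_ ?_ ?_
  · rw [card_monos, hN, hM] at hmain
    exact hmain
  · intro x hx μ
    have h1 := (hP x hx).2.1 (RGQ_mo φ ψ μ)
    have h2 := V.smul_mem ((q : ℚ) ^ (∑ i, (φ.symm i : ℕ × ℕ).1 * μ.1 i +
      ∑ i, (ψ.symm i : ℕ × ℕ).1 * μ.2 i)) h1
    rw [Rat.smul_def] at h2
    have h3 : (((q : ℚ) ^ (∑ i, (φ.symm i : ℕ × ℕ).1 * μ.1 i +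
        ∑ i, (ψ.symm i : ℕ × ℕ).1 * μ.2 i) : ℚ) : ℝ) * (P x).coeff (RGQ_mo φ ψ μ) =
        (P x).coeff (RGQ_mo φ ψ μ) * (q : ℝ) ^ (∑ i, (φ.symm i : ℕ × ℕ).1 * μ.1 i +
          ∑ i, (ψ.symm i : ℕ × ℕ).1 * μ.2 i) := by
      rw [mul_comm, Rat.cast_pow, Rat.cast_natCast]
    rw [h3] at h2
    exact h2
  · intro x hx μ _ h
    have h0 : RGQ_mo φ ψ μ ∈ (P x).support := by
      rw [MvPolynomial.mem_support_iff]
      exact left_ne_zero_of_mul h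
    rcases (hP x hx).2.2.1 _ h0 with h1 | ⟨h1, h2⟩
    · rw [RGQ_mo_suml] at h1
      exact Or.inl h1
    · rw [RGQ_mo_suml] at h1
      refine Or.inr ⟨h1, ?_⟩
      funext j
      have h3 := h2 (ψ.symm j)
      rw [RGQ_mo_inr, Equiv.apply_symm_apply] at h3
      exact h3
  · intro x hx
    obtain ⟨m, hm, hme⟩ := (hP x hx).2.2.2.1
    have hmr : ∀ j : Ψ, m (Sum.inr j) = 0 := by
      rcases (hP x hx).2.2.1 m hm with h1 | h1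
      · omega
      · exact h1.2
    have hm₀ : RGQ_mo φ ψ ((fun i => m (Sum.inl (φ.symm i)), 0) : Mon N M) = m := by
      have h1 := RGQ_mo_surj φ ψ m
      have h2 : (fun j => m (Sum.inr (ψ.symm j))) = 0 := by
        funext j
        exact hmr _
      rw [h2] at h1
      exact h1
    refine ⟨fun i => m (Sum.inl (φ.symm i)), ?_, ?_⟩
    · rw [← hme]
      exact Equiv.sum_comp φ.symm (fun p => m (Sum.inl p))
    · have h1 := MvPolynomial.mem_support_iff.1 hm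
      rw [← hm₀] at h1
      exact mul_ne_zero h1 (pow_ne_zero _ hqR)
  · intro x hx
    rw [← RGQ_rel φ ψ (P x) _ (hP x hx).1 (hP x hx).2.2.2.2]
    refine Finset.sum_congr rfl fun μ _ => ?_
    rw [mul_assoc]
    congr 1
    have e1 : ∏ i, ptG Φ Ψ q x (Sum.inl (φ.symm i)) ^ μ.1 i =
        (q : ℝ) ^ (∑ i, (φ.symm i : ℕ × ℕ).1 * μ.1 i) *
          ∏ i, Sx q (φ.symm i : ℕ × ℕ).1 (φ.symm i : ℕ × ℕ).2 x ^ μ.1 i := by
      rw [← Finset.prod_pow_eq_pow_sum, ← Finset.prod_mul_distrib]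
      refine Finset.prod_congr rfl fun i _ => ?_
      unfold ptG Sx
      rw [Sum.elim_inl, hz_scale hq1, mul_pow, pow_mul]
    have e2 : ∏ i, ptG Φ Ψ q x (Sum.inr (ψ.symm i)) ^ μ.2 i =
        (q : ℝ) ^ (∑ i, (ψ.symm i : ℕ × ℕ).1 * μ.2 i) *
          ∏ i, Tx q (ψ.symm i : ℕ × ℕ).1 (ψ.symm i : ℕ × ℕ).2 x ^ μ.2 i := by
      rw [← Finset.prod_pow_eq_pow_sum, ← Finset.prod_mul_distrib]
      refine Finset.prod_congr rfl fun i _ => ?_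
      unfold ptG Tx
      have e3 : (1 : ℝ) - (((x + (ψ.symm i : ℕ × ℕ).2) % q : ℕ) : ℝ) / q =
          ((q : ℝ) - (((x + (ψ.symm i : ℕ × ℕ).2) % q : ℕ) : ℝ)) / q := by field_simp
      rw [Sum.elim_inr, e3, hz_scale hq1, hz_scale hq1, pow_mul, ← mul_pow]
      congr 1
      ring
    rw [e1, e2, pow_add]
    ring

/-- the bound -/
def bQ (w K lam : ℕ) : ℕ := w * (26 * K * (3 * lam)) ^ (6 * K + 2)

theorem bQ_mono {w w' K K' lam : ℕ} (hlam : 1 ≤ lam) (hw : w ≤ w') (hK : K ≤ K') (hK' : 1 ≤ K') :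
    bQ w K lam ≤ bQ w' K' lam := by
  unfold bQ
  refine Nat.mul_le_mul hw ((Nat.pow_le_pow_left ?_ _).trans (Nat.pow_le_pow_right ?_ ?_))
  · exact Nat.mul_le_mul_right _ (Nat.mul_le_mul_left _ hK)
  · exact Nat.mul_pos (Nat.mul_pos (by norm_num) hK') (Nat.mul_pos (by norm_num) hlam)
  · omega

theorem lam_pos {Qb lam : ℕ} (hQb : 2 ≤ Qb) (hlam : Real.log Qb + 2 ≤ lam) : 1 ≤ lam := by
  have h1 : (0 : ℝ) ≤ Real.log Qb := Real.log_nonneg (by exact_mod_cast (by omega : 1 ≤ Qb))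
  have h2 : (1 : ℝ) ≤ lam := by linarith
  exact_mod_cast h2

/-- the count for the relations `RelV` -/
theorem count_GQ {Φ Ψ : Finset (ℕ × ℕ)} {w g D q lam Qb : ℕ} (hg : 1 ≤ g) (hq : 2 ≤ q)
    (hQb : 2 ≤ Qb) (hlam : Real.log Qb + 2 ≤ lam) (hΦ : ∀ p ∈ Φ, 2 ≤ p.1 ∧ p.1 ≤ w ∧ p.2 < q)
    (hΨ : ∀ p ∈ Ψ, 2 ≤ p.1 ∧ p.1 ≤ w ∧ p.2 < q)
    {V : Submodule ℚ ℝ} (hVf : Module.Finite ℚ V) (hVD : Module.finrank ℚ V ≤ D) :
    {x : ℕ | x < q ∧ (∀ p ∈ Φ, 0 < (x + p.2) % q) ∧ (∀ p ∈ Ψ, 0 < (x + p.2) % q) ∧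
      DenC Qb q x (Φ.image Prod.snd ∪ Ψ.image Prod.snd) ∧ RelV V Φ Ψ g q x}.ncard ≤ bQ w (D * (Φ.card + Ψ.card + g).choose g) lam := by
  classical
  have hlam1 := lam_pos hQb hlam
  rcases Nat.eq_zero_or_pos (Module.finrank ℚ V) with hr0 | hrpos
  · have hbot : V = ⊥ := by
      have hVf' := hVf
      exact Submodule.finrank_eq_zero.1 hr0
    have hemp : {x : ℕ | x < q ∧ (∀ p ∈ Φ, 0 < (x + p.2) % q) ∧ (∀ p ∈ Ψ, 0 < (x + p.2) % q) ∧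
        DenC Qb q x (Φ.image Prod.snd ∪ Ψ.image Prod.snd) ∧ RelV V Φ Ψ g q x} = ∅ := by
      rw [Set.eq_empty_iff_forall_notMem]
      rintro x ⟨-, -, -, -, e, P, -, -, hPV, -, ⟨m, hm, -⟩, -⟩
      have h1 := hPV m
      rw [hbot, Submodule.mem_bot] at h1
      exact MvPolynomial.mem_support_iff.1 hm h1
    rw [hemp, Set.ncard_empty]
    exact Nat.zero_le _
  obtain ⟨s, hs⟩ : ∃ s, Module.finrank ℚ V = s + 1 := ⟨Module.finrank ℚ V - 1, by omega⟩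
  obtain ⟨I, hIdef⟩ : ∃ I : ℕ → Finset ℕ, ∀ e, I e =
      (range q).filter fun x => (∀ p ∈ Φ, 0 < (x + p.2) % q) ∧ (∀ p ∈ Ψ, 0 < (x + p.2) % q) ∧
        DenC Qb q x (Φ.image Prod.snd ∪ Ψ.image Prod.snd) ∧ ∃ P, RelE V Φ Ψ g e q x P :=
    ⟨_, fun _ => rfl⟩
  have hch : 1 ≤ (Φ.card + Ψ.card + g).choose g := Nat.choose_pos (Nat.le_add_left _ _)
  obtain ⟨K, hK⟩ : ∃ K, K = D * (Φ.card + Ψ.card + g).choose g := ⟨_, rfl⟩
  have hK' : (Φ.card + Ψ.card + g).choose g * (s + 1) ≤ K := by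
    rw [hK, mul_comm]
    exact Nat.mul_le_mul_right _ (by omega)
  have hK1 : 1 ≤ K := le_trans (Nat.mul_pos hch (by omega)) hK'
  have hIcard : ∀ e ∈ Icc 1 g, g * (I e).card ≤ bQ w K lam := by
    intro e he
    rw [mem_Icc] at he
    have hVf' := hVf
    have h1 := countEQ (V := V) hs (e := e) (g := g) (I₀ := I e) hq hQb hlam hΦ hΨ he.1 he.2 (by
      intro x hx
      rw [hIdef, mem_filter, mem_range] at hx
      exact hx)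
    exact h1.trans (bQ_mono hlam1 le_rfl hK' hK1)
  have hsub : {x : ℕ | x < q ∧ (∀ p ∈ Φ, 0 < (x + p.2) % q) ∧ (∀ p ∈ Ψ, 0 < (x + p.2) % q) ∧
      DenC Qb q x (Φ.image Prod.snd ∪ Ψ.image Prod.snd) ∧ RelV V Φ Ψ g q x} ⊆
      (((Icc 1 g).biUnion fun e => I e : Finset ℕ) : Set ℕ) := by
    rintro x ⟨hx1, hx2, hx3, hxd, e, P, he, hPg, hPV, hPs, ⟨m, hm, hme⟩, hP0⟩
    have heg : e ≤ g := by
      have h1 := MvPolynomial.le_totalDegree hm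
      rw [Finsupp.sum_fintype _ _ (fun _ => rfl), Fintype.sum_sum_type, hme] at h1
      omega
    rw [mem_coe, mem_biUnion]
    refine ⟨e, mem_Icc.2 ⟨he, heg⟩, ?_⟩
    rw [hIdef, mem_filter, mem_range]
    exact ⟨hx1, hx2, hx3, hxd, P, hPg, hPV, hPs, ⟨m, hm, hme⟩, hP0⟩
  have hfin := Set.ncard_le_ncard hsub (Finset.finite_toSet _)
  rw [Set.ncard_coe_finset] at hfin
  rw [← hK]
  refine hfin.trans ?_
  have h1 : g * ((Icc 1 g).biUnion fun e => I e).card ≤ g * bQ w K lam := by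
    calc g * ((Icc 1 g).biUnion fun e => I e).card ≤ g * ∑ e ∈ Icc 1 g, (I e).card :=
          Nat.mul_le_mul_left _ card_biUnion_le
      _ = ∑ e ∈ Icc 1 g, g * (I e).card := Finset.mul_sum _ _ _
      _ ≤ ∑ _e ∈ Icc 1 g, bQ w K lam := Finset.sum_le_sum hIcard
      _ = g * bQ w K lam := by
          rw [Finset.sum_const, Nat.card_Icc, smul_eq_mul, Nat.add_sub_cancel]
  exact Nat.le_of_mul_le_mul_left h1 hg

end CM68
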