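import Pool.Agent.LibPQ.QY

/-!
# Row TR0: the class of a rational number (SHORT/MEDIUM)

`lev_cast`: `q = y.den * t`, `y * q = y.num * t` is an integer (`Rat.num_div_den`, `Rat.den_eq_one_iff`..): `(y * q).num = y * q` as `(y * q).den = 1`, nonnegative (`Int.toNat_of_nonneg`).
`lev_fract`: `X = lev q y + lev q c = (y + c) q` in `ℚ`; `X = q (X / q) + X % q` (`Nat.div_add_mod`), so `(X % q) / q = (y + c) - (X / q : ℕ)`, in `[0, 1)`: it is `Int.fract (y + c)` (`Int.fract_eq_iff`), cast to `ℝ`.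
`lev_dvd`: `y * q = (y * b) * d`, `y * b` is a natural number.
-/

namespace CM68

private theorem TR0_int {q : ℕ} {y : ℚ} (hd : y.den ∣ q) :
    (((y * q).num : ℤ) : ℚ) = y * q := by
  obtain ⟨t, rfl⟩ := hd
  have h1 : y * ((y.den * t : ℕ) : ℚ) = ((y.num * (t : ℤ) : ℤ) : ℚ) := by
    push_cast
    rw [← mul_assoc, Rat.mul_den_eq_num]
  rw [h1, Rat.num_intCast]

theorem lev_cast {q : ℕ} {y : ℚ} (h0 : 0 ≤ y) (hd : y.den ∣ q) : ((lev q y : ℕ) : ℚ) = y * q := by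
  have h1 := TR0_int (q := q) (y := y) hd
  have h2 : 0 ≤ (y * q).num := by
    rw [Rat.num_nonneg]
    positivity
  rw [← h1, lev]
  exact_mod_cast Int.toNat_of_nonneg h2

theorem lev_lt {q : ℕ} {y : ℚ} (hq : 1 ≤ q) (h0 : 0 ≤ y) (h1 : y < 1) (hd : y.den ∣ q) :
    lev q y < q := by
  have h2 := lev_cast h0 hd
  have hq' : (0 : ℚ) < q := by exact_mod_cast hq
  have h3 : ((lev q y : ℕ) : ℚ) < q := by
    rw [h2]
    calc y * q < 1 * q := mul_lt_mul_of_pos_right h1 hq'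
      _ = q := one_mul _
  exact_mod_cast h3

theorem lev_dvd {q d b : ℕ} {y : ℚ} (hq : q = d * b) (h0 : 0 ≤ y) (hd : y.den ∣ b) :
    d ∣ lev q y := by
  have hdq : y.den ∣ q := by
    rw [hq]
    exact hd.mul_left d
  have h1 := lev_cast h0 hdq
  have h2 := lev_cast h0 hd
  refine ⟨lev b y, ?_⟩
  have h3 : ((lev q y : ℕ) : ℚ) = ((d * lev b y : ℕ) : ℚ) := by
    rw [h1, hq]
    push_cast
    rw [h2]
    ring
  exact_mod_cast h3

theorem lev_inj {q : ℕ} {y y' : ℚ} (hq : 1 ≤ q) (h0 : 0 ≤ y) (h0' : 0 ≤ y') (hd : y.den ∣ q)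
    (hd' : y'.den ∣ q) (h : lev q y = lev q y') : y = y' := by
  have h1 := lev_cast h0 hd
  have h2 := lev_cast h0' hd'
  have hq' : (q : ℚ) ≠ 0 := by
    have : (0 : ℚ) < q := by exact_mod_cast hq
    exact this.ne'
  have h3 : y * q = y' * q := by rw [← h1, ← h2, h]
  exact mul_right_cancel₀ hq' h3

theorem lev_fract {q : ℕ} {y c : ℚ} (hq : 1 ≤ q) (hy : 0 ≤ y) (hc : 0 ≤ c) (hdy : y.den ∣ q)
    (hdc : c.den ∣ q) : (((lev q y + lev q c) % q : ℕ) : ℝ) / q = fy y c := by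
  have h1 := lev_cast hy hdy
  have h2 := lev_cast hc hdc
  have hq' : (0 : ℚ) < q := by exact_mod_cast hq
  have hq0 : (q : ℚ) ≠ 0 := hq'.ne'
  have h3 : (((lev q y + lev q c : ℕ)) : ℚ) = (y + c) * q := by
    push_cast
    rw [h1, h2]
    ring
  have h4 : (q : ℚ) * (((lev q y + lev q c) / q : ℕ) : ℚ) +
      (((lev q y + lev q c) % q : ℕ) : ℚ) = (y + c) * q := by
    rw [← h3]
    exact_mod_cast Nat.div_add_mod (lev q y + lev q c) q
  have h5 : Int.fract (y + c) = (((lev q y + lev q c) % q : ℕ) : ℚ) / q := by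
    rw [Int.fract_eq_iff]
    refine ⟨by positivity, ?_, ((((lev q y + lev q c) / q : ℕ) : ℤ)), ?_⟩
    · rw [div_lt_one hq']
      exact_mod_cast Nat.mod_lt _ (by omega)
    · rw [Int.cast_natCast]
      have h6 : y + c = ((q : ℚ) * (((lev q y + lev q c) / q : ℕ) : ℚ) +
          (((lev q y + lev q c) % q : ℕ) : ℚ)) / q := by
        rw [h4, mul_div_cancel_right₀ _ hq0]
      rw [add_div, mul_div_cancel_left₀ _ hq0] at h6
      linarith
  rw [fy, h5]
  push_cast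
  rfl

theorem lev_pos {q : ℕ} {y c : ℚ} (hq : 1 ≤ q) (hy : 0 ≤ y) (hc : 0 ≤ c) (hdy : y.den ∣ q)
    (hdc : c.den ∣ q) (h : Int.fract (y + c) ≠ 0) : 0 < (lev q y + lev q c) % q := by
  rw [Nat.pos_iff_ne_zero]
  intro h0
  have h1 := lev_fract hq hy hc hdy hdc
  rw [h0, Nat.cast_zero, zero_div, fy] at h1
  exact h (by exact_mod_cast h1.symm)

end CM68
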