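import Pool.Agent.LibPX.VALX
import Pool.Agent.LibPQ.RGQ

/-!
# The counts for the numbers `ζ(k, y) / ζ(k, 1 - y)`, `lam ζ(k, y) + mu ζ(k, 1 - y)` and for `N` numbers (template LibPX/VALX.lean by helper5)
-/

namespace CM68

open Finset Polynomial

theorem countLQ {q k g e DD lam Qb : ℕ} {V : Submodule ℚ ℝ} [Module.Finite ℚ V]
    (hD : Module.finrank ℚ V = DD + 1) {I₀ : Finset ℕ} (hq : 2 ≤ q) (hQb : 2 ≤ Qb)
    (hlam : Real.log Qb + 2 ≤ lam) (hk : 2 ≤ k) (he : 1 ≤ e) (heg : e ≤ g)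
    (hI : ∀ x ∈ I₀, 0 < x ∧ x < q ∧ DenC Qb q x ∅ ∧ ∃ c : ℕ → ℕ → ℝ, RelLV V k g e q x c) :
    g * I₀.card ≤ bQ k ((2 + g).choose g * (DD + 1)) lam := by
  classical
  have hb : ∃ b : ℕ → ℕ → ℕ → ℝ, ∀ x ∈ I₀, RelLV V k g e q x (b x) := by
    choose! hx0 hxq hxd b hb using hI
    exact ⟨b, hb⟩
  obtain ⟨b, hb⟩ := hb
  have hmod : ∀ x ∈ I₀, (x + 0) % q = x := by
    intro x hx
    rw [add_zero, Nat.mod_eq_of_lt (hI x hx).2.1]
  have hmain := countQ (q := q) (w := k) (g := g) (e := e) (N := 1) (M := 1) (DD := DD)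
    (lam := lam) (Qb := Qb) (fun _ => k) (fun _ => 0)
    (fun _ => k) (fun _ => 0) V hD I₀ (fun μ x => b x (μ.1 0) (μ.2 0))
    hq hQb hlam (fun _ => ⟨hk, le_refl _⟩) (fun _ => ⟨hk, le_refl _⟩)
    (fun _ => by omega)
    (fun _ => by omega) (fun a b _ => Subsingleton.elim a b) (fun x hx => (hI x hx).2.1)
    (fun x hx => by
      obtain ⟨d, b, h1, h2, h3, h4, -⟩ := (hI x hx).2.2.1
      exact ⟨d, b, h1, h2, h3, h4, fun _ => dvd_zero _, fun _ => dvd_zero _⟩)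
    (fun x hx _ => by rw [hmod x hx]; exact (hI x hx).1)
    (fun x hx _ => by rw [hmod x hx]; exact (hI x hx).1) he heg
    (fun x hx μ => (hb x hx).1 _ _) ?_ ?_ ?_
  · rw [card_monos] at hmain
    exact hmain
  · intro x hx μ _ hμ
    have e1 : ∑ i, μ.1 i = μ.1 0 := by simp
    rw [e1]
    rcases (hb x hx).2.1 _ _ hμ with h | h
    · exact Or.inl h
    · refine Or.inr ⟨h.1, funext fun a => ?_⟩
      rw [Subsingleton.elim a 0]
      exact h.2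
  · intro x hx
    exact ⟨fun _ => e, by simp, (hb x hx).2.2.1⟩
  · intro x hx
    refine Eq.trans (Finset.sum_congr rfl fun μ _ => ?_) (hb x hx).2.2.2
    simp only [Finset.univ_unique, Finset.prod_singleton, Sx, Tx, hmod x hx]
    rfl

/-- the count for all the numbers in `Vals`, coefficients in `V` -/
theorem vals_countQ {k g D q lam Qb : ℕ} (hk : 2 ≤ k) (hg : 1 ≤ g) (hq : 2 ≤ q) (hQb : 2 ≤ Qb)
    (hlam : Real.log Qb + 2 ≤ lam) {V : Submodule ℚ ℝ} (hVf : Module.Finite ℚ V)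
    (hVD : Module.finrank ℚ V ≤ D) :
    {x : ℕ | 0 < x ∧ x < q ∧ 2 * x ≠ q ∧ DenC Qb q x ∅ ∧ ∃ ρ ∈ Vals k ((x : ℝ) / q), RootV V g ρ}.ncard ≤
      bQ k (D * (2 + g).choose g) lam := by
  classical
  have hlam1 := lam_pos hQb hlam
  rcases Nat.eq_zero_or_pos (Module.finrank ℚ V) with hr0 | hrpos
  · have hbot : V = ⊥ := by
      have hVf' := hVf
      exact Submodule.finrank_eq_zero.1 hr0
    have hemp : {x : ℕ | 0 < x ∧ x < q ∧ 2 * x ≠ q ∧ DenC Qb q x ∅ ∧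
        ∃ ρ ∈ Vals k ((x : ℝ) / q), RootV V g ρ} = ∅ := by
      rw [Set.eq_empty_iff_forall_notMem]
      rintro x ⟨-, -, -, -, ρ, -, P, hP0, -, hPV, -⟩
      apply hP0
      ext i
      have h1 := hPV i
      rw [hbot, Submodule.mem_bot] at h1
      rw [h1, coeff_zero]
    rw [hemp, Set.ncard_empty]
    exact Nat.zero_le _
  obtain ⟨s, hs⟩ : ∃ s, Module.finrank ℚ V = s + 1 := ⟨Module.finrank ℚ V - 1, by omega⟩
  obtain ⟨I, hIdef⟩ : ∃ I : ℕ → Finset ℕ, ∀ e, I e =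
      (range q).filter fun x => 0 < x ∧ DenC Qb q x ∅ ∧ ∃ c : ℕ → ℕ → ℝ, RelLV V k g e q x c :=
    ⟨_, fun _ => rfl⟩
  have hch : 1 ≤ (2 + g).choose g := Nat.choose_pos (Nat.le_add_left _ _)
  obtain ⟨K, hK⟩ : ∃ K, K = D * (2 + g).choose g := ⟨_, rfl⟩
  have hK' : (2 + g).choose g * (s + 1) ≤ K := by
    rw [hK, mul_comm]
    exact Nat.mul_le_mul_right _ (by omega)
  have hK1 : 1 ≤ K := le_trans (Nat.mul_pos hch (by omega)) hK'
  have hIcard : ∀ e ∈ Icc 1 g, g * (I e).card ≤ bQ k K lam := by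
    intro e he
    rw [mem_Icc] at he
    have hVf' := hVf
    have h1 := countLQ (V := V) hs (e := e) (g := g) (I₀ := I e) hq hQb hlam hk he.1 he.2 (by
      intro x hx
      rw [hIdef, mem_filter, mem_range] at hx
      exact ⟨hx.2.1, hx.1, hx.2.2.1, hx.2.2.2⟩)
    exact h1.trans (bQ_mono hlam1 le_rfl hK' hK1)
  have hsub : {x : ℕ | 0 < x ∧ x < q ∧ 2 * x ≠ q ∧ DenC Qb q x ∅ ∧
      ∃ ρ ∈ Vals k ((x : ℝ) / q), RootV V g ρ} ⊆
      (((Icc 1 g).biUnion fun e => I e : Finset ℕ) : Set ℕ) := by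
    rintro x ⟨hx0, hxq, hx2, hxd, ρ, hρ, hR⟩
    rw [mem_coe, mem_biUnion]
    rcases hρ with rfl | ⟨l, m, hlm, rfl⟩
    · obtain ⟨e, he1, heg, b, hb⟩ := relBV_of hq hk hx0 hxq hx2 hR
      refine ⟨e, mem_Icc.2 ⟨he1, heg⟩, ?_⟩
      rw [hIdef, mem_filter, mem_range]
      exact ⟨hxq, hx0, hxd, _, relLV_of_BV heg hb⟩
    · obtain ⟨e, he1, heg, c, hc⟩ := relLV_of hq hk hx0 hxq hlm hR
      refine ⟨e, mem_Icc.2 ⟨he1, heg⟩, ?_⟩
      rw [hIdef, mem_filter, mem_range]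
      exact ⟨hxq, hx0, hxd, c, hc⟩
  have hfin := Set.ncard_le_ncard hsub (Finset.finite_toSet _)
  rw [Set.ncard_coe_finset] at hfin
  rw [← hK]
  refine hfin.trans ?_
  have h1 : g * ((Icc 1 g).biUnion fun e => I e).card ≤ g * bQ k K lam := by
    calc g * ((Icc 1 g).biUnion fun e => I e).card ≤ g * ∑ e ∈ Icc 1 g, (I e).card :=
          Nat.mul_le_mul_left _ card_biUnion_le
      _ = ∑ e ∈ Icc 1 g, g * (I e).card := Finset.mul_sum _ _ _
      _ ≤ ∑ _e ∈ Icc 1 g, bQ k K lam := Finset.sum_le_sum hIcard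
      _ = g * bQ k K lam := by
          rw [Finset.sum_const, Nat.card_Icc, smul_eq_mul, Nat.add_sub_cancel]
  exact Nat.le_of_mul_le_mul_left h1 hg

/-- the count for `N = |J| r` numbers -/
theorem zeroV_countQ {J : Finset ℕ} {w : ℕ} (h2 : ∀ k ∈ J, 2 ≤ k ∧ k ≤ w)
    {r g D q lam Qb : ℕ} (hg : 1 ≤ g) (hq : 2 ≤ q) (hQb : 2 ≤ Qb) (hlam : Real.log Qb + 2 ≤ lam)
    {V : Submodule ℚ ℝ} (hVf : Module.Finite ℚ V) (hVD : Module.finrank ℚ V ≤ D)
    {Cs : Finset ℕ} (hcard : Cs.card = r) (hCs : ∀ c ∈ Cs, c < q) :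
    {x : ℕ | x < q ∧ (∀ c ∈ Cs, 0 < (x + c) % q) ∧ DenC Qb q x Cs ∧ ZeroV V J Cs g q x}.ncard ≤
      bQ w (D * (J.card * r + g).choose g) lam := by
  classical
  have h1 := count_GQ (Φ := J ×ˢ Cs) (Ψ := ∅) (w := w) (g := g) (D := D) (q := q) (lam := lam)
    (Qb := Qb) hg hq hQb hlam (by
      rintro ⟨k, c⟩ hp
      obtain ⟨h3, h4⟩ := mem_product.1 hp
      exact ⟨(h2 k h3).1, (h2 k h3).2, hCs c h4⟩) (by
      intro p hp
      exact absurd hp (Finset.notMem_empty p)) hVf hVD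
  rw [card_product, hcard, card_empty, add_zero] at h1
  refine (Set.ncard_le_ncard ?_ ((Set.finite_Iio q).subset fun x hx => hx.1)).trans h1
  rintro x ⟨hx1, hx2, hxd, hx3⟩
  refine ⟨hx1, ?_, ?_, ?_, relV_of_zeroV hx3⟩
  · rintro ⟨k, c⟩ hp
    exact hx2 c (mem_product.1 hp).2
  · intro p hp
    exact absurd hp (Finset.notMem_empty p)
  · obtain ⟨d, b, h3, h4, h5, h6, h7⟩ := hxd
    refine ⟨d, b, h3, h4, h5, h6, fun c hc => h7 c ?_⟩
    rw [image_empty, union_empty, mem_image] at hc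
    obtain ⟨p, hp, rfl⟩ := hc
    exact (mem_product.1 hp).2

end CM68
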